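import Pool.Agent.Lib.MP_01b126_co.Ul.UDefs
import Pool.Agent.Lib.MP_01b126_co.Defs

/-!
# MP_01b126_co, ultralimit: two different faces are separated by a side line of one of them

Everything happens in integer barycentric coordinates.
-/

namespace MP01b126.SF

/-- if two coordinates of `P` are positive and `PQ` does not cross `ab`, then the triangle `abc` is
on one side of the line `PQ` -/
theorem same_side {p1 p2 p3 u v w : ℤ} (h1 : 1 ≤ p1) (h2 : 1 ≤ p2) (h3 : p3 ≤ -1)
    (huv : 0 ≤ u * v) (hr : p1 * u + p2 * v + p3 * w = 0) :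
    (0 ≤ u ∧ 0 ≤ v ∧ 0 ≤ w) ∨ (u ≤ 0 ∧ v ≤ 0 ∧ w ≤ 0) := by
  have key : (0 ≤ u ∧ 0 ≤ v) ∨ (u ≤ 0 ∧ v ≤ 0) := by
    rcases lt_trichotomy u 0 with h | h | h
    · right; refine ⟨h.le, ?_⟩; by_contra hc; push Not at hc; nlinarith
    · rcases le_total 0 v with h' | h'
      · left; exact ⟨h.ge, h'⟩
      · right; exact ⟨h.le, h'⟩
    · left; refine ⟨h.le, ?_⟩; by_contra hc; push Not at hc; nlinarith
  rcases key with ⟨hu, hv⟩ | ⟨hu, hv⟩
  · left; refine ⟨hu, hv, ?_⟩
    by_contra hc; push Not at hc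
    nlinarith [mul_nonneg (show (0:ℤ) ≤ p1 by linarith) hu,
      mul_nonneg (show (0:ℤ) ≤ p2 by linarith) hv,
      mul_pos_of_neg_of_neg (show p3 < 0 by linarith) hc]
  · right; refine ⟨hu, hv, ?_⟩
    by_contra hc; push Not at hc
    nlinarith [mul_nonneg (show (0:ℤ) ≤ p1 by linarith) (show (0:ℤ) ≤ -u by linarith),
      mul_nonneg (show (0:ℤ) ≤ p2 by linarith) (show (0:ℤ) ≤ -v by linarith),
      mul_neg_of_neg_of_pos (show p3 < 0 by linarith) hc]

theorem d_rot (a b c : Pt) : det3 b c a = det3 a b c := by simp only [det3]; ring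
theorem d_rot' (a b c : Pt) : det3 c a b = det3 a b c := by simp only [det3]; ring
theorem d_sum (a b c p : Pt) : det3 a b p + det3 b c p + det3 c a p = det3 a b c := by
  simp only [det3]; ring
theorem d_l (a b : Pt) : det3 a b a = 0 := by simp only [det3]; ring
theorem d_r (a b : Pt) : det3 a b b = 0 := by simp only [det3]; ring

/-- transition of coordinates -/
theorem tr_a {a b c : Pt} (h : det3 a b c = 1) (P Q : Pt) :
    det3 P Q a = det3 c a P * det3 a b Q - det3 a b P * det3 c a Q := by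
  simp only [det3] at *
  linear_combination (-((Q.1 - P.1) * (a.2 - P.2) - (Q.2 - P.2) * (a.1 - P.1))) * h

theorem tr_b {a b c : Pt} (h : det3 a b c = 1) (P Q : Pt) :
    det3 P Q b = det3 a b P * det3 b c Q - det3 b c P * det3 a b Q := by
  simp only [det3] at *
  linear_combination (-((Q.1 - P.1) * (b.2 - P.2) - (Q.2 - P.2) * (b.1 - P.1))) * h

theorem tr_c {a b c : Pt} (h : det3 a b c = 1) (P Q : Pt) :
    det3 P Q c = det3 b c P * det3 c a Q - det3 c a P * det3 b c Q := by
  simp only [det3] at *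
  linear_combination (-((Q.1 - P.1) * (c.2 - P.2) - (Q.2 - P.2) * (c.1 - P.1))) * h

/-- an affine function in coordinates -/
theorem aff_eq {P Q R : Pt} (h : det3 P Q R = 1) (a b x : Pt) :
    det3 a b x = det3 Q R x * det3 a b P + det3 R P x * det3 a b Q + det3 P Q x * det3 a b R := by
  simp only [det3] at *
  linear_combination (-((b.1 - a.1) * (x.2 - a.2) - (b.2 - a.2) * (x.1 - a.1))) * h

theorem eq_of_coord {P Q R x : Pt} (h : det3 P Q R = 1) (h1 : det3 P Q x = 0)
    (h2 : det3 R P x = 0) : x = P := by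
  simp only [det3] at *
  ext
  · linear_combination (-(x.1 - P.1)) * h + (R.1 - P.1) * h1 + (Q.1 - P.1) * h2
  · linear_combination (-(x.2 - P.2)) * h + (R.2 - P.2) * h1 + (Q.2 - P.2) * h2

theorem ne_of_det {a b c : Pt} (h : det3 a b c = 1) : a ≠ b := by
  rintro rfl
  simp [det3] at h

/-- a side line of `abc` -/
theorem side {a b c : Pt} (h : det3 a b c = 1) {P Q R : Pt} (h1 : det3 a b P ≤ 0)
    (h2 : det3 a b Q ≤ 0) (h3 : det3 a b R ≤ 0) : SideSep {a, b, c} {P, Q, R} := by
  refine ⟨a, by simp, b, by simp, ne_of_det h, ?_, ?_⟩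
  · intro p hp
    simp only [Finset.mem_insert, Finset.mem_singleton] at hp
    rcases hp with rfl | rfl | rfl
    · rw [d_l]
    · rw [d_r]
    · rw [h]; norm_num
  · intro p hp
    simp only [Finset.mem_insert, Finset.mem_singleton] at hp
    rcases hp with rfl | rfl | rfl <;> assumption

theorem perm (a b c : Pt) : ({b, c, a} : Finset Pt) = {a, b, c} := by
  ext x; simp only [Finset.mem_insert, Finset.mem_singleton]; tauto

theorem perm' (a b c : Pt) : ({c, a, b} : Finset Pt) = {a, b, c} := by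
  ext x; simp only [Finset.mem_insert, Finset.mem_singleton]; tauto

/-- the sides `ab`, `pq` do not cross -/
def NX (a b p q : Pt) : Prop :=
  ¬ (det3 a b p * det3 a b q < 0 ∧ det3 p q a * det3 p q b < 0)

/-- the vertex `P` has two positive coordinates -/
theorem two_pos {a b c P Q R : Pt} (h : det3 a b c = 1) (h' : det3 P Q R = 1)
    (n1 : NX a b P Q) (n2 : NX a b R P) (hA : 1 ≤ det3 b c P) (hB : 1 ≤ det3 c a P) :
    Sep {a, b, c} {P, Q, R} := by
  have hs := d_sum a b c P
  rw [h] at hs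
  have hC : det3 a b P ≤ -1 := by linarith
  by_cases hq : 1 ≤ det3 a b Q
  · -- `PQ` crosses the line `ab`
    have huv : 0 ≤ det3 P Q a * det3 P Q b := by
      by_contra hc
      push Not at hc
      exact n1 ⟨by nlinarith, hc⟩
    have hrel : det3 b c P * det3 P Q a + det3 c a P * det3 P Q b + det3 a b P * det3 P Q c = 0 := by
      rw [tr_a h, tr_b h, tr_c h]; ring
    rcases same_side hA hB hC huv hrel with ⟨u0, v0, w0⟩ | ⟨u0, v0, w0⟩
    · -- the triangle `abc` is on the side of `R`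
      by_cases hr : 1 ≤ det3 a b R
      · have huv' : 0 ≤ det3 R P a * det3 R P b := by
          by_contra hc
          push Not at hc
          exact n2 ⟨by nlinarith, hc⟩
        have hrel' : det3 b c P * det3 R P a + det3 c a P * det3 R P b +
            det3 a b P * det3 R P c = 0 := by
          rw [tr_a h, tr_b h, tr_c h]; ring
        rcases same_side hA hB hC huv' hrel' with ⟨u1, v1, w1⟩ | ⟨u1, v1, w1⟩
        · right
          have key : ∀ x : Pt, x ∈ ({a, b, c} : Finset Pt) → 0 ≤ det3 P Q x → 0 ≤ det3 R P x →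
              det3 Q R x ≤ 0 := by
            intro x hx h1 h2
            by_contra hc
            push Not at hc
            have e := d_sum P Q R x
            rw [h'] at e
            have e1 : det3 P Q x = 0 := by linarith
            have e2 : det3 R P x = 0 := by linarith
            have := eq_of_coord h' e1 e2
            subst this
            simp only [Finset.mem_insert, Finset.mem_singleton] at hx
            rcases hx with rfl | rfl | rfl
            · rw [d_r] at hB; omega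
            · rw [d_l] at hA; omega
            · rw [d_r] at hA; omega
          have := side (a := Q) (b := R) (c := P) (by rw [d_rot]; exact h')
            (key a (by simp) u0 u1) (key b (by simp) v0 v1) (key c (by simp) w0 w1)
          rw [perm P Q R] at this
          exact this
        · right
          have := side (a := R) (b := P) (c := Q) (by rw [d_rot']; exact h') u1 v1 w1
          rw [perm' P Q R] at this
          exact this
      · right
        push Not at hr
        have key : ∀ x : Pt, 0 ≤ det3 a b x → 0 ≤ det3 P Q x → det3 Q R x ≤ 0 := by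
          intro x hx h1
          by_contra hc
          push Not at hc
          have e := d_sum P Q R x
          rw [h'] at e
          have e1 := aff_eq h' a b x
          have e2 : det3 Q R x * det3 a b P ≤ -1 := by nlinarith
          have e3 : det3 R P x * det3 a b Q ≤ 0 :=
            mul_nonpos_of_nonpos_of_nonneg (by linarith) (by linarith)
          have e4 : det3 P Q x * det3 a b R ≤ 0 :=
            mul_nonpos_of_nonneg_of_nonpos h1 (by linarith)
          linarith
        have := side (a := Q) (b := R) (c := P) (by rw [d_rot]; exact h')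
          (key a (by rw [d_l]) u0) (key b (by rw [d_r]) v0) (key c (by rw [h]; norm_num) w0)
        rw [perm P Q R] at this
        exact this
    · right
      exact side h' u0 v0 w0
  · push Not at hq
    by_cases hr : 1 ≤ det3 a b R
    · have huv' : 0 ≤ det3 R P a * det3 R P b := by
        by_contra hc
        push Not at hc
        exact n2 ⟨by nlinarith, hc⟩
      have hrel' : det3 b c P * det3 R P a + det3 c a P * det3 R P b +
          det3 a b P * det3 R P c = 0 := by
        rw [tr_a h, tr_b h, tr_c h]; ring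
      right
      rcases same_side hA hB hC huv' hrel' with ⟨u1, v1, w1⟩ | ⟨u1, v1, w1⟩
      · have key : ∀ x : Pt, 0 ≤ det3 a b x → 0 ≤ det3 R P x → det3 Q R x ≤ 0 := by
          intro x hx h1
          by_contra hc
          push Not at hc
          have e := d_sum P Q R x
          rw [h'] at e
          have e1 := aff_eq h' a b x
          have e2 : det3 Q R x * det3 a b P ≤ -1 := by nlinarith
          have e3 : det3 R P x * det3 a b Q ≤ 0 :=
            mul_nonpos_of_nonneg_of_nonpos h1 (by linarith)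
          have e4 : det3 P Q x * det3 a b R ≤ 0 :=
            mul_nonpos_of_nonpos_of_nonneg (by linarith) (by linarith)
          linarith
        have := side (a := Q) (b := R) (c := P) (by rw [d_rot]; exact h')
          (key a (by rw [d_l]) u1) (key b (by rw [d_r]) v1) (key c (by rw [h]; norm_num) w1)
        rw [perm P Q R] at this
        exact this
      · have := side (a := R) (b := P) (c := Q) (by rw [d_rot']; exact h') u1 v1 w1
        rw [perm' P Q R] at this
        exact this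
    · push Not at hr
      left
      exact side h (by linarith) (by linarith) (by linarith)

/-- all nine pairs of sides -/
def All (a b c P Q R : Pt) : Prop :=
  (NX a b P Q ∧ NX a b Q R ∧ NX a b R P) ∧ (NX b c P Q ∧ NX b c Q R ∧ NX b c R P) ∧
    (NX c a P Q ∧ NX c a Q R ∧ NX c a R P)

theorem All.rot {a b c P Q R : Pt} (h : All a b c P Q R) : All a b c Q R P := by
  unfold All at *; tauto

theorem All.rot' {a b c P Q R : Pt} (h : All a b c P Q R) : All b c a P Q R := by
  unfold All at *; tauto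

theorem one_pos {a b c P Q R : Pt} (h : det3 a b c = 1) (h' : det3 P Q R = 1)
    (n : All a b c P Q R) : Sep {a, b, c} {P, Q, R} ∨
      (1 ≤ det3 b c P ∧ det3 c a P ≤ 0 ∧ det3 a b P ≤ 0) ∨
      (det3 b c P ≤ 0 ∧ 1 ≤ det3 c a P ∧ det3 a b P ≤ 0) ∨
      (det3 b c P ≤ 0 ∧ det3 c a P ≤ 0 ∧ 1 ≤ det3 a b P) := by
  have hs := d_sum a b c P
  rw [h] at hs
  by_cases hA : 1 ≤ det3 b c P
  · by_cases hB : 1 ≤ det3 c a P
    · left; exact two_pos h h' n.1.1 n.1.2.2 hA hB
    · by_cases hC : 1 ≤ det3 a b P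
      · left
        have := two_pos (a := c) (b := a) (c := b) (by rw [d_rot']; exact h) h' n.2.2.1 n.2.2.2.2
          hC hA
        rwa [perm' a b c] at this
      · right; left; omega
  · by_cases hB : 1 ≤ det3 c a P
    · by_cases hC : 1 ≤ det3 a b P
      · left
        have := two_pos (a := b) (b := c) (c := a) (by rw [d_rot]; exact h) h' n.2.1.1 n.2.1.2.2
          hB hC
        rwa [perm a b c] at this
      · right; right; left; omega
    · right; right; right; omega

theorem mem_of_nonneg {P Q R x : Pt} (h : det3 P Q R = 1) (h1 : 0 ≤ det3 P Q x)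
    (h2 : 0 ≤ det3 Q R x) (h3 : 0 ≤ det3 R P x) : x ∈ ({P, Q, R} : Finset Pt) := by
  have hs := d_sum P Q R x
  rw [h] at hs
  simp only [Finset.mem_insert, Finset.mem_singleton]
  by_cases e1 : det3 P Q x = 0
  · by_cases e2 : det3 R P x = 0
    · left; exact eq_of_coord h e1 e2
    · right; left
      exact eq_of_coord (P := Q) (Q := R) (R := P) (by rw [d_rot]; exact h) (by omega) (by omega)
  · right; right
    exact eq_of_coord (P := R) (Q := P) (R := Q) (by rw [d_rot']; exact h) (by omega) (by omega)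

theorem card3 {a b c : Pt} (h : det3 a b c = 1) : ({a, b, c} : Finset Pt).card = 3 := by
  have h1 : a ≠ b := ne_of_det h
  have h2 : b ≠ c := ne_of_det (c := a) (by rw [d_rot]; exact h)
  have h3 : c ≠ a := ne_of_det (c := b) (by rw [d_rot']; exact h)
  rw [Finset.card_insert_of_notMem (by simp [h1, h3.symm]),
    Finset.card_insert_of_notMem (by simp [h2]), Finset.card_singleton]

/-- the three vertices lie in the three vertex cones, in the right order -/
theorem even_eq {a b c P Q R : Pt} (h : det3 a b c = 1) (h' : det3 P Q R = 1)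
    (hP : 1 ≤ det3 b c P ∧ det3 c a P ≤ 0 ∧ det3 a b P ≤ 0)
    (hQ : det3 b c Q ≤ 0 ∧ 1 ≤ det3 c a Q ∧ det3 a b Q ≤ 0)
    (hR : det3 b c R ≤ 0 ∧ det3 c a R ≤ 0 ∧ 1 ≤ det3 a b R) :
    ({a, b, c} : Finset Pt) = {P, Q, R} := by
  have sP := d_sum a b c P
  have sQ := d_sum a b c Q
  have sR := d_sum a b c R
  rw [h] at sP sQ sR
  have aPQ := tr_a h P Q
  have aQR := tr_a h Q R
  have aRP := tr_a h R P
  have bPQ := tr_b h P Q
  have bQR := tr_b h Q R
  have bRP := tr_b h R P
  have cPQ := tr_c h P Q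
  have cQR := tr_c h Q R
  have cRP := tr_c h R P
  obtain ⟨P1, P2, P3⟩ := hP
  obtain ⟨Q1, Q2, Q3⟩ := hQ
  obtain ⟨R1, R2, R3⟩ := hR
  have ma : a ∈ ({P, Q, R} : Finset Pt) := by
    apply mem_of_nonneg h'
    · rw [aPQ]; nlinarith [mul_nonneg_of_nonpos_of_nonpos P2 Q3]
    · rw [aQR]; nlinarith [mul_nonneg_of_nonpos_of_nonpos Q3 R2]
    · rw [aRP]; nlinarith [mul_nonneg_of_nonpos_of_nonpos R2 P3]
  have mb : b ∈ ({P, Q, R} : Finset Pt) := by
    apply mem_of_nonneg h'
    · rw [bPQ]; nlinarith [mul_nonneg_of_nonpos_of_nonpos P3 Q1]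
    · rw [bQR]; nlinarith [mul_nonneg_of_nonpos_of_nonpos Q3 R1]
    · rw [bRP]; nlinarith [mul_nonneg_of_nonpos_of_nonpos R1 P3]
  have mc : c ∈ ({P, Q, R} : Finset Pt) := by
    apply mem_of_nonneg h'
    · rw [cPQ]; nlinarith [mul_nonneg_of_nonpos_of_nonpos P2 Q1]
    · rw [cQR]; nlinarith [mul_nonneg_of_nonpos_of_nonpos Q1 R2]
    · rw [cRP]; nlinarith [mul_nonneg_of_nonpos_of_nonpos R1 P2]
  apply Finset.eq_of_subset_of_card_le
  · intro x hx
    simp only [Finset.mem_insert, Finset.mem_singleton] at hx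
    rcases hx with rfl | rfl | rfl <;> assumption
  · rw [card3 h, card3 h']

theorem odd_aux {x2 x3 y1 y2 z1 z3 : ℤ} (h1 : 0 ≤ x2) (h2 : 0 ≤ x3) (h3 : 0 ≤ y1) (h4 : 0 ≤ y2)
    (h5 : 0 ≤ z1) (h6 : 0 ≤ z3) :
    z1 * (x2 * (1 + y1 + y2) + x3 * y2) + (1 + z1 + z3) * (x3 * y1 - (1 + x2 + x3) * (1 + y1 + y2)) +
      z3 * ((1 + x2 + x3) * y2 + x2 * y1) < 1 := by
  have e : z1 * (x2 * (1 + y1 + y2) + x3 * y2) +
      (1 + z1 + z3) * (x3 * y1 - (1 + x2 + x3) * (1 + y1 + y2)) +
      z3 * ((1 + x2 + x3) * y2 + x2 * y1) = -(1 + y1 + y2 + x2 + x2 * y1 + x2 * y2 + x3 + x3 * y2 +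
        z1 + z1 * y1 + z1 * y2 + z1 * x3 + z3 + z3 * y1 + z3 * x2 + z3 * x3) := by ring
  rw [e]
  have : 0 ≤ y1 + y2 + x2 + x2 * y1 + x2 * y2 + x3 + x3 * y2 +
        z1 + z1 * y1 + z1 * y2 + z1 * x3 + z3 + z3 * y1 + z3 * x2 + z3 * x3 := by positivity
  linarith

theorem odd_false {a b c P Q R : Pt} (h : det3 a b c = 1) (h' : det3 P Q R = 1)
    (hP : 1 ≤ det3 b c P ∧ det3 c a P ≤ 0 ∧ det3 a b P ≤ 0)
    (hQ : det3 b c Q ≤ 0 ∧ det3 c a Q ≤ 0 ∧ 1 ≤ det3 a b Q)
    (hR : det3 b c R ≤ 0 ∧ 1 ≤ det3 c a R ∧ det3 a b R ≤ 0) : False := by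
  have sP := d_sum a b c P
  have sQ := d_sum a b c Q
  have sR := d_sum a b c R
  rw [h] at sP sQ sR
  have e := aff_eq h P Q R
  rw [h', tr_a h, tr_b h, tr_c h] at e
  obtain ⟨P1, P2, P3⟩ := hP
  obtain ⟨Q1, Q2, Q3⟩ := hQ
  obtain ⟨R1, R2, R3⟩ := hR
  have := odd_aux (x2 := - det3 c a P) (x3 := - det3 a b P) (y1 := - det3 b c Q)
    (y2 := - det3 c a Q) (z1 := - det3 b c R) (z3 := - det3 a b R) (by linarith) (by linarith)
    (by linarith) (by linarith) (by linarith) (by linarith)
  have p1 : det3 b c P = 1 - det3 c a P - det3 a b P := by linarith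
  have q3 : det3 a b Q = 1 - det3 b c Q - det3 c a Q := by linarith
  have r2 : det3 c a R = 1 - det3 b c R - det3 a b R := by linarith
  rw [p1, q3, r2] at e
  nlinarith

theorem sep_all {a b c P Q R : Pt} (h : det3 a b c = 1) (h' : det3 P Q R = 1)
    (n : All a b c P Q R) : Sep {a, b, c} {P, Q, R} ∨ ({a, b, c} : Finset Pt) = {P, Q, R} := by
  have hQ' : det3 Q R P = 1 := by rw [d_rot]; exact h'
  have hR' : det3 R P Q = 1 := by rw [d_rot']; exact h'
  rcases one_pos h h' n with s | tP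
  · exact Or.inl s
  rcases one_pos h hQ' n.rot with s | tQ
  · left; rwa [perm P Q R] at s
  rcases one_pos h hR' n.rot.rot with s | tR
  · left; rwa [perm' P Q R] at s
  have sA : det3 b c P ≤ 0 → det3 b c Q ≤ 0 → det3 b c R ≤ 0 →
      Sep {a, b, c} {P, Q, R} := by
    intro h1 h2 h3
    left
    have := side (a := b) (b := c) (c := a) (by rw [d_rot]; exact h) h1 h2 h3
    rwa [perm a b c] at this
  have sB : det3 c a P ≤ 0 → det3 c a Q ≤ 0 → det3 c a R ≤ 0 →
      Sep {a, b, c} {P, Q, R} := by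
    intro h1 h2 h3
    left
    have := side (a := c) (b := a) (c := b) (by rw [d_rot']; exact h) h1 h2 h3
    rwa [perm' a b c] at this
  have sC : det3 a b P ≤ 0 → det3 a b Q ≤ 0 → det3 a b R ≤ 0 →
      Sep {a, b, c} {P, Q, R} := by
    intro h1 h2 h3
    left
    exact side h h1 h2 h3
  rcases tP with tP | tP | tP <;> rcases tQ with tQ | tQ | tQ <;> rcases tR with tR | tR | tR
  · exact Or.inl (sB tP.2.1 tQ.2.1 tR.2.1)
  · exact Or.inl (sC tP.2.2 tQ.2.2 tR.2.2)
  · exact Or.inl (sB tP.2.1 tQ.2.1 tR.2.1)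
  · exact Or.inl (sC tP.2.2 tQ.2.2 tR.2.2)
  · exact Or.inl (sC tP.2.2 tQ.2.2 tR.2.2)
  · exact Or.inr (even_eq h h' tP tQ tR)
  · exact Or.inl (sB tP.2.1 tQ.2.1 tR.2.1)
  · exact (odd_false h h' tP tQ tR).elim
  · exact Or.inl (sB tP.2.1 tQ.2.1 tR.2.1)
  · exact Or.inl (sC tP.2.2 tQ.2.2 tR.2.2)
  · exact Or.inl (sC tP.2.2 tQ.2.2 tR.2.2)
  · exact (odd_false h hQ' tQ tR tP).elim
  · exact Or.inl (sC tP.2.2 tQ.2.2 tR.2.2)
  · exact Or.inl (sA tP.1 tQ.1 tR.1)
  · exact Or.inl (sA tP.1 tQ.1 tR.1)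
  · right
    have := even_eq h hR' tR tP tQ
    rwa [perm' P Q R] at this
  · exact Or.inl (sA tP.1 tQ.1 tR.1)
  · exact Or.inl (sA tP.1 tQ.1 tR.1)
  · exact Or.inl (sB tP.2.1 tQ.2.1 tR.2.1)
  · right
    have := even_eq h hQ' tQ tR tP
    rwa [perm P Q R] at this
  · exact Or.inl (sB tP.2.1 tQ.2.1 tR.2.1)
  · exact (odd_false h hR' tR tP tQ).elim
  · exact Or.inl (sA tP.1 tQ.1 tR.1)
  · exact Or.inl (sA tP.1 tQ.1 tR.1)
  · exact Or.inl (sB tP.2.1 tQ.2.1 tR.2.1)
  · exact Or.inl (sA tP.1 tQ.1 tR.1)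
  · exact Or.inl (sA tP.1 tQ.1 tR.1)

end MP01b126.SF

namespace Pool.Agent.MP01b126

theorem nx_of_ncr {a b p q : Pt} (h : ¬ Cross a b p q) : MP01b126.SF.NX a b p q := by
  rintro ⟨h1, h2⟩
  apply h
  refine ⟨?_, ?_⟩
  · exact h1
  · exact h2

theorem sep_of_ncr {F : Pt → Pt → Prop} (hn : ∀ {a b c d : Pt}, F a b → F c d → ¬ Cross a b c d)
    {a b c a' b' c' : Pt} (h1 : Tr F a b c) (h2 : Tr F a' b' c')
    (hne : ({a, b, c} : Finset Pt) ≠ {a', b', c'}) :
    MP01b126.Sep {a, b, c} {a', b', c'} := by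
  obtain ⟨e1, e2, e3, hd⟩ := h1
  obtain ⟨f1, f2, f3, hd'⟩ := h2
  have n : MP01b126.SF.All a b c a' b' c' :=
    ⟨⟨nx_of_ncr (hn e1 f1), nx_of_ncr (hn e1 f2), nx_of_ncr (hn e1 f3)⟩,
      ⟨nx_of_ncr (hn e2 f1), nx_of_ncr (hn e2 f2), nx_of_ncr (hn e2 f3)⟩,
      ⟨nx_of_ncr (hn e3 f1), nx_of_ncr (hn e3 f2), nx_of_ncr (hn e3 f3)⟩⟩
  rcases MP01b126.SF.sep_all hd hd' n with h | h
  · exact h
  · exact absurd h hne

/-- two different faces are separated by a side line of one of them -/
theorem IsTri.sep_faces {m n : ℕ} {E : Pt → Pt → Prop} (h : IsTri m n E) {a b c a' b' c' : Pt}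
    (h1 : Tr E a b c) (h2 : Tr E a' b' c') (hne : ({a, b, c} : Finset Pt) ≠ {a', b', c'}) :
    MP01b126.Sep {a, b, c} {a', b', c'} :=
  sep_of_ncr (fun e1 e2 => h.ncr _ _ _ _ e1 e2) h1 h2 hne

theorem PT.sep_faces {Rg : Pt → Prop} {F : Pt → Pt → Prop} (h : PT Rg F) {a b c a' b' c' : Pt}
    (h1 : Tr F a b c) (h2 : Tr F a' b' c') (hne : ({a, b, c} : Finset Pt) ≠ {a', b', c'}) :
    MP01b126.Sep {a, b, c} {a', b', c'} :=
  sep_of_ncr (fun e1 e2 => h.ncr e1 e2) h1 h2 hne

end Pool.Agent.MP01b126
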