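import Pool.Agent.Lib.MP_01b126_co.Ul.Corner
import Pool.Agent.Lib.MP_01b126_co.Ul.SepFaces

/-!
# MP_01b126_co, ultralimit: the limit structure
-/

namespace Pool.Agent.MP01b126

open Filter

/-- a primitive segment whose ends lie strictly on different sides of a line of primitive segments
crosses one of them -/
theorem cross_line {a w p q : Pt} (hw : Prim w) (hpq : Prim (q - p))
    (hp : 0 < det w (p - a)) (hq : det w (q - a) < 0) :
    ∃ j : ℤ, Cross (a + j • w) (a + (j + 1) • w) p q := by
  obtain ⟨e, he⟩ := hw.exists_det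
  set hP := det w (p - a) with hhP
  set hQ := det w (q - a) with hhQ
  set aP := det (p - a) e with haP
  set aQ := det (q - a) e with haQ
  have eP : p = a + aP • w + hP • e := by
    have := expand he (p - a)
    rw [add_assoc, ← this]; abel
  have eQ : q = a + aQ • w + hQ • e := by
    have := expand he (q - a)
    rw [add_assoc, ← this]; abel
  set N := hP - hQ with hN
  have hNpos : 0 < N := by linarith
  set M := hP * aQ - hQ * aP with hM
  set j := M / N with hj
  have hr0 : 0 ≤ M - N * j := by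
    have := Int.emod_nonneg M (ne_of_gt hNpos)
    rw [Int.emod_def] at this; exact this
  have hr1 : M - N * j < N := by
    have := Int.emod_lt_of_pos M hNpos
    rw [Int.emod_def] at this; exact this
  have g : ∀ p1 p2 q1 q2 : ℤ, det (p1 • w + p2 • e) (q1 • w + q2 • e) = p1 * q2 - p2 * q1 := by
    intro p1 p2 q1 q2
    simp only [det_add_left, det_add_right, det_smul_left, det_smul_right, det_self, he,
      det_swap e w]
    ring
  have hqp : q - p = (aQ - aP) • w + (hQ - hP) • e := by
    rw [eP, eQ, sub_smul, sub_smul]; abel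
  have gi : ∀ i : ℤ, det (q - p) (a + i • w - p) = N * i - M := by
    intro i
    have e1 : a + i • w - p = (i - aP) • w + (-hP) • e := by
      rw [eP, sub_smul, neg_smul]; abel
    rw [hqp, e1, g, hN, hM]; ring
  rcases lt_or_eq_of_le hr0 with h1 | h1
  · refine ⟨j, ?_, ?_⟩
    · have e1 : a + (j + 1) • w - (a + j • w) = w := by rw [add_smul, one_smul]; abel
      have e2 : p - (a + j • w) = (p - a) + (-j) • w := by rw [neg_smul]; abel
      have e3 : q - (a + j • w) = (q - a) + (-j) • w := by rw [neg_smul]; abel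
      rw [e1, e2, e3, det_add_right, det_add_right, det_smul_right, det_self]
      rw [← hhP, ← hhQ]
      have := mul_neg_of_pos_of_neg hp hq
      linarith
    · rw [gi, gi]
      exact mul_neg_of_neg_of_pos (by linarith) (by linarith)
  · exfalso
    have h2 : det (q - p) (a + j • w - p) = 0 := by rw [gi]; linarith
    obtain ⟨k, hk⟩ := hpq.eq_smul h2
    have h3 : det w (a + j • w - p) = - hP := by
      have e1 : a + j • w - p = (j - aP) • w + (-hP) • e := by
        rw [eP, sub_smul, neg_smul]; abel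
      rw [e1, det_add_right, det_smul_right, det_smul_right, det_self, he]; ring
    have h4 : det w (q - p) = - N := by
      rw [hqp, det_add_right, det_smul_right, det_smul_right, det_self, he, hN]; ring
    rw [hk, det_smul_right, h4] at h3
    have h5 : k * N = hP := by linarith
    have k0 : 0 < k := by
      by_contra hc
      push Not at hc
      have := mul_nonpos_of_nonpos_of_nonneg hc hNpos.le
      linarith
    have : N ≤ k * N := by nlinarith
    linarith

namespace LSeq

variable (X : LSeq)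

theorem Wl.line {X : LSeq} {a b : Pt} (h : X.Wl a b) : X.Line a b := by
  rcases h with h | h
  · exact (X.WL_step h).1
  · exact (X.WL_step h).1.symm

theorem not_both_sides {a b p q : Pt} (h : X.Line a b) (hpq : X.Ei p q) :
    ¬ (0 < det (b - a) (p - a) ∧ det (b - a) (q - a) < 0) := by
  rintro ⟨h1, h2⟩
  obtain ⟨j, hj⟩ := cross_line (X.Ei_prim h.edge) (X.Ei_prim hpq) h1 h2
  exact X.Ei_ncr (h j) hpq hj

theorem W_side {a b p q r : Pt} (h : X.Wl a b) (hv : X.Vis p q r) :
    (0 ≤ det (b - a) (p - a) ∧ 0 ≤ det (b - a) (q - a) ∧ 0 ≤ det (b - a) (r - a)) ∨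
    (det (b - a) (p - a) ≤ 0 ∧ det (b - a) (q - a) ≤ 0 ∧ det (b - a) (r - a) ≤ 0) := by
  have hT := X.vis_tr hv
  have hl := h.line
  have h1 := X.not_both_sides hl hT.1
  have h2 := X.not_both_sides hl hT.2.1
  have h3 := X.not_both_sides hl hT.2.2.1
  have h1' := X.not_both_sides hl (X.Ei_symm hT.1)
  have h2' := X.not_both_sides hl (X.Ei_symm hT.2.1)
  have h3' := X.not_both_sides hl (X.Ei_symm hT.2.2.1)
  by_contra hc
  push Not at hc
  obtain ⟨c1, c2⟩ := hc
  by_cases q1 : 0 ≤ det (b - a) (p - a)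
  · by_cases q2 : 0 ≤ det (b - a) (q - a)
    · have q3 := c1 q1 q2
      by_cases q4 : det (b - a) (p - a) ≤ 0
      · by_cases q5 : det (b - a) (q - a) ≤ 0
        · have := c2 q4 q5; linarith
        · push Not at q5; exact h2 ⟨q5, q3⟩
      · push Not at q4; exact h3' ⟨q4, q3⟩
    · push Not at q2
      by_cases q4 : det (b - a) (p - a) ≤ 0
      · have := c2 q4 q2.le
        exact h2' ⟨this, q2⟩
      · push Not at q4; exact h1 ⟨q4, q2⟩
  · push Not at q1
    by_cases q5 : det (b - a) (q - a) ≤ 0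
    · have := c2 q1.le q5
      exact h3 ⟨this, q1⟩
    · push Not at q5; exact h1' ⟨q5, q1⟩

theorem W_coll {a b c : Pt} (h : X.Wl a b) (h' : X.Wl a c) : det (b - a) (c - a) = 0 := by
  have hl := h'.line
  have e1 : X.Ei a (a + (c - a)) := by
    have := hl.edge
    have e : a + (c - a) = c := by abel
    rwa [e]
  have e2 : X.Ei a (a + (-(c - a))) := by
    have := hl.back
    rwa [sub_eq_add_neg] at this
  by_contra hne
  -- the empty side
  obtain ⟨σ, hσ, hemp⟩ : ∃ σ : ℤ, (σ = 1 ∨ σ = -1) ∧
      ∀ Z : Pt, 0 < σ * det (b - a) Z → ¬ X.Ei a (a + Z) := by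
    rcases h with h | h
    · refine ⟨1, Or.inl rfl, fun Z hZ hE => ?_⟩
      rw [one_mul] at hZ
      obtain ⟨k, hk⟩ := ((X.WL_empty h hZ).and hE).exists
      exact hk.1 hk.2
    · refine ⟨-1, Or.inr rfl, fun Z hZ hE => ?_⟩
      have hZ' : 0 < det (a - b) Z := by
        have : a - b = -(b - a) := by abel
        rw [this, det_neg_left]; linarith
      obtain ⟨k, hk⟩ := ((X.WL_empty' h hZ').and hE).exists
      exact hk.1 hk.2
  have h3 : ¬ 0 < σ * det (b - a) (c - a) := fun h => hemp _ h e1
  have h4 : ¬ 0 < σ * det (b - a) (-(c - a)) := fun h => hemp _ h e2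
  rw [det_neg_right] at h4
  rcases hσ with rfl | rfl
  · rcases lt_or_gt_of_ne hne with h5 | h5
    · exact h4 (by linarith)
    · exact h3 (by linarith)
  · rcases lt_or_gt_of_ne hne with h5 | h5
    · exact h3 (by linarith)
    · exact h4 (by linarith)

/-- the step relation of `Lim.conn` -/
def cstep (s t : Pt × Pt × Pt) : Prop :=
  X.Vis s.1 s.2.1 s.2.2 ∧ X.Vis t.1 t.2.1 t.2.2 ∧
    (t = (s.2.1, s.2.2, s.1) ∨ (t.1 = s.2.1 ∧ t.2.1 = s.1))

theorem conn_root {a b c : Pt} (h : X.Vis a b c) :
    Relation.ReflTransGen X.cstep ((0, 0), (1, 0), (0, 1)) (a, b, c) ∧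
      Relation.ReflTransGen X.cstep (a, b, c) ((0, 0), (1, 0), (0, 1)) := by
  induction h with
  | root => exact ⟨Relation.ReflTransGen.refl, Relation.ReflTransGen.refl⟩
  | @rot a b c hv ih =>
    refine ⟨ih.1.tail ⟨hv, hv.rot, Or.inl rfl⟩, ?_⟩
    have s1 : X.cstep (b, c, a) (c, a, b) := ⟨hv.rot, hv.rot.rot, Or.inl rfl⟩
    have s2 : X.cstep (c, a, b) (a, b, c) := ⟨hv.rot.rot, hv, Or.inl rfl⟩
    exact (Relation.ReflTransGen.single s1).trans ((Relation.ReflTransGen.single s2).trans ih.2)
  | @opp a b c d hv hd ih =>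
    have hv' := Vis.opp hv hd
    refine ⟨ih.1.tail ⟨hv, hv', Or.inr ⟨rfl, rfl⟩⟩, ?_⟩
    exact (Relation.ReflTransGen.single ⟨hv', hv, Or.inr ⟨rfl, rfl⟩⟩).trans ih.2

/-- the limit structure -/
def toLim : MP01b126.Lim where
  V := X.Vis
  W := X.Wl
  det := fun h => (X.vis_tr h).2.2.2
  rot := fun h => h.rot
  sep := by
    intro a b c a' b' c' h h' hne
    obtain ⟨k, h1, h2⟩ := ((X.tr_iff.mp (X.vis_tr h)).and (X.tr_iff.mp (X.vis_tr h'))).exists
    exact (X.pt k).sep_faces h1 h2 hne
  opp := by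
    intro a b c h
    by_cases hx : ∃ d, Tr X.Ei b a d
    · obtain ⟨d, hd⟩ := hx
      exact Or.inl ⟨d, Vis.opp h hd⟩
    · exact Or.inr (Or.inr ⟨⟨c, h⟩, hx⟩)
  opp_not := by
    intro a b c d h h' hW
    rcases hW with hW | hW
    · exact hW.2 ⟨c, X.vis_tr h⟩
    · exact hW.2 ⟨d, X.vis_tr h'⟩
  W_prim := fun h => X.Ei_prim h.line.edge
  W_symm := fun h => h.symm
  W_next := by
    intro a b h
    rcases h with h | h
    · exact Or.inl (X.WL_step h).2.2.2.2.1
    · have := (X.WL_step h).2.2.2.1
      have e : b - (a - b) = b + (b - a) := by abel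
      rw [e] at this
      exact Or.inr this
  W_side := fun h h' => X.W_side h h'
  W_coll := fun h h' => X.W_coll h h'
  corner := by
    intro p a b h
    rcases X.corner h with h1 | ⟨n, w, h1, h2, h3, h4⟩ | h1
    · exact Or.inl h1
    · exact Or.inr (Or.inl ⟨n, w, h1, h2, h3, h4⟩)
    · exact Or.inr (Or.inr h1)
  conn := by
    intro a b c a' b' c' h h'
    exact (X.conn_root h).2.trans (X.conn_root h').1

theorem lim : ∃ Y : MP01b126.Lim, Y.V = X.Vis ∧ Y.W = X.Wl := ⟨X.toLim, rfl, rfl⟩

end LSeq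

end Pool.Agent.MP01b126
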