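import Pool.Agent.Lib.MP_01b126_co.Ul.UDefs
import Pool.Agent.Lib.MP_01b126_co.Run
import Pool.Agent.Lib.MP_01b126_co.Cert

/-!
# MP_01b126_co, ultralimit, piece U1: affine invariance
-/

namespace Pool.Agent.MP01b126

/-- the linear part of `aff` -/
def plin (u v x : Pt) : Pt := x.1 • u + x.2 • v

theorem plin_def (u v x : Pt) : plin u v x = x.1 • u + x.2 • v := rfl

theorem plin_add (u v x y : Pt) : plin u v (x + y) = plin u v x + plin u v y := by
  simp only [plin, Prod.fst_add, Prod.snd_add, add_smul]; abel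

theorem plin_sub (u v x y : Pt) : plin u v (x - y) = plin u v x - plin u v y := by
  simp only [plin, Prod.fst_sub, Prod.snd_sub, sub_smul]; abel

theorem plin_smul (u v : Pt) (k : ℤ) (x : Pt) : plin u v (k • x) = k • plin u v x := by
  simp only [plin, Prod.smul_fst, Prod.smul_snd, smul_eq_mul, mul_smul, smul_add]

theorem aff_eq (o u v x : Pt) : aff o u v x = o + plin u v x := by
  simp only [aff, plin]; abel

theorem aff_sub (o u v x y : Pt) : aff o u v x - aff o u v y = plin u v (x - y) := by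
  rw [aff_eq, aff_eq, plin_sub]; abel

theorem paff_add (o u v x d : Pt) : aff o u v (x + d) = aff o u v x + plin u v d := by
  rw [aff_eq, aff_eq, plin_add]; abel

theorem aff_subr (o u v x d : Pt) : aff o u v (x - d) = aff o u v x - plin u v d := by
  rw [aff_eq, aff_eq, plin_sub]; abel

theorem det_plin (u v x y : Pt) : det (plin u v x) (plin u v y) = det x y * det u v := by
  simp only [plin, det, Prod.fst_add, Prod.snd_add, Prod.smul_fst, Prod.smul_snd, smul_eq_mul]
  ring

theorem plin_inj {u v : Pt} (hd : det u v = 1) {x y : Pt} (h : plin u v x = plin u v y) : x = y := by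
  have h0 : plin u v (x - y) = 0 := by rw [plin_sub, h, sub_self]
  have h1 := congrArg (fun z => det z v) h0
  have h2 := congrArg (det u) h0
  simp only [plin, det_add_left, det_add_right, det_smul_left, det_smul_right, det_self, hd,
    det_zero_left, det_zero_right, mul_one, mul_zero, add_zero, zero_add, Prod.fst_sub,
    Prod.snd_sub] at h1 h2
  exact Prod.ext (sub_eq_zero.mp h1) (sub_eq_zero.mp h2)

theorem plin_surj {u v : Pt} (hd : det u v = 1) (y : Pt) : ∃ x, plin u v x = y :=
  ⟨(det y v, det u y), (expand hd y).symm⟩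

theorem paff_inj {o u v : Pt} (hd : det u v = 1) {x y : Pt} (h : aff o u v x = aff o u v y) :
    x = y := by
  rw [aff_eq, aff_eq] at h
  exact plin_inj hd (add_left_cancel h)

theorem aff_surj {o u v : Pt} (hd : det u v = 1) (y : Pt) : ∃ x, aff o u v x = y := by
  obtain ⟨x, hx⟩ := plin_surj hd (y - o)
  exact ⟨x, by rw [aff_eq, hx]; abel⟩

theorem det_aff_one {o u v : Pt} (hd : det u v = 1) (x y z w : Pt) :
    det (aff o u v x - aff o u v y) (aff o u v z - aff o u v w) = det (x - y) (z - w) := by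
  rw [det_aff, hd, mul_one]

theorem pull_tr {E : Pt → Pt → Prop} {o u v : Pt} (hd : det u v = 1) (a b c : Pt) :
    Tr (pull E o u v) a b c ↔ Tr E (aff o u v a) (aff o u v b) (aff o u v c) := by
  unfold Tr
  rw [det_aff_one hd]
  exact Iff.rfl

theorem move_iff {E : Pt → Pt → Prop} {e e' : Pt × Pt} : Move E e e' ↔
    (E e.1 e.2 ∧ e'.1 = e.2 ∧ e'.2 = e.1) ∨ (Tr E e.1 e.2 e'.2 ∧ e'.1 = e.2) ∨
      (Tr E e.1 e.2 e'.1 ∧ e'.2 = e.1) := by
  constructor
  · rintro (h | h | h)
    · exact Or.inl ⟨h, rfl, rfl⟩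
    · exact Or.inr (Or.inl ⟨h, rfl⟩)
    · exact Or.inr (Or.inr ⟨h, rfl⟩)
  · obtain ⟨a, b⟩ := e
    obtain ⟨a', b'⟩ := e'
    rintro (⟨h, h1, h2⟩ | ⟨h, h1⟩ | ⟨h, h1⟩)
    · simp only at h h1 h2
      subst h1 h2
      exact Move.opp h
    · simp only at h h1
      subst h1
      exact Move.next h
    · simp only at h h1
      subst h1
      exact Move.prev h

theorem pull_move {E : Pt → Pt → Prop} {o u v : Pt} (hd : det u v = 1) (e e' : Pt × Pt) :
    Move (pull E o u v) e e' ↔
      Move E (aff o u v e.1, aff o u v e.2) (aff o u v e'.1, aff o u v e'.2) := by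
  have hi : ∀ x y : Pt, x = y ↔ aff o u v x = aff o u v y :=
    fun x y => ⟨fun h => by rw [h], fun h => paff_inj hd h⟩
  rw [move_iff, move_iff]
  simp only [pull_tr hd]
  rw [hi e'.1 e.2, hi e'.2 e.1]
  exact Iff.rfl

theorem pull_reach {E : Pt → Pt → Prop} {o u v : Pt} (hd : det u v = 1) (R : ℕ) (e e' : Pt × Pt) :
    Reach (pull E o u v) R e e' ↔
      Reach E R (aff o u v e.1, aff o u v e.2) (aff o u v e'.1, aff o u v e'.2) := by
  induction R generalizing e' with
  | zero =>
    constructor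
    · intro h
      change e = e' at h
      subst h
      exact rfl
    · intro h
      change (aff o u v e.1, aff o u v e.2) = (aff o u v e'.1, aff o u v e'.2) at h
      obtain ⟨h1, h2⟩ := Prod.mk.inj h
      exact Prod.ext (paff_inj hd h1) (paff_inj hd h2)
  | succ R ih =>
    constructor
    · rintro (h | ⟨e'', h1, h2⟩)
      · exact Or.inl ((ih e').mp h)
      · exact Or.inr ⟨_, (ih e'').mp h1, (pull_move hd e'' e').mp h2⟩
    · rintro (h | ⟨⟨p, q⟩, h1, h2⟩)
      · exact Or.inl ((ih e').mpr h)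
      · obtain ⟨p', rfl⟩ := aff_surj (o := o) hd p
        obtain ⟨q', rfl⟩ := aff_surj (o := o) hd q
        exact Or.inr ⟨(p', q'), (ih (p', q')).mpr h1, (pull_move hd (p', q') e').mpr h2⟩

theorem aff_line (o u v : Pt) (x a b : Pt) (j : ℤ) :
    aff o u v (x + j • (b - a)) = aff o u v x + j • (aff o u v b - aff o u v a) := by
  rw [paff_add, plin_smul, aff_sub]

theorem aff_line' (o u v : Pt) (x a b : Pt) (j : ℤ) :
    aff o u v (x - j • (b - a)) = aff o u v x - j • (aff o u v b - aff o u v a) := by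
  rw [aff_subr, plin_smul, aff_sub]

theorem pull_fwd {E : Pt → Pt → Prop} {o u v : Pt} (A : ℕ) (e : Pt × Pt) :
    Fwd (pull E o u v) A e ↔ Fwd E A (aff o u v e.1, aff o u v e.2) := by
  unfold Fwd pull
  simp only [aff_line]

theorem pull_bwd {E : Pt → Pt → Prop} {o u v : Pt} (A : ℕ) (e : Pt × Pt) :
    Bwd (pull E o u v) A e ↔ Bwd E A (aff o u v e.1, aff o u v e.2) := by
  unfold Bwd pull
  simp only [aff_line']

theorem pull_full {E : Pt → Pt → Prop} {o u v : Pt} (A : ℕ) (e : Pt × Pt) :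
    Full (pull E o u v) A e ↔ Full E A (aff o u v e.1, aff o u v e.2) := by
  unfold Full
  rw [pull_fwd, pull_bwd]

theorem pull_rt {E : Pt → Pt → Prop} {o u v : Pt} (hd : det u v = 1) (ccw : Bool) (y x x' : Pt) :
    Rt (pull E o u v) ccw y x x' ↔ Rt E ccw (aff o u v y) (aff o u v x) (aff o u v x') := by
  unfold Rt
  cases ccw
  · simp only [Bool.false_eq_true, if_false, pull_tr hd]
  · simp only [if_true, pull_tr hd]

theorem pull_rotseq {E : Pt → Pt → Prop} {o u v : Pt} (hd : det u v = 1) (ccw : Bool) (y : Pt)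
    (K : ℕ) (f : ℕ → Pt) :
    RotSeq (pull E o u v) ccw y K f ↔
      RotSeq E ccw (aff o u v y) K (fun i => aff o u v (f i)) := by
  unfold RotSeq
  simp only [pull_rt hd]

theorem nb_image {o u v : Pt} (hd : det u v = 1) (P : Pt → Prop) :
    {y | P y} = aff o u v '' {x | P (aff o u v x)} := by
  ext y
  constructor
  · intro hy
    obtain ⟨x, rfl⟩ := aff_surj (o := o) hd y
    exact ⟨x, hy, rfl⟩
  · rintro ⟨x, hx, rfl⟩
    exact hx

theorem ncard_aff {o u v : Pt} (hd : det u v = 1) (P : Pt → Prop) :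
    {x | P (aff o u v x)}.ncard = {y | P y}.ncard := by
  rw [nb_image (o := o) hd P]
  exact (Set.ncard_image_of_injective _ (fun x y h => paff_inj hd h)).symm

theorem pull_deg {E : Pt → Pt → Prop} {o u v : Pt} (hd : det u v = 1) (x : Pt) :
    deg (pull E o u v) x = deg E (aff o u v x) := by
  unfold deg pull
  exact ncard_aff hd (fun y => E (aff o u v x) y)

theorem pull_good {E : Pt → Pt → Prop} {o u v : Pt} (hd : det u v = 1) {B W : ℕ} {x d w : Pt}
    (h : Good (pull E o u v) B W x d w) :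
    Good E B W (aff o u v x) (d.1 • u + d.2 • v) (w.1 • u + w.2 • v) := by
  rw [← plin_def, ← plin_def]
  have hp : ∀ j : ℤ, aff o u v x + j • plin u v d = aff o u v (x + j • d) := by
    intro j; rw [paff_add, plin_smul]
  have hD : ∀ q' : Pt, det (plin u v d) (aff o u v q' - aff o u v x) = det d (q' - x) := by
    intro q'; rw [aff_sub, det_plin, hd, mul_one]
  refine ⟨?_, ?_, ?_, ?_, ?_, ?_⟩
  · rw [det_plin, hd, mul_one]; exact h.det
  · intro j hj q hq
    obtain ⟨q', rfl⟩ := aff_surj (o := o) hd q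
    rw [hp] at hq
    rw [hD]
    exact h.row j hj q' hq
  · intro j hj q hq
    obtain ⟨q', rfl⟩ := aff_surj (o := o) hd q
    rw [hp] at hq ⊢
    obtain ⟨c, hc⟩ := h.star j hj q' hq
    exact ⟨aff o u v c, (pull_tr hd _ _ _).mp hc⟩
  · intro j hj q hq hne hE
    obtain ⟨q', rfl⟩ := aff_surj (o := o) hd q
    rw [hp] at hq hE
    rw [hD] at hne
    refine h.stop j hj q' hq hne ?_
    change E (aff o u v q') (aff o u v (q' + (q' - (x + j • d))))
    rw [paff_add, plin_sub, ← plin_sub, ← aff_sub]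
    exact hE
  · intro j hj p q hq hs hne hE
    obtain ⟨q', rfl⟩ := aff_surj (o := o) hd q
    obtain ⟨p', rfl⟩ := aff_surj (o := o) hd p
    rw [hD] at hne
    refine h.stop' j hj p' q' hq ?_ hne ?_
    · apply plin_inj hd
      rw [plin_add, plin_add, plin_add, plin_smul]
      rw [aff_eq, aff_eq, aff_eq] at hs
      have e1 : o + plin u v p' + (o + plin u v q') = (o + o) + (plin u v p' + plin u v q') := by abel
      have e2 : o + plin u v x + (o + plin u v x) + (2 * j + 1) • plin u v d =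
        (o + o) + (plin u v x + plin u v x + (2 * j + 1) • plin u v d) := by abel
      rw [e1, e2] at hs
      exact add_left_cancel hs
    · change E (aff o u v q') (aff o u v (q' + (q' - p')))
      rw [paff_add, ← aff_sub]
      exact hE
  · intro j hj q hq hne i hi
    obtain ⟨q', rfl⟩ := aff_surj (o := o) hd q
    rw [hp] at hq
    rw [hD] at hne
    have := h.wall j hj q' hq hne i hi
    change E (aff o u v (q' + i • d)) (aff o u v (q' + (i + 1) • d)) at this
    rw [paff_add, paff_add, plin_smul, plin_smul] at this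
    exact this

theorem prim_lin {u v w : Pt} (h : Prim (plin u v w)) : Prim w := by
  obtain ⟨s, t, hst⟩ := h
  refine ⟨s * u.1 + t * u.2, s * v.1 + t * v.2, ?_⟩
  simp only [plin, Prod.fst_add, Prod.snd_add, Prod.smul_fst, Prod.smul_snd, smul_eq_mul] at hst
  linear_combination hst

theorem PT.of_tri {m n : ℕ} {E : Pt → Pt → Prop} (h : IsTri m n E) {o u v : Pt}
    (hd : det u v = 1) : PT (fun x => InR m n (aff o u v x)) (pull E o u v) := by
  have hd' : det u v = 1 ∨ det u v = -1 := Or.inl hd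
  refine ⟨?_, ?_, ?_, ?_, ?_, ?_, ?_, ?_, ?_, ?_, ?_⟩
  · intro a b hab
    exact h.symm _ _ hab
  · intro a b hab
    exact h.inR _ _ hab
  · intro a b hab
    have := h.prim _ _ hab
    rw [aff_sub] at this
    exact prim_lin this
  · intro a b c d hab hcd hcr
    exact h.ncr _ _ _ _ hab hcd ((cross_aff hd' a b c d).mpr hcr)
  · intro a b z hab hz hpos
    obtain ⟨c, hc⟩ := h.apex_exists hab hz (by rw [det_aff_one hd]; exact hpos)
    obtain ⟨c', rfl⟩ := aff_surj (o := o) hd c
    exact ⟨c', (pull_tr hd _ _ _).mpr hc⟩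
  · intro a b c d h1 h2
    exact paff_inj hd (h.apex_unique ((pull_tr hd _ _ _).mp h1) ((pull_tr hd _ _ _).mp h2))
  · intro y a b x h1 h2 h3
    have := h.not_inside ((pull_tr hd _ _ _).mp h1) h2 (by rw [det_aff_one hd]; exact h3)
    rw [det_aff_one hd] at this
    exact this
  · intro y w e hwe i j k hi hj hik hkj
    have e1 : ∀ l : ℤ, aff o u v (y + e + l • w) = aff o u v y + plin u v e + l • plin u v w := by
      intro l; rw [paff_add, paff_add, plin_smul]
    change E (aff o u v y) (aff o u v (y + e + i • w)) at hi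
    change E (aff o u v y) (aff o u v (y + e + j • w)) at hj
    change E (aff o u v y) (aff o u v (y + e + k • w))
    rw [e1] at hi hj ⊢
    exact h.sail (by rw [det_plin, hd, mul_one]; exact hwe) hi hj hik hkj
  · intro a b c c' k h1 h2 hk h3
    have e0 : (aff o u v c - aff o u v b) + (aff o u v c' - aff o u v b) =
        k • (aff o u v b - aff o u v a) := by
      rw [aff_sub, aff_sub, aff_sub, ← plin_add, hk, plin_smul]
    obtain ⟨d, d', l, g1, g2, g3, g4, ⟨i, hi, hi'⟩, ⟨i', hj, hj'⟩⟩ :=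
      h.run ((pull_tr hd _ _ _).mp h1) ((pull_tr hd _ _ _).mp h2) e0 h3
    obtain ⟨d, rfl⟩ := aff_surj (o := o) hd d
    obtain ⟨d', rfl⟩ := aff_surj (o := o) hd d'
    have e1 : aff o u v b + (aff o u v b - aff o u v a) = aff o u v (b + (b - a)) := by
      rw [paff_add, aff_sub]
    rw [e1] at g1 g2 g3
    refine ⟨d, d', l, (pull_tr hd _ _ _).mpr g1, (pull_tr hd _ _ _).mpr g2, ?_, g4,
      ⟨i, hi, ?_⟩, ⟨i', hj, ?_⟩⟩
    · rw [aff_sub, aff_sub, aff_sub, ← plin_add, ← plin_smul] at g3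
      exact plin_inj hd g3
    · apply paff_inj hd
      rw [aff_line]
      exact hi'
    · apply paff_inj hd
      rw [aff_line]
      exact hj'
  · intro y x hy hx hp
    rcases h.dir_face hy hx (prim_aff hd' hp) with h1 | ⟨a, b, h1, h2, h3⟩
    · exact Or.inl h1
    · obtain ⟨a, rfl⟩ := aff_surj (o := o) hd a
      obtain ⟨b, rfl⟩ := aff_surj (o := o) hd b
      rw [det_aff_one hd] at h2 h3
      exact Or.inr ⟨a, b, (pull_tr hd _ _ _).mpr h1, h2, h3⟩
  · intro y
    have h1 : {z | E (aff o u v y) z}.Finite := by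
      refine (h.edges_finite.image Prod.snd).subset ?_
      intro z hz
      exact ⟨(aff o u v y, z), hz, rfl⟩
    exact h1.preimage (fun x _ z _ hxz => paff_inj hd hxz)

/-! ## the rare events -/

theorem pull_evN {E : Pt → Pt → Prop} {o u v : Pt} (A B : ℕ) (e : Pt × Pt) :
    e ∈ evN (pull E o u v) A B ↔ (aff o u v e.1, aff o u v e.2) ∈ evN E A B := by
  unfold evN
  simp only [Set.mem_ofPred_eq]
  rw [pull_fwd, pull_bwd]
  exact Iff.rfl

theorem pull_evS {E : Pt → Pt → Prop} {o u v : Pt} (hd : det u v = 1) (ccw : Bool) (A K : ℕ)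
    (e : Pt × Pt) :
    e ∈ evS (pull E o u v) ccw A K ↔ (aff o u v e.1, aff o u v e.2) ∈ evS E ccw A K := by
  unfold evS
  simp only [Set.mem_ofPred_eq]
  constructor
  · rintro ⟨h1, h2, f, h3, h4, h5⟩
    refine ⟨h1, (pull_full A e).mp h2, fun i => aff o u v (f i), congrArg (aff o u v) h3,
      (pull_rotseq hd _ _ _ _).mp h4, fun i hi hi' hf => h5 i hi hi' ?_⟩
    exact (pull_full A (e.1, f i)).mpr hf
  · rintro ⟨h1, h2, f, h3, h4, h5⟩
    choose g hg using fun i => aff_surj (o := o) hd (f i)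
    refine ⟨h1, (pull_full A e).mpr h2, g, paff_inj (o := o) hd (by rw [hg, h3]), ?_, ?_⟩
    · rw [pull_rotseq hd]
      simp only [hg]
      exact h4
    · intro i hi hi' hf
      refine h5 i hi hi' ?_
      have := (pull_full A (e.1, g i)).mp hf
      rw [← hg i]
      exact this

theorem pull_evP {E : Pt → Pt → Prop} {o u v : Pt} (hd : det u v = 1) (S : ℕ) (e : Pt × Pt) :
    e ∈ evP (pull E o u v) S ↔ (aff o u v e.1, aff o u v e.2) ∈ evP E S := by
  unfold evP
  simp only [Set.mem_ofPred_eq]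
  rw [← ncard_aff (o := o) hd (fun x => E (aff o u v e.1) x ∧
    |det (aff o u v e.2 - aff o u v e.1) (x - aff o u v e.1)| = 1)]
  simp only [det_aff_one hd]
  exact Iff.rfl

theorem pull_evA {E : Pt → Pt → Prop} {o u v : Pt} (hd : det u v = 1) (D W : ℕ) (e : Pt × Pt) :
    e ∈ evA (pull E o u v) D W ↔ (aff o u v e.1, aff o u v e.2) ∈ evA E D W := by
  unfold evA
  simp only [Set.mem_ofPred_eq]
  rw [pull_deg hd]
  constructor
  · rintro ⟨h1, h2, f, h3, h4, j, h5, h6, h7⟩
    refine ⟨h1, h2, fun i => aff o u v (f i), congrArg (aff o u v) h3, (pull_rotseq hd _ _ _ _).mp h4, j, h5,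
      h6, ?_⟩
    rw [det_aff_one hd]
    exact h7
  · rintro ⟨h1, h2, f, h3, h4, j, h5, h6, h7⟩
    choose g hg using fun i => aff_surj (o := o) hd (f i)
    refine ⟨h1, h2, g, paff_inj (o := o) hd (by rw [hg, h3]), ?_, j, h5, h6, ?_⟩
    · rw [pull_rotseq hd]
      simp only [hg]
      exact h4
    · rw [← hg j, det_aff_one hd] at h7
      exact h7

theorem pull_evB {E : Pt → Pt → Prop} {o u v : Pt} (hd : det u v = 1) (e : Pt × Pt) :
    e ∈ evB (pull E o u v) ↔ (aff o u v e.1, aff o u v e.2) ∈ evB E := by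
  unfold evB
  simp only [Set.mem_ofPred_eq]
  constructor
  · rintro ⟨h1, h2⟩
    refine ⟨h1, ?_⟩
    rintro ⟨c, hc⟩
    obtain ⟨c', rfl⟩ := aff_surj (o := o) hd c
    exact h2 ⟨c', (pull_tr hd _ _ _).mpr hc⟩
  · rintro ⟨h1, h2⟩
    refine ⟨h1, ?_⟩
    rintro ⟨c, hc⟩
    exact h2 ⟨aff o u v c, (pull_tr hd _ _ _).mp hc⟩

/-- an edge of the pull-back sees a rare event iff its image does -/
theorem pull_sees {E : Pt → Pt → Prop} {o u v : Pt} (hd : det u v = 1) {R : ℕ}
    {X Y : Set (Pt × Pt)} (hXY : ∀ e : Pt × Pt, e ∈ X ↔ (aff o u v e.1, aff o u v e.2) ∈ Y)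
    (e : Pt × Pt) :
    e ∈ Sees (pull E o u v) R X ↔ (aff o u v e.1, aff o u v e.2) ∈ Sees E R Y := by
  unfold Sees
  simp only [Set.mem_ofPred_eq]
  constructor
  · rintro ⟨h1, e', h2, h3⟩
    exact ⟨h1, _, (hXY e').mp h2, (pull_reach hd R e e').mp h3⟩
  · rintro ⟨h1, ⟨p, q⟩, h2, h3⟩
    obtain ⟨p', rfl⟩ := aff_surj (o := o) hd p
    obtain ⟨q', rfl⟩ := aff_surj (o := o) hd q
    exact ⟨h1, (p', q'), (hXY (p', q')).mpr h2, (pull_reach hd R e (p', q')).mpr h3⟩

end Pool.Agent.MP01b126
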