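import Pool.Agent.Lib.MP_01b126_co.Ul.Lim
import Pool.Agent.Lib.MP_01b126_co.St.Region
import Pool.Agent.Lib.MP_01b126_co.BridgeE

/-!
# MP_01b126_co, ultralimit, piece U4a: rooms give sites
-/

namespace Pool.Agent.MP01b126

open Filter
open _root_.MP01b126 (emb hull det3 detR dt)

namespace Room

/-- the exit point of a segment leaving a simplex, in barycentric coordinates -/
theorem exit_aux {ι : Type} [Fintype ι] {p y : ι → ℝ} (hp : ∀ i, 0 ≤ p i) (hy : ∃ i, y i < 0) :
    ∃ l : ℝ, 0 ≤ l ∧ l < 1 ∧ (∀ i, 0 ≤ (1 - l) * p i + l * y i) ∧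
      ∃ i, y i < 0 ∧ (1 - l) * p i + l * y i = 0 := by
  classical
  have hne : (Finset.univ.filter (fun i => y i < 0)).Nonempty := by
    obtain ⟨i, hi⟩ := hy
    exact ⟨i, by simp [hi]⟩
  obtain ⟨i, hi, hmin⟩ := Finset.exists_min_image _ (fun i => p i / (p i - y i)) hne
  simp only [Finset.mem_filter, Finset.mem_univ, true_and] at hi hmin
  have hpi := hp i
  have hd : 0 < p i - y i := by linarith
  refine ⟨p i / (p i - y i), div_nonneg hpi hd.le, ?_, ?_, i, hi, ?_⟩
  · rw [div_lt_one hd]; linarith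
  · intro j
    have hpj := hp j
    have hl0 : 0 ≤ p i / (p i - y i) := div_nonneg hpi hd.le
    have hl1 : p i / (p i - y i) < 1 := by rw [div_lt_one hd]; linarith
    rcases lt_or_ge (y j) 0 with hj | hj
    · have hm := hmin j hj
      have hdj : 0 < p j - y j := by linarith
      have h1 : p i / (p i - y i) * (p j - y j) ≤ p j := by
        rw [le_div_iff₀ hdj] at hm; exact hm
      nlinarith
    · have := mul_nonneg hl0 hj
      have := mul_nonneg (show 0 ≤ 1 - p i / (p i - y i) by linarith) hpj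
      linarith
  · field_simp
    ring

/-- no lattice point in a primitive open segment -/
theorem not_lat {x y z : Pt} (hp : Prim (y - x)) (hz : emb z ∈ openSegment ℝ (emb x) (emb y)) :
    False := by
  obtain ⟨α, β, hα, hβ, hs, he⟩ := hz
  refine MP01b126.Lim.not_lattice (a := x) (b := y) hp hβ (by linarith) z ?_
  rw [← he]
  have : α = 1 - β := by linarith
  subst this
  rw [sub_smul, one_smul, smul_sub]; abel

/-- a segment meeting the side `ab` in an interior point and passing to the other side -/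
theorem side_case {a b c x y : Pt} (hd : det3 a b c = 1) (hp : Prim (y - x)) {Q : ℝ × ℝ}
    (hQ : Q ∈ openSegment ℝ (emb x) (emb y)) (hQT : Q ∈ hull {a, b, c}) (h0 : detR a b Q = 0)
    (hy : detR a b (emb y) < 0) : Cross a b x y := by
  rcases MP01b126.Lim.on_side hd hQT h0 with h | h | ⟨s, hs0, hs1, hs⟩
  · exact (not_lat hp (h ▸ hQ)).elim
  · exact (not_lat hp (h ▸ hQ)).elim
  · obtain ⟨α, β, hα, hβ, hαβ, he⟩ := hQ
    have e1 : α * detR a b (emb x) + β * detR a b (emb y) = 0 := by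
      rw [← MP01b126.detR_comb a b _ _ hαβ, he]; exact h0
    have e2 : (1 - s) * detR x y (emb a) + s * detR x y (emb b) = 0 := by
      rw [← MP01b126.detR_comb x y _ _ (by ring : (1 - s) + s = 1)]
      have h1 : (1 - s) • emb a + s • emb b = Q := by
        rw [hs, sub_smul, one_smul, smul_sub]; abel
      rw [h1, ← he, MP01b126.detR_comb x y _ _ hαβ]
      simp
    have e3 : 0 < detR a b (emb x) := by
      by_contra hc
      push Not at hc
      nlinarith
    have e4 : detR x y (emb a) - detR x y (emb b) = detR a b (emb y) - detR a b (emb x) := by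
      simp only [detR, emb]; ring
    have k1 : det (b - a) (x - a) = det3 a b x := by simp [det, det3]
    have k2 : det (b - a) (y - a) = det3 a b y := by simp [det, det3]
    have k3 : det (y - x) (a - x) = det3 x y a := by simp [det, det3]
    have k4 : det (y - x) (b - x) = det3 x y b := by simp [det, det3]
    rw [MP01b126.detR_emb] at e3 hy
    rw [MP01b126.detR_emb, MP01b126.detR_emb] at e2
    rw [MP01b126.detR_emb, MP01b126.detR_emb, MP01b126.detR_emb, MP01b126.detR_emb] at e4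
    refine ⟨?_, ?_⟩
    · rw [k1, k2]
      have h1 : (0 : ℤ) < det3 a b x := by exact_mod_cast e3
      have h2 : det3 a b y < 0 := by exact_mod_cast hy
      exact mul_neg_of_pos_of_neg h1 h2
    · rw [k3, k4]
      have h5 : ((det3 x y a : ℤ) : ℝ) * (det3 x y b : ℤ) < 0 := by
        have hne : ((det3 x y b : ℤ) : ℝ) ≠ 0 := by
          intro h6
          rw [h6] at e2 e4
          have : ((det3 x y a : ℤ) : ℝ) = 0 := by
            have h7 : (1 - s) * ((det3 x y a : ℤ) : ℝ) = 0 := by linarith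
            rcases mul_eq_zero.mp h7 with h8 | h8
            · linarith
            · exact h8
          rw [this] at e4
          linarith
        have h6 : 0 < ((det3 x y b : ℤ) : ℝ) * (det3 x y b : ℤ) := mul_self_pos.mpr hne
        have h7 : (1 - s) * (((det3 x y a : ℤ) : ℝ) * (det3 x y b : ℤ)) =
            - s * (((det3 x y b : ℤ) : ℝ) * (det3 x y b : ℤ)) := by
          linear_combination ((det3 x y b : ℤ) : ℝ) * e2
        by_contra hc
        push Not at hc
        have : 0 ≤ (1 - s) * (((det3 x y a : ℤ) : ℝ) * (det3 x y b : ℤ)) :=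
          mul_nonneg (by linarith) hc
        rw [h7] at this
        nlinarith
      exact_mod_cast h5

theorem hull_rot (a b c : Pt) : hull {b, c, a} = hull {a, b, c} := by
  congr 1
  ext z
  simp only [Finset.mem_insert, Finset.mem_singleton]
  tauto

/-- a lattice point of a unimodular triangle is a vertex -/
theorem lat_vertex {a b c z : Pt} (hd : det3 a b c = 1) (hz : emb z ∈ hull {a, b, c}) :
    z = a ∨ z = b ∨ z = c := by
  obtain ⟨h1, h2, h3⟩ := (MP01b126.mem_hull_iff (by omega) _).mp hz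
  rw [MP01b126.detR_emb] at h1 h2 h3
  have g1 : 0 ≤ det3 a b z := by exact_mod_cast h1
  have g2 : 0 ≤ det3 b c z := by exact_mod_cast h2
  have g3 : 0 ≤ det3 c a z := by exact_mod_cast h3
  have hs : det3 a b z + det3 b c z + det3 c a z = 1 := by
    rw [← hd]; simp only [det3]; ring
  have hb1 : z.1 = det3 b c z * a.1 + det3 c a z * b.1 + det3 a b z * c.1 := by
    have : det3 a b c * z.1 = det3 b c z * a.1 + det3 c a z * b.1 + det3 a b z * c.1 := by
      simp only [det3]; ring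
    rw [hd, one_mul] at this; exact this
  have hb2 : z.2 = det3 b c z * a.2 + det3 c a z * b.2 + det3 a b z * c.2 := by
    have : det3 a b c * z.2 = det3 b c z * a.2 + det3 c a z * b.2 + det3 a b z * c.2 := by
      simp only [det3]; ring
    rw [hd, one_mul] at this; exact this
  have hcase : (det3 a b z = 1 ∧ det3 b c z = 0 ∧ det3 c a z = 0) ∨
      (det3 a b z = 0 ∧ det3 b c z = 1 ∧ det3 c a z = 0) ∨
      (det3 a b z = 0 ∧ det3 b c z = 0 ∧ det3 c a z = 1) := by omega
  rcases hcase with ⟨k1, k2, k3⟩ | ⟨k1, k2, k3⟩ | ⟨k1, k2, k3⟩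
  · right; right
    rw [k1, k2, k3] at hb1 hb2
    ext
    · rw [hb1]; ring
    · rw [hb2]; ring
  · left
    rw [k1, k2, k3] at hb1 hb2
    ext
    · rw [hb1]; ring
    · rw [hb2]; ring
  · right; left
    rw [k1, k2, k3] at hb1 hb2
    ext
    · rw [hb1]; ring
    · rw [hb2]; ring

/-- an edge meeting a face ends at vertices of the face -/
theorem end_vertex {F : Pt → Pt → Prop} (hncr : ∀ {a b c d : Pt}, F a b → F c d → ¬ Cross a b c d)
    {a b c x y : Pt} (hT : Tr F a b c) (hxy : F x y) (hp : Prim (y - x)) {P : ℝ × ℝ}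
    (hP : P ∈ openSegment ℝ (emb x) (emb y)) (hPT : P ∈ hull {a, b, c}) :
    y = a ∨ y = b ∨ y = c := by
  have hd : det3 a b c = 1 := by
    have := hT.2.2.2
    simpa [det, det3] using this
  by_contra hcon
  have hynot : emb y ∉ hull {a, b, c} := fun h => hcon (lat_vertex hd h)
  obtain ⟨p1, p2, p3⟩ := (MP01b126.mem_hull_iff (by omega) _).mp hPT
  have hex : ∃ i : Fin 3, (![detR a b (emb y), detR b c (emb y), detR c a (emb y)] : Fin 3 → ℝ) i < 0 := by
    by_contra hc
    push Not at hc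
    apply hynot
    rw [MP01b126.mem_hull_iff (by omega)]
    exact ⟨hc 0, hc 1, hc 2⟩
  obtain ⟨l, hl0, hl1, hge, i, hi1, hi2⟩ := exit_aux
    (p := (![detR a b P, detR b c P, detR c a P] : Fin 3 → ℝ))
    (by intro i; fin_cases i <;> simpa) hex
  have hsum : (1 - l) + l = 1 := by ring
  set Q : ℝ × ℝ := (1 - l) • P + l • emb y with hQ
  have q1 : detR a b Q = (1 - l) * detR a b P + l * detR a b (emb y) := by
    rw [hQ, MP01b126.detR_comb _ _ _ _ hsum]
  have q2 : detR b c Q = (1 - l) * detR b c P + l * detR b c (emb y) := by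
    rw [hQ, MP01b126.detR_comb _ _ _ _ hsum]
  have q3 : detR c a Q = (1 - l) * detR c a P + l * detR c a (emb y) := by
    rw [hQ, MP01b126.detR_comb _ _ _ _ hsum]
  have g1 : 0 ≤ detR a b Q := by rw [q1]; exact hge 0
  have g2 : 0 ≤ detR b c Q := by rw [q2]; exact hge 1
  have g3 : 0 ≤ detR c a Q := by rw [q3]; exact hge 2
  have hQT : Q ∈ hull {a, b, c} := (MP01b126.mem_hull_iff (by omega) _).mpr ⟨g1, g2, g3⟩
  have hQo : Q ∈ openSegment ℝ (emb x) (emb y) := by
    obtain ⟨α, β, hα, hβ, hαβ, he⟩ := hP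
    refine ⟨(1 - l) * α, (1 - l) * β + l, mul_pos (by linarith) hα, ?_, ?_, ?_⟩
    · have := mul_pos (show 0 < 1 - l by linarith) hβ
      linarith
    · have : (1 - l) * α + ((1 - l) * β + l) = (1 - l) * (α + β) + l := by ring
      rw [this, hαβ]; ring
    · rw [hQ, ← he, smul_add, smul_smul, smul_smul, add_smul]; abel
  fin_cases i
  · exact hncr hT.1 hxy (side_case hd hp hQo hQT (by rw [q1]; exact hi2) hi1)
  · exact hncr hT.2.1 hxy (side_case (a := b) (b := c) (c := a)
      (by rw [← hd]; simp only [det3]; ring) hp hQo (by rw [hull_rot]; exact hQT)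
      (by rw [q2]; exact hi2) hi1)
  · exact hncr hT.2.2.1 hxy (side_case (a := c) (b := a) (c := b)
      (by rw [← hd]; simp only [det3]; ring) hp hQo (by rw [hull_rot, hull_rot]; exact hQT)
      (by rw [q3]; exact hi2) hi1)

theorem emb_aff (o u v x : Pt) :
    emb (aff o u v x) = emb o + (x.1 : ℝ) • emb u + (x.2 : ℝ) • emb v := by
  ext
  · simp only [emb, aff, Prod.fst_add, Prod.smul_fst, smul_eq_mul]; push_cast; ring
  · simp only [emb, aff, Prod.snd_add, Prod.smul_snd, smul_eq_mul]; push_cast; ring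

/-- the certificate segments lie in the model triangle -/
theorem sg_mem (i : Fin 4) :
    (0 ≤ (sg i).1.1 ∧ (sg i).1.1 ≤ 2 * (sg i).1.2 ∧ (sg i).1.2 ≤ 3) ∧
    (0 ≤ (sg i).2.1 ∧ (sg i).2.1 ≤ 2 * (sg i).2.2 ∧ (sg i).2.2 ≤ 3) := by
  fin_cases i <;> simp [sg]

theorem tri_convex {o u w : Pt} {p q : Pt} (hp : 0 ≤ p.1 ∧ p.1 ≤ 2 * p.2 ∧ p.2 ≤ 3)
    (hq : 0 ≤ q.1 ∧ q.1 ≤ 2 * q.2 ∧ q.2 ≤ 3) {P : ℝ × ℝ}
    (hP : P ∈ segment ℝ (emb (aff o u w p)) (emb (aff o u w q))) : P ∈ MP01b126.Tri63 o u w := by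
  obtain ⟨α, β, hα, hβ, hαβ, he⟩ := hP
  have hp1 : (0 : ℝ) ≤ p.1 := by exact_mod_cast hp.1
  have hp2 : (p.1 : ℝ) ≤ 2 * p.2 := by exact_mod_cast hp.2.1
  have hp3 : (p.2 : ℝ) ≤ 3 := by exact_mod_cast hp.2.2
  have hq1 : (0 : ℝ) ≤ q.1 := by exact_mod_cast hq.1
  have hq2 : (q.1 : ℝ) ≤ 2 * q.2 := by exact_mod_cast hq.2.1
  have hq3 : (q.2 : ℝ) ≤ 3 := by exact_mod_cast hq.2.2
  refine ⟨α * p.1 + β * q.1, α * p.2 + β * q.2, by positivity, ?_, ?_, ?_⟩
  · nlinarith
  · have hβ' : β = 1 - α := by linarith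
    subst hβ'
    nlinarith
  · rw [← he, emb_aff, emb_aff]
    have hβ' : β = 1 - α := by linarith
    subst hβ'
    ext
    · simp only [Prod.fst_add, Prod.smul_fst, smul_eq_mul]; ring
    · simp only [Prod.snd_add, Prod.smul_snd, smul_eq_mul]; ring

end Room

open Room

namespace LSeq

variable (X : LSeq)

/-- all directed edges of a visible triangle are reached at bounded distance -/
theorem vis_all {a b c : Pt} (h : X.Vis a b c) :
    ∃ R, ∀ᶠ k in (X.U : Filter ℕ), ∀ x y : Pt, (x = a ∨ x = b ∨ x = c) → (y = a ∨ y = b ∨ y = c) →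
      x ≠ y → Reach (X.F k) R rt (x, y) := by
  obtain ⟨R1, h1⟩ := X.vis_reach h
  obtain ⟨R2, h2⟩ := X.vis_reach h.rot
  obtain ⟨R3, h3⟩ := X.vis_reach h.rot.rot
  obtain ⟨R4, h4⟩ := X.vis_reach' h
  obtain ⟨R5, h5⟩ := X.vis_reach' h.rot
  obtain ⟨R6, h6⟩ := X.vis_reach' h.rot.rot
  refine ⟨R1 + R2 + R3 + R4 + R5 + R6, ?_⟩
  filter_upwards [h1, h2, h3, h4, h5, h6] with k g1 g2 g3 g4 g5 g6
  intro x y hx hy hxy
  rcases hx with rfl | rfl | rfl <;> rcases hy with rfl | rfl | rfl
  · exact absurd rfl hxy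
  · exact reach_mono (by omega) g1
  · exact reach_mono (by omega) g6
  · exact reach_mono (by omega) g4
  · exact absurd rfl hxy
  · exact reach_mono (by omega) g2
  · exact reach_mono (by omega) g3
  · exact reach_mono (by omega) g5
  · exact absurd rfl hxy

theorem room_site {Y : MP01b126.Lim} (hV : Y.V = X.Vis) (hR : Y.HasRoom) :
    ∃ R : ℕ, ∀ᶠ k in (X.U : Filter ℕ), ∃ o u v : Pt, (det u v = 1 ∨ det u v = -1) ∧
      (∀ i, X.Rg k (aff o u v (sg i).1) ∧ X.Rg k (aff o u v (sg i).2)) ∧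
      ∀ i x y, X.F k x y → Cross x y (aff o u v (sg i).1) (aff o u v (sg i).2) →
        Reach (X.F k) R rt (x, y) := by
  classical
  obtain ⟨o, u, w, hdt, T, hT, hcov⟩ := hR
  rw [hV] at hT
  have hch : ∀ t : Pt × Pt × Pt, ∃ R : ℕ, t ∈ T → ∀ᶠ k in (X.U : Filter ℕ), ∀ x y : Pt,
      (x = t.1 ∨ x = t.2.1 ∨ x = t.2.2) → (y = t.1 ∨ y = t.2.1 ∨ y = t.2.2) → x ≠ y →
      Reach (X.F k) R rt (x, y) := by
    intro t
    by_cases ht : t ∈ T
    · obtain ⟨R, hR⟩ := X.vis_all (hT t ht)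
      exact ⟨R, fun _ => hR⟩
    · exact ⟨0, fun h => absurd h ht⟩
  choose Rf hRf using hch
  refine ⟨T.sup Rf, ?_⟩
  have h1 : ∀ᶠ k in (X.U : Filter ℕ), ∀ t ∈ T, Tr (X.F k) t.1 t.2.1 t.2.2 :=
    (Filter.eventually_all_finset _).mpr (fun t ht => X.tr_iff.mp (X.vis_tr (hT t ht)))
  have h2 : ∀ᶠ k in (X.U : Filter ℕ), ∀ t ∈ T, ∀ x y : Pt,
      (x = t.1 ∨ x = t.2.1 ∨ x = t.2.2) → (y = t.1 ∨ y = t.2.1 ∨ y = t.2.2) → x ≠ y →
      Reach (X.F k) (Rf t) rt (x, y) :=
    (Filter.eventually_all_finset _).mpr (fun t ht => hRf t ht)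
  filter_upwards [h1, h2] with k g1 g2
  have hreg : ∀ p : Pt, (0 ≤ p.1 ∧ p.1 ≤ 2 * p.2 ∧ p.2 ≤ 3) → X.Rg k (aff o u w p) := by
    intro p hp
    have hmem := hcov (tri_convex (o := o) (u := u) (w := w) hp hp (left_mem_segment ℝ _ _))
    simp only [Set.mem_iUnion] at hmem
    obtain ⟨t, ht, hm⟩ := hmem
    have htr := g1 t ht
    have hd : det3 t.1 t.2.1 t.2.2 = 1 := by
      have := htr.2.2.2
      simpa [det, det3] using this
    rcases lat_vertex hd hm with h | h | h
    · rw [h]; exact (X.pt k).inR htr.1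
    · rw [h]; exact (X.pt k).inR htr.2.1
    · rw [h]; exact (X.pt k).inR htr.2.2.1
  refine ⟨o, u, w, Or.inl hdt, fun i => ⟨hreg _ (sg_mem i).1, hreg _ (sg_mem i).2⟩, ?_⟩
  intro i x y hxy hc
  obtain ⟨P, hP1, hP2⟩ := MP01b126.cross_point hc
  have hmem := hcov (tri_convex (o := o) (u := u) (w := w) (sg_mem i).1 (sg_mem i).2
    (openSegment_subset_segment ℝ _ _ hP2))
  simp only [Set.mem_iUnion] at hmem
  obtain ⟨t, ht, hm⟩ := hmem
  have htr := g1 t ht
  have hy := end_vertex (X.pt k).ncr htr hxy ((X.pt k).prim hxy) hP1 hm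
  have hx := end_vertex (X.pt k).ncr htr ((X.pt k).symm hxy) ((X.pt k).prim ((X.pt k).symm hxy))
    (by rw [openSegment_symm]; exact hP1) hm
  have hne : x ≠ y := by
    rintro rfl
    have := ((X.pt k).prim hxy).ne_zero
    simp at this
  exact reach_mono (Finset.le_sup ht) (g2 t ht x y hx hy hne)

end LSeq

end Pool.Agent.MP01b126
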