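import Pool.Agent.Lib.MP_01b126_co.Ul.UDefs
import Pool.Agent.Lib.MP_01b126_co.Ul.Pull
import Pool.Agent.Lib.MP_01b126_co.Run
import Pool.Agent.Lib.MP_01b126_co.RareN
import Pool.Agent.Lib.MP_01b126_co.RareA
import Pool.Agent.Lib.MP_01b126_co.RareB
import Pool.Agent.Lib.MP_01b126_co.RareP
import Pool.Agent.Lib.MP_01b126_co.Thresh
import Pool.Agent.Lib.MP_01b126_co.Cert

/-!
# MP_01b126_co, piece U2: selection of a vertex which sees no rare event
-/

namespace Pool.Agent.MP01b126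

open Filter

namespace Sel

variable {m n : ℕ} {E : Pt → Pt → Prop}

/-! ### faces at a vertex -/

theorem exists_face (h : IsTri m n E) (hm : 1 ≤ m) (hn : 1 ≤ n) {v : Pt} (hv : InR m n v) :
    ∃ w c, Tr E v w c := by
  obtain ⟨h1, h2, h3, h4⟩ := hv
  -- horizontal neighbour
  obtain ⟨s, hs, hsR⟩ : ∃ s : ℤ, (s = 1 ∨ s = -1) ∧ InR m n (v + (s, 0)) := by
    by_cases hx : v.1 + 1 ≤ m
    · exact ⟨1, Or.inl rfl, by refine ⟨?_, ?_, ?_, ?_⟩ <;> simp <;> omega⟩
    · exact ⟨-1, Or.inr rfl, by refine ⟨?_, ?_, ?_, ?_⟩ <;> simp <;> omega⟩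
  obtain ⟨t, ht, htR⟩ : ∃ t : ℤ, (t = 1 ∨ t = -1) ∧ InR m n (v + (0, t)) := by
    by_cases hx : v.2 + 1 ≤ n
    · exact ⟨1, Or.inl rfl, by refine ⟨?_, ?_, ?_, ?_⟩ <;> simp <;> omega⟩
    · exact ⟨-1, Or.inr rfl, by refine ⟨?_, ?_, ?_, ?_⟩ <;> simp <;> omega⟩
  have hp : Prim (v + (s, 0) - v) := by
    rw [add_sub_cancel_left]
    rcases hs with rfl | rfl
    · exact ⟨1, 0, by norm_num⟩
    · exact ⟨-1, 0, by norm_num⟩
  rcases h.dir_face ⟨h1, h2, h3, h4⟩ hsR hp with hE | ⟨a, b, hT, -, -⟩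
  · have hd : det (v + (s, 0) - v) (v + (0, t) - v) = s * t := by
      rw [add_sub_cancel_left, add_sub_cancel_left]; simp [det]
    have hd' : det (v - (v + (s, 0))) (v + (0, t) - (v + (s, 0))) = - (s * t) := by
      simp only [det, Prod.fst_sub, Prod.snd_sub, Prod.fst_add, Prod.snd_add]; ring
    by_cases hst : 0 < s * t
    · obtain ⟨c, hc⟩ := h.apex_exists hE htR (by rw [hd]; exact hst)
      exact ⟨_, c, hc⟩
    · have : 0 < -(s * t) := by
        rcases hs with rfl | rfl <;> rcases ht with rfl | rfl <;> simp_all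
      obtain ⟨c, hc⟩ := h.apex_exists (h.symm _ _ hE) htR (by rw [hd']; exact this)
      exact ⟨_, _, hc.rot⟩
  · exact ⟨a, b, hT⟩

/-! ### picking a vertex -/

theorem pick {Bad : Set Pt} {S : Set (Pt × Pt)} (hS : S.Finite) (hlt : S.ncard < Bad.ncard)
    (g : Pt → Pt) : ∃ v ∈ Bad, (v, g v) ∉ S := by
  by_contra hc
  push Not at hc
  have := Set.ncard_le_ncard_of_injOn (s := Bad) (t := S) (fun v => (v, g v)) hc
    (fun a _ b _ hab => (Prod.ext_iff.1 hab).1) hS
  omega

/-! ### bounds for the rare events -/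

theorem DE_le (h : IsTri m n E) (hm : 1 ≤ m) (hn : 1 ≤ n) :
    ((DE E).ncard : ℝ) ≤ 10 * (m * n) := by
  have h1 : (DE E).ncard ≤ 10 * (m * n) := by
    rw [card_DE h]
    have h2 : m ≤ m * n := Nat.le_mul_of_pos_right m hn
    have h3 : n ≤ m * n := Nat.le_mul_of_pos_left n hm
    nlinarith
  exact_mod_cast h1

theorem sees_finite (h : IsTri m n E) (R : ℕ) (X : Set (Pt × Pt)) : (Sees E R X).Finite :=
  (DE_finite h).subset fun _ he => he.1

theorem sees_le (h : IsTri m n E) (R : ℕ) {X : Set (Pt × Pt)} (hX : X ⊆ DE E) {c : ℝ}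
    (hc : (X.ncard : ℝ) ≤ c / 4 ^ R * (m * n)) : ((Sees E R X).ncard : ℝ) ≤ c * (m * n) := by
  have h1 : ((Sees E R X).ncard : ℝ) ≤ 4 ^ R * X.ncard := by exact_mod_cast sees_card h R hX
  have h4 : (0 : ℝ) < 4 ^ R := by positivity
  calc ((Sees E R X).ncard : ℝ) ≤ 4 ^ R * X.ncard := h1
    _ ≤ 4 ^ R * (c / 4 ^ R * (m * n)) := by gcongr
    _ = c * (m * n) := by field_simp

/-- from `A * x ≤ K * |DE|` with large `A` -/
theorem large_bound (h : IsTri m n E) (hm : 1 ≤ m) (hn : 1 ≤ n) {A K x : ℕ} {c : ℝ} (hc : 0 < c)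
    (hA : 10 * K / c < A) (hx : A * x ≤ K * (DE E).ncard) : (x : ℝ) ≤ c * (m * n) := by
  have h1 : (A : ℝ) * x ≤ K * (10 * (m * n)) := by
    have : (A : ℝ) * x ≤ K * (DE E).ncard := by exact_mod_cast hx
    exact this.trans (mul_le_mul_of_nonneg_left (DE_le h hm hn) (by positivity))
  have hA0 : (0 : ℝ) < A := lt_of_le_of_lt (by positivity) hA
  rw [div_lt_iff₀ hc] at hA
  have h2 : (A : ℝ) * x ≤ A * (c * (m * n)) := by
    have hmn : (0 : ℝ) ≤ (m : ℝ) * n := by positivity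
    calc (A : ℝ) * x ≤ K * (10 * (m * n)) := h1
      _ = 10 * K * (m * n) := by ring
      _ ≤ A * c * (m * n) := mul_le_mul_of_nonneg_right hA.le hmn
      _ = A * (c * (m * n)) := by ring
  exact le_of_mul_le_mul_left h2 hA0

theorem small_N (R B : ℕ) {c : ℝ} (hc : 0 < c) : ∃ A : ℕ, ∀ (m n : ℕ) (E : Pt → Pt → Prop),
    1 ≤ m → 1 ≤ n → IsTri m n E → ((Sees E R (evN E A B)).ncard : ℝ) ≤ c * (m * n) := by
  have hc' : 0 < c / 4 ^ R := by positivity
  obtain ⟨A, hA⟩ := exists_nat_gt (10 * (B : ℝ) / (c / 4 ^ R))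
  exact ⟨A, fun m n E hm hn h => sees_le h R (fun e he => he.1)
    (large_bound h hm hn hc' hA (rareN h A B))⟩

theorem small_P (R : ℕ) {c : ℝ} (hc : 0 < c) : ∃ S : ℕ, ∀ (m n : ℕ) (E : Pt → Pt → Prop),
    1 ≤ m → 1 ≤ n → IsTri m n E → ((Sees E R (evP E S)).ncard : ℝ) ≤ c * (m * n) := by
  have hc' : 0 < c / 4 ^ R := by positivity
  obtain ⟨A, hA⟩ := exists_nat_gt (10 * ((12 : ℕ) : ℝ) / (c / 4 ^ R))
  exact ⟨A, fun m n E hm hn h => sees_le h R (fun e he => he.1)
    (large_bound h hm hn hc' hA (rareP h A))⟩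

theorem small_A (R W : ℕ) {c : ℝ} (hc : 0 < c) : ∃ D : ℕ, ∀ (m n : ℕ) (E : Pt → Pt → Prop),
    1 ≤ m → 1 ≤ n → IsTri m n E → ((Sees E R (evA E D W)).ncard : ℝ) ≤ c * (m * n) := by
  have hc' : 0 < c / 4 ^ R := by positivity
  obtain ⟨A, hA⟩ := exists_nat_gt (10 * ((2 * W + 2 : ℕ) : ℝ) / (c / 4 ^ R))
  exact ⟨A, fun m n E hm hn h => sees_le h R (fun e he => he.1)
    (large_bound h hm hn hc' hA (rareA h A W))⟩

theorem small_S (R : ℕ) {c : ℝ} (hc : 0 < c) : ∃ K : ℕ, ∀ (m n : ℕ) (E : Pt → Pt → Prop),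
    1 ≤ m → 1 ≤ n → IsTri m n E → ∀ (ccw : Bool) (A : ℕ),
      ((Sees E R (evS E ccw A K)).ncard : ℝ) ≤ c * (m * n) := by
  have hc' : 0 < c / 4 ^ R := by positivity
  obtain ⟨K, hK⟩ := exists_nat_gt (10 * ((1 : ℕ) : ℝ) / (c / 4 ^ R))
  exact ⟨K, fun m n E hm hn h ccw A => sees_le h R (fun e he => he.1)
    (large_bound h hm hn hc' hK (by rw [one_mul]; exact rareS h ccw A K))⟩

theorem small_B (R : ℕ) {c : ℝ} (hc : 0 < c) : ∃ N : ℕ, ∀ (m n : ℕ) (E : Pt → Pt → Prop),
    N ≤ m → N ≤ n → IsTri m n E → ((Sees E R (evB E)).ncard : ℝ) ≤ c * (m * n) := by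
  have hc' : 0 < c / 4 ^ R := by positivity
  obtain ⟨N, hN⟩ := exists_nat_gt (4 / (c / 4 ^ R))
  refine ⟨N, fun m n E hm hn h => sees_le h R (fun e he => he.1) ?_⟩
  have h1 : ((evB E).ncard : ℝ) ≤ 2 * (m + n) := by exact_mod_cast rareB h
  rw [div_lt_iff₀ hc'] at hN
  set d := c / 4 ^ R with hd
  have hm' : (N : ℝ) ≤ m := by exact_mod_cast hm
  have hn' : (N : ℝ) ≤ n := by exact_mod_cast hn
  have h2 : (4 : ℝ) ≤ n * d := hN.le.trans (mul_le_mul_of_nonneg_right hn' hc'.le)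
  have h3 : (4 : ℝ) ≤ m * d := hN.le.trans (mul_le_mul_of_nonneg_right hm' hc'.le)
  have h4 : (4 : ℝ) * m ≤ n * d * m := mul_le_mul_of_nonneg_right h2 (by positivity)
  have h5 : (4 : ℝ) * n ≤ m * d * n := mul_le_mul_of_nonneg_right h3 (by positivity)
  nlinarith

/-- edges which are full at level `a` and not at level `b` -/
def evF (E : Pt → Pt → Prop) (a b : ℕ) : Set (Pt × Pt) :=
  {e | E e.1 e.2 ∧ Full E a e ∧ ¬ Full E b e}

theorem full_mono {a b : ℕ} (hab : a ≤ b) {e : Pt × Pt} (h : Full E b e) : Full E a e :=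
  ⟨fun j hj => h.1 j (by omega), fun j hj => h.2 j (by omega)⟩

theorem chain_sum (h : IsTri m n E) (r : ℕ) (s : ℕ → ℕ) (hs : StrictMono s) :
    ∑ i ∈ Finset.range r, (evF E (s i) (s (i + 1))).ncard ≤ (DE E).ncard := by
  classical
  have hfin := DE_finite h
  have hf : ∀ i, (evF E (s i) (s (i + 1))).Finite := fun i => hfin.subset fun e he => he.1
  have h1 : ∀ i, (evF E (s i) (s (i + 1))).ncard = (hf i).toFinset.card := fun i =>
    Set.ncard_eq_toFinset_card _ (hf i)
  simp_rw [h1]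
  rw [Set.ncard_eq_toFinset_card _ hfin, ← Finset.card_biUnion]
  · apply Finset.card_le_card
    intro e he
    rw [Finset.mem_biUnion] at he
    obtain ⟨i, -, he⟩ := he
    rw [Set.Finite.mem_toFinset] at he ⊢
    exact he.1
  · have key : ∀ i j, i < j → ∀ e, e ∈ evF E (s i) (s (i + 1)) → e ∉ evF E (s j) (s (j + 1)) := by
      intro i j hij e h1 h2
      exact h1.2.2 (full_mono (hs.monotone (by omega)) h2.2.1)
    intro i _ j _ hij
    rw [Function.onFun, Finset.disjoint_left]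
    intro e he he'
    rw [Set.Finite.mem_toFinset] at he he'
    rcases lt_or_gt_of_ne hij with h' | h'
    · exact key i j h' e he he'
    · exact key j i h' e he' he

/-! ### the sequence -/

/-- a sequence of large triangulations -/
structure Sq where
  m : ℕ → ℕ
  n : ℕ → ℕ
  E : ℕ → Pt → Pt → Prop
  hm : ∀ k, k + 1 ≤ m k
  hn : ∀ k, k + 1 ≤ n k
  h : ∀ k, IsTri (m k) (n k) (E k)

variable (S : Sq)

theorem small_F (U : Ultrafilter ℕ) (hU : (U : Filter ℕ) ≤ atTop) (c : ℕ → ℝ) (hc : ∀ R, 0 < c R) :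
    ∃ (a A : ℕ → ℕ), Tendsto A (U : Filter ℕ) atTop ∧ ∀ R, ∀ᶠ k in (U : Filter ℕ),
      ((Sees (S.E k) R (evF (S.E k) (a R) (A k))).ncard : ℝ) ≤ c R * (S.m k * S.n k) := by
  obtain ⟨a, A, hA, H⟩ := thresholds U hU
    (fun k R a b => 4 ^ R * ((evF (S.E k) a b).ncard : ℝ) / (S.m k * S.n k))
    (fun R => 4 ^ R * 10) c hc
    (by
      intro k R a b b' hbb
      have h1 : (evF (S.E k) a b).ncard ≤ (evF (S.E k) a b').ncard := by
        refine Set.ncard_le_ncard ?_ ((DE_finite (S.h k)).subset fun e he => he.1)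
        rintro e ⟨h1, h2, h3⟩
        exact ⟨h1, h2, fun h => h3 (full_mono hbb h)⟩
      have h2 : ((evF (S.E k) a b).ncard : ℝ) ≤ (evF (S.E k) a b').ncard := by exact_mod_cast h1
      gcongr)
    (by
      intro k R r s hs
      have h1 := chain_sum (S.h k) r s hs
      have hm : 1 ≤ S.m k := by have := S.hm k; omega
      have hn : 1 ≤ S.n k := by have := S.hn k; omega
      have h2 := DE_le (S.h k) hm hn
      have h3 : ∑ i ∈ Finset.range r, ((evF (S.E k) (s i) (s (i + 1))).ncard : ℝ) ≤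
          10 * (S.m k * S.n k) := by
        refine le_trans ?_ h2
        exact_mod_cast h1
      have hp : (0 : ℝ) < S.m k * S.n k := by positivity
      rw [← Finset.sum_div, ← Finset.mul_sum, div_le_iff₀ hp]
      have : (0 : ℝ) < 4 ^ R := by positivity
      nlinarith)
  refine ⟨a, A, hA, fun R => ?_⟩
  filter_upwards [H, hA.eventually (eventually_ge_atTop R)] with k hk hR
  have h1 := hk R hR
  have hm : 1 ≤ S.m k := by have := S.hm k; omega
  have hn : 1 ≤ S.n k := by have := S.hn k; omega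
  have hp : (0 : ℝ) < S.m k * S.n k := by positivity
  have h4 : (0 : ℝ) < 4 ^ R := by positivity
  refine sees_le (S.h k) R (fun e he => he.1) ?_
  rw [div_le_iff₀ hp] at h1
  rw [div_mul_eq_mul_div, le_div_iff₀ h4]
  linarith

/-- diagonal selection of a radius -/
theorem diag (U : Ultrafilter ℕ) (hU : (U : Filter ℕ) ≤ atTop) (P : ℕ → ℕ → Prop)
    (hP : ∀ j, ∀ᶠ k in (U : Filter ℕ), P j k) :
    ∃ J : ℕ → ℕ, Tendsto J (U : Filter ℕ) atTop ∧ ∀ k, ∀ j < J k, P j k := by
  classical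
  let Q : ℕ → ℕ → Prop := fun k J => ∀ j < J, P j k
  refine ⟨fun k => Nat.findGreatest (Q k) k, ?_, ?_⟩
  · rw [Filter.tendsto_atTop]
    intro B
    have h1 : ∀ᶠ k in (U : Filter ℕ), ∀ j ∈ Finset.range B, P j k := by
      rw [Filter.eventually_all_finset]
      exact fun j _ => hP j
    have h2 : ∀ᶠ k in (U : Filter ℕ), B ≤ k := hU (Filter.eventually_ge_atTop B)
    filter_upwards [h1, h2] with k hk hk2
    exact Nat.le_findGreatest hk2 fun j hj => hk j (Finset.mem_range.2 hj)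
  · intro k
    exact Nat.findGreatest_spec (P := Q k) (Nat.zero_le k) (fun j hj => absurd hj (by omega))

/-! ### pull-backs -/

theorem pfull {E : Pt → Pt → Prop} {o u v : Pt} (A : ℕ) (e : Pt × Pt) :
    Full (pull E o u v) A e ↔ Full E A (aff o u v e.1, aff o u v e.2) := by
  unfold Full
  rw [pull_fwd, pull_bwd]

theorem protseq {E : Pt → Pt → Prop} {o u v : Pt} (hd : det u v = 1) {ccw : Bool} {y : Pt}
    {K : ℕ} {f : ℕ → Pt} (h : RotSeq (pull E o u v) ccw y K f) :
    RotSeq E ccw (aff o u v y) K (fun i => aff o u v (f i)) := by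
  intro i hi
  have := h i hi
  unfold Rt at this ⊢
  cases ccw
  · simpa [pull_tr hd] using this
  · simpa [pull_tr hd] using this

theorem det_pull {o u v : Pt} (hd : det u v = 1) (x y z w : Pt) :
    det (aff o u v x - aff o u v y) (aff o u v z - aff o u v w) = det (x - y) (z - w) := by
  rw [det_aff, hd, mul_one]

theorem pull_par {E : Pt → Pt → Prop} {o u v : Pt} (hd : det u v = 1) (e : Pt × Pt) :
    {x | pull E o u v e.1 x ∧ |det (e.2 - e.1) (x - e.1)| = 1}.ncard =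
      {x | E (aff o u v e.1) x ∧
        |det (aff o u v e.2 - aff o u v e.1) (x - aff o u v e.1)| = 1}.ncard := by
  rw [← Set.ncard_image_of_injective _ (fun x y h => paff_inj hd h : Function.Injective (aff o u v))]
  congr 1
  ext y
  constructor
  · rintro ⟨x, ⟨h1, h2⟩, rfl⟩
    exact ⟨h1, by rw [det_pull hd]; exact h2⟩
  · rintro ⟨h1, h2⟩
    obtain ⟨x, rfl⟩ := aff_surj hd (o := o) y
    exact ⟨x, ⟨h1, by rw [det_pull hd] at h2; exact h2⟩, rfl⟩

/-- what is seen from the root is reached from the root face of `E` -/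
theorem reach_root {E : Pt → Pt → Prop} {o u v : Pt} (hd : det u v = 1) {R : ℕ} {e : Pt × Pt}
    (h : Reach (pull E o u v) R rt e) :
    Reach E R (o, o + u) (aff o u v e.1, aff o u v e.2) := by
  have := (pull_reach hd R rt e).1 h
  have h1 : aff o u v rt.1 = o := by simp [aff, rt]
  have h2 : aff o u v rt.2 = o + u := by simp [aff, rt]
  rwa [h1, h2] at this

theorem not_mem_of_not_sees {E : Pt → Pt → Prop} {R : ℕ} {X : Set (Pt × Pt)} {e e' : Pt × Pt}
    (he : E e.1 e.2) (h : e ∉ Sees E R X) (hr : Reach E R e e') : e' ∉ X :=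
  fun hx => h ⟨he, e', hx, hr⟩

/-- the root edge of the `k`-th triangulation sees no event of index below `J k` -/
theorem unseen {Y : Set (Pt × Pt)} {E : Pt → Pt → Prop} {o u v : Pt} (hd : det u v = 1)
    (hE : E o (o + u)) {R : ℕ} {X : Set (Pt × Pt)} (hX : Sees E R X ⊆ Y)
    (hn : (o, o + u) ∉ Y) {e : Pt × Pt} (h : Reach (pull E o u v) R rt e) :
    (aff o u v e.1, aff o u v e.2) ∉ X :=
  not_mem_of_not_sees (e := (o, o + u)) hE (fun h' => hn (hX h')) (reach_root hd h)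

theorem root_edge {m n : ℕ} {E : Pt → Pt → Prop} (h : IsTri m n E) {o u v : Pt}
    (hd : det u v = 1) (hE : E o (o + u)) {R : ℕ} {e : Pt × Pt}
    (hr : Reach (pull E o u v) R rt e) : E (aff o u v e.1) (aff o u v e.2) :=
  (reach_symm h (e := (o, o + u)) hE (reach_root hd hr)).1

end Sel

open Sel in
theorem selectThm : SelectThm := by
  classical
  intro hcon
  unfold StructureThm at hcon
  push Not at hcon
  obtain ⟨D, L, B, W, ε, hε, hcon⟩ := hcon
  choose m n hm hn E hE hbad using fun k => hcon k (k + 1)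
  have hm1 : ∀ k, 1 ≤ m k := fun k => by have := hm k; omega
  have hn1 : ∀ k, 1 ≤ n k := fun k => by have := hn k; omega
  set S : Sel.Sq := ⟨m, n, E, hm, hn, hE⟩ with hS
  set U : Ultrafilter ℕ := hyperfilter ℕ with hUdef
  have hU : (U : Filter ℕ) ≤ atTop := Nat.hyperfilter_le_atTop
  set c : ℕ → ℝ := fun j => ε / 7 / 2 ^ (j + 2) with hcdef
  have hc : ∀ j, 0 < c j := fun j => by positivity
  choose NN hNN using fun j => small_N j j (hc j)
  choose SS hSS using fun j => small_P j (hc j)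
  choose DD hDD using fun j : ℕ => small_A j.unpair.1 j.unpair.2 (hc j)
  choose KK hKK using fun j => small_S j (hc j)
  choose BB hBB using fun j => small_B j (hc j)
  obtain ⟨a, A, hA, hF⟩ := small_F S U hU c hc
  set X1 : ℕ → ℕ → Set (Pt × Pt) := fun j k => Sees (E k) j (evB (E k)) with hX1
  set X2 : ℕ → ℕ → Set (Pt × Pt) := fun j k => Sees (E k) j (evN (E k) (NN j) j) with hX2
  set X3 : ℕ → ℕ → Set (Pt × Pt) := fun j k => Sees (E k) j (evP (E k) (SS j)) with hX3
  set X4 : ℕ → ℕ → Set (Pt × Pt) := fun j k =>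
    Sees (E k) j.unpair.1 (evA (E k) (DD j) j.unpair.2) with hX4
  set X5 : ℕ → ℕ → Set (Pt × Pt) := fun j k => Sees (E k) j (evF (E k) (a j) (A k)) with hX5
  set X6 : ℕ → ℕ → Set (Pt × Pt) := fun j k =>
    Sees (E k) j (evS (E k) true (A k) (KK j)) with hX6
  set X7 : ℕ → ℕ → Set (Pt × Pt) := fun j k =>
    Sees (E k) j (evS (E k) false (A k) (KK j)) with hX7
  set X : ℕ → ℕ → Set (Pt × Pt) := fun j k =>
    X1 j k ∪ (X2 j k ∪ (X3 j k ∪ (X4 j k ∪ (X5 j k ∪ (X6 j k ∪ X7 j k))))) with hXdef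
  have hXb : ∀ j, ∀ᶠ k in (U : Filter ℕ), ((X j k).ncard : ℝ) ≤ 7 * c j * (m k * n k) := by
    intro j
    filter_upwards [hF j, hU (eventually_ge_atTop (BB j))] with k h5 hk
    have e1 : ((X1 j k).ncard : ℝ) ≤ c j * (m k * n k) :=
      hBB j (m k) (n k) (E k) (by have := hm k; omega) (by have := hn k; omega) (hE k)
    have e2 : ((X2 j k).ncard : ℝ) ≤ c j * (m k * n k) :=
      hNN j (m k) (n k) (E k) (hm1 k) (hn1 k) (hE k)
    have e3 : ((X3 j k).ncard : ℝ) ≤ c j * (m k * n k) :=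
      hSS j (m k) (n k) (E k) (hm1 k) (hn1 k) (hE k)
    have e4 : ((X4 j k).ncard : ℝ) ≤ c j * (m k * n k) :=
      hDD j (m k) (n k) (E k) (hm1 k) (hn1 k) (hE k)
    have e5 : ((X5 j k).ncard : ℝ) ≤ c j * (m k * n k) := h5
    have e6 : ((X6 j k).ncard : ℝ) ≤ c j * (m k * n k) :=
      hKK j (m k) (n k) (E k) (hm1 k) (hn1 k) (hE k) true (A k)
    have e7 : ((X7 j k).ncard : ℝ) ≤ c j * (m k * n k) :=
      hKK j (m k) (n k) (E k) (hm1 k) (hn1 k) (hE k) false (A k)
    have hle : (X j k).ncard ≤ (X1 j k).ncard + ((X2 j k).ncard + ((X3 j k).ncard +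
        ((X4 j k).ncard + ((X5 j k).ncard + ((X6 j k).ncard + (X7 j k).ncard))))) := by
      have q : ∀ s t : Set (Pt × Pt), (s ∪ t).ncard ≤ s.ncard + t.ncard := Set.ncard_union_le
      have q1 := q (X1 j k) (X2 j k ∪ (X3 j k ∪ (X4 j k ∪ (X5 j k ∪ (X6 j k ∪ X7 j k)))))
      have q2 := q (X2 j k) (X3 j k ∪ (X4 j k ∪ (X5 j k ∪ (X6 j k ∪ X7 j k))))
      have q3 := q (X3 j k) (X4 j k ∪ (X5 j k ∪ (X6 j k ∪ X7 j k)))
      have q4 := q (X4 j k) (X5 j k ∪ (X6 j k ∪ X7 j k))
      have q5 := q (X5 j k) (X6 j k ∪ X7 j k)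
      have q6 := q (X6 j k) (X7 j k)
      have q0 : (X j k).ncard = (X1 j k ∪ (X2 j k ∪ (X3 j k ∪ (X4 j k ∪ (X5 j k ∪
        (X6 j k ∪ X7 j k)))))).ncard := rfl
      omega
    have hle' : ((X j k).ncard : ℝ) ≤ (X1 j k).ncard + ((X2 j k).ncard + ((X3 j k).ncard +
        ((X4 j k).ncard + ((X5 j k).ncard + ((X6 j k).ncard + (X7 j k).ncard))))) := by
      exact_mod_cast hle
    linarith
  obtain ⟨J, hJ, hJX⟩ := diag U hU _ hXb
  have hXfin : ∀ j k, (X j k).Finite := by
    intro j k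
    refine (DE_finite (hE k)).subset ?_
    rintro e (h | h | h | h | h | h | h) <;> exact h.1
  have hsum : ∀ J : ℕ, ∑ j ∈ Finset.range J, 7 * c j ≤ ε / 2 := by
    intro J
    have h1 : ∀ J : ℕ, ∑ j ∈ Finset.range J, 7 * c j = ε / 2 - ε / 2 / 2 ^ J := by
      intro J
      induction J with
      | zero => simp
      | succ J ih =>
        rw [Finset.sum_range_succ, ih, hcdef]
        field_simp
        ring
    rw [h1]
    have : 0 < ε / 2 / 2 ^ J := by positivity
    linarith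
  have hun : ∀ k, ((⋃ j ∈ Finset.range (J k), X j k).ncard : ℝ) ≤ ε / 2 * (m k * n k) := by
    intro k
    have h1 : (⋃ j ∈ Finset.range (J k), X j k).ncard ≤
        ∑ j ∈ Finset.range (J k), (X j k).ncard :=
      Finset.set_ncard_biUnion_le _ _
    have h2 : ((⋃ j ∈ Finset.range (J k), X j k).ncard : ℝ) ≤
        ∑ j ∈ Finset.range (J k), ((X j k).ncard : ℝ) := by exact_mod_cast h1
    have h3 : ∑ j ∈ Finset.range (J k), ((X j k).ncard : ℝ) ≤
        ∑ j ∈ Finset.range (J k), 7 * c j * (m k * n k) :=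
      Finset.sum_le_sum fun j hj => hJX k j (Finset.mem_range.1 hj)
    rw [← Finset.sum_mul] at h3
    have h4 : (0 : ℝ) ≤ m k * n k := by positivity
    nlinarith [hsum (J k)]
  have hface : ∀ k v, ∃ p : Pt × Pt, InR (m k) (n k) v → Tr (E k) v p.1 p.2 := by
    intro k v
    by_cases hv : InR (m k) (n k) v
    · obtain ⟨w, x, hT⟩ := exists_face (hE k) (hm1 k) (hn1 k) hv
      exact ⟨(w, x), fun _ => hT⟩
    · exact ⟨0, fun h => absurd h hv⟩
  choose g hg using hface
  have hsel : ∀ k, ∃ v ∈ {v | InR (m k) (n k) v ∧ Tame (E k) D L v ∧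
      (¬ ∃ d u, Good (E k) B W v d u) ∧ ¬ Site (m k) (n k) (E k) k v},
      (v, (g k v).1) ∉ ⋃ j ∈ Finset.range (J k), X j k := by
    intro k
    refine pick ?_ ?_ (fun v => (g k v).1)
    · exact Set.Finite.biUnion (Finset.finite_toSet _) fun j _ => hXfin j k
    · have h1 := hun k
      have h2 : ε * m k * n k < (({v | InR (m k) (n k) v ∧ Tame (E k) D L v ∧
        (¬ ∃ d u, Good (E k) B W v d u) ∧ ¬ Site (m k) (n k) (E k) k v} : Set Pt).ncard : ℝ) := by
        have := hbad k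
        simp only [not_exists]
        simpa only [not_exists] using this
      have h3 : (0 : ℝ) ≤ m k * n k := by positivity
      have h4 : ((⋃ j ∈ Finset.range (J k), X j k).ncard : ℝ) < (({v | InR (m k) (n k) v ∧
        Tame (E k) D L v ∧ (¬ ∃ d u, Good (E k) B W v d u) ∧
        ¬ Site (m k) (n k) (E k) k v} : Set Pt).ncard : ℝ) := by
        nlinarith
      exact_mod_cast h4
  choose o ho hoX using hsel
  set u : ℕ → Pt := fun k => (g k (o k)).1 - o k with hu
  set v : ℕ → Pt := fun k => (g k (o k)).2 - o k with hv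
  have hu' : ∀ k, o k + u k = (g k (o k)).1 := fun k => by simp [hu]
  have hv' : ∀ k, o k + v k = (g k (o k)).2 := fun k => by simp [hv]
  have hT : ∀ k, Tr (E k) (o k) (o k + u k) (o k + v k) := by
    intro k
    rw [hu', hv']
    exact hg k (o k) (ho k).1
  have hd : ∀ k, det (u k) (v k) = 1 := fun k => (hg k (o k) (ho k).1).2.2.2
  have hEr : ∀ k, E k (o k) (o k + u k) := fun k => (hT k).1
  have hns : ∀ k j, j < J k → (o k, o k + u k) ∉ X j k := by
    intro k j hj h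
    apply hoX k
    rw [Set.mem_iUnion₂]
    refine ⟨j, Finset.mem_range.2 hj, ?_⟩
    rw [← hu' k]
    exact h
  have hJe : ∀ R : ℕ, ∀ᶠ k in (U : Filter ℕ), R < J k := fun R =>
    hJ.eventually (eventually_gt_atTop R)
  refine ⟨D, L, B, W,
    { U := U
      Rg := fun k x => InR (m k) (n k) (aff (o k) (u k) (v k) x)
      F := fun k => pull (E k) (o k) (u k) (v k)
      pt := fun k => PT.of_tri (hE k) (hd k)
      A := A
      hA := hA
      root := ?_
      bd := ?_
      run := ?_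
      full := ?_
      star := ?_
      par := ?_
      ang := ?_ }, m, n, E, o, u, v, hU, hE, hd, fun k => rfl, fun k => rfl,
      Filter.Eventually.of_forall fun k => ⟨(ho k).2.1, (ho k).2.2.1, (ho k).2.2.2⟩⟩
  · -- root
    intro k
    rw [pull_tr (hd k)]
    have e1 : aff (o k) (u k) (v k) (0, 0) = o k := by simp [aff]
    have e2 : aff (o k) (u k) (v k) (1, 0) = o k + u k := by simp [aff]
    have e3 : aff (o k) (u k) (v k) (0, 1) = o k + v k := by simp [aff]
    rw [e1, e2, e3]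
    exact hT k
  · -- bd
    intro R
    filter_upwards [hJe R] with k hk e he
    have h1 := unseen (hd k) (hEr k) (R := R) (X := evB (E k)) (Y := X R k)
      (fun x hx => Or.inl hx) (hns k R hk) he
    have h2 := root_edge (hE k) (hd k) (hEr k) he
    by_contra hcon
    apply h1
    refine ⟨h2, ?_⟩
    rintro ⟨c', hc'⟩
    obtain ⟨c, rfl⟩ := aff_surj (hd k) (o := o k) c'
    exact hcon ⟨c, (pull_tr (hd k) _ _ _).2 hc'⟩
  · -- run
    intro R
    refine ⟨NN R, ?_⟩
    filter_upwards [hJe R] with k hk e he hfw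
    have h1 := unseen (hd k) (hEr k) (R := R) (X := evN (E k) (NN R) R) (Y := X R k)
      (fun x hx => Or.inr (Or.inl hx)) (hns k R hk) he
    have h2 := root_edge (hE k) (hd k) (hEr k) he
    by_contra hcon
    exact h1 ⟨h2, (pull_fwd _ _).1 hfw, fun h => hcon ((pull_bwd _ _).2 h)⟩
  · -- full
    intro R
    refine ⟨a R, ?_⟩
    filter_upwards [hJe R] with k hk e he hfu
    have h1 := unseen (hd k) (hEr k) (R := R) (X := evF (E k) (a R) (A k)) (Y := X R k)
      (fun x hx => Or.inr (Or.inr (Or.inr (Or.inr (Or.inl hx))))) (hns k R hk) he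
    have h2 := root_edge (hE k) (hd k) (hEr k) he
    by_contra hcon
    exact h1 ⟨h2, (pfull _ _).1 hfu, fun h => hcon ((pfull _ _).2 h)⟩
  · -- star
    intro R
    refine ⟨KK R, ?_⟩
    filter_upwards [hJe R] with k hk e he hfu ccw f hf0 hf
    have h2 := root_edge (hE k) (hd k) (hEr k) he
    have key : ∀ ccw : Bool, Sees (E k) R (evS (E k) ccw (A k) (KK R)) ⊆ X R k := by
      intro ccw
      cases ccw
      · exact fun x hx => Or.inr (Or.inr (Or.inr (Or.inr (Or.inr (Or.inr hx)))))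
      · exact fun x hx => Or.inr (Or.inr (Or.inr (Or.inr (Or.inr (Or.inl hx)))))
    have h1 := unseen (hd k) (hEr k) (R := R) (X := evS (E k) ccw (A k) (KK R)) (Y := X R k)
      (key ccw) (hns k R hk) he
    by_contra hcon
    push Not at hcon
    refine h1 ⟨h2, (pfull _ _).1 hfu, fun i => aff (o k) (u k) (v k) (f i), by simp [hf0],
      protseq (hd k) hf, fun i hi1 hi2 h => ?_⟩
    exact hcon i hi1 hi2 ((pfull _ _).2 h)
  · -- par
    intro R
    refine ⟨SS R, ?_⟩
    filter_upwards [hJe R] with k hk e he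
    have h1 := unseen (hd k) (hEr k) (R := R) (X := evP (E k) (SS R)) (Y := X R k)
      (fun x hx => Or.inr (Or.inr (Or.inl hx))) (hns k R hk) he
    have h2 := root_edge (hE k) (hd k) (hEr k) he
    rw [pull_par (hd k)]
    by_contra hcon
    push Not at hcon
    exact h1 ⟨h2, hcon⟩
  · -- ang
    intro R W'
    refine ⟨DD (Nat.pair R W'), ?_⟩
    filter_upwards [hJe (Nat.pair R W')] with k hk e he hdeg f hf0 hf j hj1 hj2
    have h1 := unseen (hd k) (hEr k) (R := R) (X := evA (E k) (DD (Nat.pair R W')) W')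
      (Y := X (Nat.pair R W') k) (fun x hx => by
        refine Or.inr (Or.inr (Or.inr (Or.inl ?_)))
        simp only [hX4, Nat.unpair_pair]
        exact hx) (hns k _ hk) he
    have h2 := root_edge (hE k) (hd k) (hEr k) he
    by_contra hcon
    push Not at hcon
    refine h1 ⟨h2, by rw [← pull_deg (hd k)]; exact hdeg,
      fun i => aff (o k) (u k) (v k) (f i), by simp [hf0], protseq (hd k) hf, j, hj1, hj2, ?_⟩
    rw [det_pull (hd k)]
    exact hcon

end Pool.Agent.MP01b126
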