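import Pool.Agent.Lib.MP_01b126_co.Basic

/-!
# MP_01b126_co, piece UC: a closed star covers all directions

If no closed cone `[g i, g (i+1)]` contains `z`, then all `det (g i) z` have the same strict sign
and `dot (g i) z / det (g i) z` is strictly increasing in `i`, which contradicts periodicity.
-/

namespace Pool.Agent.MP01b126

theorem cyc_cover {g : ℕ → Pt} {n : ℕ} (hn : 0 < n) (hdet : ∀ i, det (g i) (g (i + 1)) = 1)
    (hper : ∀ i, g (i + n) = g i) (z : Pt) :
    ∃ i < n, 0 ≤ det (g i) z ∧ 0 ≤ det z (g (i + 1)) := by
  by_contra hcon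
  -- the statement for all indices
  have hmod : ∀ i, g (i % n) = g i := by
    intro i
    have key : ∀ q r : ℕ, g (r + q * n) = g r := by
      intro q
      induction q with
      | zero => intro r; simp
      | succ q ih =>
        intro r
        have : r + (q + 1) * n = (r + q * n) + n := by ring
        rw [this, hper, ih]
    have h1 : i % n + (i / n) * n = i := by
      rw [Nat.mul_comm]; exact Nat.mod_add_div i n
    have h2 := key (i / n) (i % n)
    rw [h1] at h2
    exact h2.symm
  have hstep : ∀ i, 0 ≤ det (g i) z → 0 < det (g (i + 1)) z := by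
    intro i hi
    by_contra hlt
    apply hcon
    refine ⟨i % n, Nat.mod_lt _ hn, ?_, ?_⟩
    · rw [hmod]; exact hi
    · have e : g (i % n + 1) = g (i + 1) := by
        rw [← hmod (i % n + 1), ← hmod (i + 1)]
        congr 1
        rw [Nat.add_mod, Nat.mod_mod, ← Nat.add_mod]
      rw [e]
      have hsw : det z (g (i + 1)) = - det (g (i + 1)) z := by
        simp only [det]; ring
      rw [hsw]
      push Not at hlt
      linarith
  -- all signs are equal
  have hsign : ∀ i, 0 < det (g i) z * det (g (i + 1)) z := by
    by_cases hex : ∃ j, 0 ≤ det (g j) z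
    · obtain ⟨j, hj⟩ := hex
      have hall : ∀ k, 0 < det (g (j + 1 + k)) z := by
        intro k
        induction k with
        | zero => exact hstep j hj
        | succ k ih => exact hstep _ ih.le
      have hpos : ∀ i, 0 < det (g i) z := by
        intro i
        have h1 : g (i + (j + 1) * n) = g i := by
          rw [← hmod (i + (j + 1) * n), ← hmod i, Nat.add_mul_mod_self_right]
        have h2 : j + 1 ≤ (j + 1) * n := Nat.le_mul_of_pos_right _ hn
        obtain ⟨k, hk⟩ := Nat.exists_eq_add_of_le (le_trans h2 (Nat.le_add_left _ i))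
        rw [← h1, hk]
        exact hall k
      intro i
      exact mul_pos (hpos i) (hpos (i + 1))
    · push Not at hex
      intro i
      exact mul_pos_of_neg_of_neg (hex i) (hex (i + 1))
  have hz : 0 < z.1 ^ 2 + z.2 ^ 2 := by
    rcases eq_or_ne z (0, 0) with h0 | h0
    · exfalso
      have := hsign 0
      rw [h0] at this
      simp [det] at this
    · by_contra hle
      push Not at hle
      apply h0
      have h1 : z.1 = 0 := by nlinarith [sq_nonneg z.1, sq_nonneg z.2]
      have h2 : z.2 = 0 := by nlinarith [sq_nonneg z.1, sq_nonneg z.2]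
      exact Prod.ext h1 h2
  -- the ratio is strictly increasing
  let q : ℕ → ℚ := fun i => (((g i).1 * z.1 + (g i).2 * z.2 : ℤ) : ℚ) / ((det (g i) z : ℤ) : ℚ)
  have hq : ∀ i, q i < q (i + 1) := by
    intro i
    have hs := hsign i
    have ha : (det (g i) z : ℚ) ≠ 0 := by
      intro h
      have h' : det (g i) z = 0 := by exact_mod_cast h
      rw [h'] at hs
      simp at hs
    have hb : (det (g (i + 1)) z : ℚ) ≠ 0 := by
      intro h
      have h' : det (g (i + 1)) z = 0 := by exact_mod_cast h
      rw [h'] at hs
      simp at hs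
    have hid : ((g (i + 1)).1 * z.1 + (g (i + 1)).2 * z.2) * det (g i) z
        - ((g i).1 * z.1 + (g i).2 * z.2) * det (g (i + 1)) z
        = (z.1 ^ 2 + z.2 ^ 2) * det (g i) (g (i + 1)) := by
      simp only [det]; ring
    rw [hdet i, mul_one] at hid
    have hdiff : q (i + 1) - q i
        = ((z.1 ^ 2 + z.2 ^ 2 : ℤ) : ℚ) / ((det (g i) z * det (g (i + 1)) z : ℤ) : ℚ) := by
      rw [← hid]
      simp only [q]
      push_cast
      field_simp
    have hpos : 0 < q (i + 1) - q i := by
      rw [hdiff]
      apply div_pos
      · exact_mod_cast hz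
      · exact_mod_cast hs
    linarith
  have hmono : ∀ k, q 0 < q (k + 1) := by
    intro k
    induction k with
    | zero => exact hq 0
    | succ k ih => exact lt_trans ih (hq (k + 1))
  obtain ⟨k, hk⟩ := Nat.exists_eq_succ_of_ne_zero hn.ne'
  have h1 := hmono k
  have h2 : g (k + 1) = g 0 := by
    have := hper 0
    rw [Nat.zero_add, hk] at this
    exact this
  have h3 : q (k + 1) = q 0 := by
    simp only [q, h2]
  rw [h3] at h1
  exact lt_irrefl _ h1

end Pool.Agent.MP01b126
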