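import Pool.Agent.Lib.MP_01b126_co.Ul.Lim
import Pool.Agent.Lib.MP_01b126_co.Ul.Cyc

/-!
# MP_01b126_co, ultralimit: corners
-/

namespace Pool.Agent.MP01b126

open Filter

namespace LSeq

variable (X : LSeq)

theorem Nx.rev {X : LSeq} {s : Bool} {z x y : Pt} (h : X.Nx s z x y) : X.Nx (!s) z y x := by
  cases s
  · simpa [Nx] using h
  · simpa [Nx] using h

theorem Nx.uniq {X : LSeq} {s : Bool} {z x y y' : Pt} (h : X.Nx s z x y) (h' : X.Nx s z x y') :
    y = y' := by
  cases s
  · simp only [Nx, Bool.false_eq_true, if_false] at h h'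
    exact X.Ei_uniq (X.vis_tr h.rot.rot) (X.vis_tr h'.rot.rot)
  · simp only [Nx, if_true] at h h'
    exact X.Ei_uniq (X.vis_tr h) (X.vis_tr h')

theorem Nx.uniq' {X : LSeq} {s : Bool} {z x y y' : Pt} (h : X.Nx s z y x) (h' : X.Nx s z y' x) :
    y = y' := h.rev.uniq h'.rev

/-- a rotation which stops, stops at a wall -/
theorem term_WL {X : LSeq} {s : Bool} {z y x : Pt} (h : X.Nx s z y x)
    (hn : ¬ ∃ x', X.Nx s z x x') : (s = true ∧ X.WL z x) ∨ (s = false ∧ X.WL x z) := by
  cases s
  · right
    simp only [Nx, Bool.false_eq_true, if_false] at h hn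
    refine ⟨rfl, ⟨_, h⟩, ?_⟩
    rintro ⟨d, hd⟩
    exact hn ⟨d, (Vis.opp h hd).rot⟩
  · left
    simp only [Nx, if_true] at h hn
    refine ⟨rfl, ⟨_, h.rot.rot⟩, ?_⟩
    rintro ⟨d, hd⟩
    exact hn ⟨d, Vis.opp h.rot.rot hd⟩

/-- two chains which end at the same point agree backwards -/
theorem chain_agree {s : Bool} {p : Pt} {f g : ℕ → Pt} {n N : ℕ} (h0 : f n = g 0)
    (hf : ∀ i < n, X.Nx s p (f i) (f (i + 1))) (hg : ∀ i < N, X.Nx (!s) p (g i) (g (i + 1)))
    (i : ℕ) (h1 : i ≤ n) (h2 : i ≤ N) : f (n - i) = g i := by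
  induction i with
  | zero => simpa using h0
  | succ i ih =>
    have h3 := ih (by omega) (by omega)
    have h4 := (hf (n - (i + 1)) (by omega)).rev
    have e : n - (i + 1) + 1 = n - i := by omega
    rw [e, h3] at h4
    exact h4.uniq (hg i (by omega))

/-- the wall alternative of `corner` -/
def WallCorner (p a b : Pt) : Prop :=
  ∃ (n : ℕ) (w : ℕ → Pt), X.Wl p (w 0) ∧ X.Wl p (w n) ∧ (∀ i < n, X.Vis p (w i) (w (i + 1))) ∧
    ∃ i < n, w i = a ∧ w (i + 1) = b

theorem wall_corner_ccw {p a b : Pt} {f : ℕ → Pt} {n : ℕ} (hn : 1 ≤ n) (hf0 : f 0 = a)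
    (hf1 : f 1 = b) (hf : ∀ i < n, X.Nx true p (f i) (f (i + 1)))
    (hend : ¬ ∃ x', X.Nx true p (f n) x') : X.WallCorner p a b := by
  have hWL : X.WL p (f n) := by
    have h1 := hf (n - 1) (by omega)
    have e : n - 1 + 1 = n := by omega
    rw [e] at h1
    rcases term_WL h1 hend with h2 | h2
    · exact h2.2
    · exact absurd h2.1 (by simp)
  obtain ⟨-, -, -, hW1, -, ⟨N, g, hN, hg0, hgN, hg⟩, -⟩ := X.WL_step hWL
  have hag := X.chain_agree (s := true) (p := p) (f := f) (g := g) (n := n) (N := N) hg0.symm hf hg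
  rcases le_or_gt n N with h | h
  · refine ⟨N, fun i => g (N - i), ?_, ?_, ?_, N - n, by omega, ?_, ?_⟩
    · simp only [Nat.sub_zero, hgN]; exact Or.inr hW1
    · simp only [Nat.sub_self, hg0]; exact Or.inl hWL
    · intro i hi
      have h1 := hg (N - (i + 1)) (by omega)
      have e : N - (i + 1) + 1 = N - i := by omega
      rw [e] at h1
      simpa [Nx] using h1
    · have e : N - (N - n) = n := by omega
      simp only [e]
      rw [← hag n le_rfl h, Nat.sub_self, hf0]
    · have e : N - (N - n + 1) = n - 1 := by omega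
      simp only [e]
      rw [← hag (n - 1) (by omega) (by omega)]
      have e2 : n - (n - 1) = 1 := by omega
      rw [e2, hf1]
  · exfalso
    have h1 := hag N h.le le_rfl
    have h2 := hf (n - N - 1) (by omega)
    have e : n - N - 1 + 1 = n - N := by omega
    rw [e, h1, hgN] at h2
    simp only [Nx, if_true] at h2
    exact hW1.2 ⟨_, X.vis_tr h2.rot.rot⟩

theorem wall_corner_cw {p a b : Pt} {f : ℕ → Pt} {n : ℕ} (hn : 1 ≤ n) (hf0 : f 0 = b)
    (hf1 : f 1 = a) (hf : ∀ i < n, X.Nx false p (f i) (f (i + 1)))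
    (hend : ¬ ∃ x', X.Nx false p (f n) x') : X.WallCorner p a b := by
  have hWL : X.WL (f n) p := by
    have h1 := hf (n - 1) (by omega)
    have e : n - 1 + 1 = n := by omega
    rw [e] at h1
    rcases term_WL h1 hend with h2 | h2
    · exact absurd h2.1 (by simp)
    · exact h2.2
  obtain ⟨-, -, -, -, hW1, -, ⟨N, g, hN, hg0, hgN, hg⟩⟩ := X.WL_step hWL
  have hag := X.chain_agree (s := false) (p := p) (f := f) (g := g) (n := n) (N := N)
    hg0.symm hf hg
  rcases le_or_gt n N with h | h
  · refine ⟨N, g, ?_, ?_, ?_, n - 1, by omega, ?_, ?_⟩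
    · rw [hg0]; exact Or.inr hWL
    · rw [hgN]; exact Or.inl hW1
    · intro i hi
      have h1 := hg i hi
      simpa [Nx] using h1
    · rw [← hag (n - 1) (by omega) (by omega)]
      have e2 : n - (n - 1) = 1 := by omega
      rw [e2, hf1]
    · have e : n - 1 + 1 = n := by omega
      rw [e, ← hag n le_rfl h, Nat.sub_self, hf0]
  · exfalso
    have h1 := hag N h.le le_rfl
    have h2 := hf (n - N - 1) (by omega)
    have e : n - N - 1 + 1 = n - N := by omega
    rw [e, h1, hgN] at h2
    simp only [Nx, Bool.false_eq_true, if_false] at h2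
    exact hW1.2 ⟨_, X.vis_tr h2⟩

/-- infinite chains -/
theorem inf_chain (s : Bool) {p x0 x1 : Pt} (h0 : X.Nx s p x0 x1)
    (H : ∀ (n : ℕ) (f : ℕ → Pt), 1 ≤ n → f 0 = x0 → f 1 = x1 →
      (∀ i < n, X.Nx s p (f i) (f (i + 1))) → ∃ x', X.Nx s p (f n) x') :
    ∃ F : ℕ → Pt, F 0 = x0 ∧ F 1 = x1 ∧ ∀ i, X.Nx s p (F i) (F (i + 1)) := by
  classical
  have hex : ∀ n : ℕ, ∃ f : ℕ → Pt, f 0 = x0 ∧ f 1 = x1 ∧
      ∀ i < n + 1, X.Nx s p (f i) (f (i + 1)) := by
    intro n
    induction n with
    | zero =>
      refine ⟨fun i => if i = 0 then x0 else x1, by simp, by simp, ?_⟩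
      intro i hi
      have : i = 0 := by omega
      subst this
      simpa using h0
    | succ n ih =>
      obtain ⟨f, hf0, hf1, hf⟩ := ih
      obtain ⟨x', hx'⟩ := H (n + 1) f (by omega) hf0 hf1 hf
      refine ⟨Function.update f (n + 2) x', ?_, ?_, ?_⟩
      · rw [Function.update_of_ne (by omega)]; exact hf0
      · rw [Function.update_of_ne (by omega)]; exact hf1
      · intro i hi
        rcases Nat.lt_succ_iff_lt_or_eq.mp hi with h5 | h5
        · rw [Function.update_of_ne (by omega), Function.update_of_ne (by omega)]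
          exact hf i h5
        · rw [h5, Function.update_of_ne (by omega), Function.update_self]; exact hx'
  choose c hc0 hc1 hc using hex
  have hag : ∀ i n m : ℕ, i ≤ n → i ≤ m → c n i = c m i := by
    intro i
    induction i with
    | zero => intro n m _ _; rw [hc0, hc0]
    | succ i ih =>
      intro n m hn hm
      have h1 := hc n i (by omega)
      have h2 := hc m i (by omega)
      rw [ih n m (by omega) (by omega)] at h1
      exact h1.uniq h2
  refine ⟨fun i => c i i, hc0 0, hc1 1, fun i => ?_⟩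
  have h1 := hc (i + 1) i (by omega)
  rw [hag i (i + 1) i (by omega) le_rfl] at h1
  exact h1

/-- the trichotomy at a corner -/
theorem corner {p a b : Pt} (hv : X.Vis p a b) :
    (∃ S : Finset (Pt × Pt), (∀ s ∈ S, X.Vis p s.1 s.2) ∧
      ∀ z : Pt, z ≠ 0 → ∃ s ∈ S, 0 ≤ det (s.1 - p) z ∧ 0 ≤ det z (s.2 - p)) ∨
    X.WallCorner p a b ∨
    (∃ w : ℤ → Pt, w 0 = a ∧ w 1 = b ∧ (∀ i, X.Vis p (w i) (w (i + 1))) ∧
      ∀ i j, i < j → 0 < det (w i - p) (w j - p)) := by
  classical
  by_cases h1 : ∃ (n : ℕ) (f : ℕ → Pt), 1 ≤ n ∧ f 0 = a ∧ f 1 = b ∧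
      (∀ i < n, X.Nx true p (f i) (f (i + 1))) ∧ ¬ ∃ x', X.Nx true p (f n) x'
  · obtain ⟨n, f, g1, g2, g3, g4, g5⟩ := h1
    exact Or.inr (Or.inl (X.wall_corner_ccw g1 g2 g3 g4 g5))
  by_cases h2 : ∃ (n : ℕ) (f : ℕ → Pt), 1 ≤ n ∧ f 0 = b ∧ f 1 = a ∧
      (∀ i < n, X.Nx false p (f i) (f (i + 1))) ∧ ¬ ∃ x', X.Nx false p (f n) x'
  · obtain ⟨n, f, g1, g2, g3, g4, g5⟩ := h2
    exact Or.inr (Or.inl (X.wall_corner_cw g1 g2 g3 g4 g5))
  obtain ⟨F, hF0, hF1, hF⟩ := X.inf_chain true (p := p) (x0 := a) (x1 := b)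
    (by simpa [Nx] using hv) (by
      intro n f g1 g2 g3 g4
      by_contra g5
      exact h1 ⟨n, f, g1, g2, g3, g4, g5⟩)
  obtain ⟨G, hG0, hG1, hG⟩ := X.inf_chain false (p := p) (x0 := b) (x1 := a)
    (by simpa [Nx] using hv) (by
      intro n f g1 g2 g3 g4
      by_contra g5
      exact h2 ⟨n, f, g1, g2, g3, g4, g5⟩)
  by_cases hper : ∃ i j : ℕ, i < j ∧ F i = F j
  · -- closed star
    left
    obtain ⟨i, j, hij, hFij⟩ := hper
    set n := j - i with hn
    have hn0 : F n = F 0 := by
      have : ∀ m ≤ i, F (j - m) = F (i - m) := by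
        intro m
        induction m with
        | zero => intro _; simpa using hFij.symm
        | succ m ih =>
          intro hm
          have h3 := ih (by omega)
          have h4 := hF (j - (m + 1))
          have h5 := hF (i - (m + 1))
          have e1 : j - (m + 1) + 1 = j - m := by omega
          have e2 : i - (m + 1) + 1 = i - m := by omega
          rw [e1, h3] at h4
          rw [e2] at h5
          exact h4.uniq' h5
      have h3 := this i le_rfl
      rwa [Nat.sub_self] at h3
    have hnper : ∀ l, F (l + n) = F l := by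
      intro l
      induction l with
      | zero => simpa using hn0
      | succ l ih =>
        have h4 := hF (l + n)
        rw [ih] at h4
        have e : l + 1 + n = l + n + 1 := by omega
        rw [e]
        exact h4.uniq (hF l)
    refine ⟨(Finset.range n).image (fun l => (F l, F (l + 1))), ?_, ?_⟩
    · intro s hs
      simp only [Finset.mem_image, Finset.mem_range] at hs
      obtain ⟨l, -, rfl⟩ := hs
      have := hF l
      simpa [Nx] using this
    · intro z _
      obtain ⟨l, hl, h5, h6⟩ := cyc_cover (g := fun l => F l - p) (n := n) (by omega)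
        (fun l => by
          have := (hF l).det
          simpa [sgn] using this)
        (fun l => by simp only [hnper l]) z
      exact ⟨(F l, F (l + 1)), Finset.mem_image.mpr ⟨l, Finset.mem_range.mpr hl, rfl⟩, h5, h6⟩
  · -- hub
    right; right
    push Not at hper
    have hFinj : Function.Injective F := by
      intro i j hij
      rcases lt_trichotomy i j with h3 | h3 | h3
      · exact absurd hij (hper i j h3)
      · exact h3
      · exact absurd hij.symm (hper j i h3)
    set w : ℤ → Pt := fun i => if 0 ≤ i then F i.toNat else G (1 - i).toNat with hw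
    have hwV : ∀ i, X.Vis p (w i) (w (i + 1)) := by
      intro i
      rcases le_or_gt 0 i with h3 | h3
      · have e1 : w i = F i.toNat := by rw [hw]; simp only [h3, if_true]
        have e2 : w (i + 1) = F (i.toNat + 1) := by
          rw [hw]; simp only [show 0 ≤ i + 1 by omega, if_true]
          congr 1; omega
        rw [e1, e2]
        have := hF i.toNat
        simpa [Nx] using this
      · have e1 : w i = G ((-i).toNat + 1) := by
          rw [hw]; simp only [show ¬ 0 ≤ i by omega, if_false]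
          congr 1; omega
        have e2 : w (i + 1) = G (-i).toNat := by
          rcases lt_or_eq_of_le (show i + 1 ≤ 0 by omega) with h4 | h4
          · rw [hw]; simp only [show ¬ 0 ≤ i + 1 by omega, if_false]
            congr 1; omega
          · have : i = -1 := by omega
            subst this
            rw [hw]
            have e3 : ((1 : ℤ)).toNat = 1 := rfl
            simp only [neg_add_cancel, le_refl, if_true, neg_neg, Int.toNat_zero, hF0]
            rw [e3, hG1]
        rw [e1, e2]
        have := hG (-i).toNat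
        simpa [Nx] using this
    have hw0 : w 0 = a := by rw [hw]; simpa using hF0
    have hw1 : w 1 = b := by
      rw [hw]; simp only [show (0 : ℤ) ≤ 1 by norm_num, if_true]
      exact hF1
    refine ⟨w, hw0, hw1, hwV, ?_⟩
    intro i j hij
    -- the degree of `p` tends to infinity
    have hdeg : ∀ D : ℕ, ∀ᶠ k in (X.U : Filter ℕ), D ≤ deg (X.F k) p := by
      intro D
      have h3 : ∀ᶠ k in (X.U : Filter ℕ), ∀ l ∈ Finset.range D, X.F k p (F l) :=
        (Filter.eventually_all_finset _).mpr (fun l _ => (hF l).edge.1)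
      filter_upwards [h3] with k hk
      have h4 : ((Finset.range D).image F : Set Pt) ⊆ {x | X.F k p x} := by
        intro x hx
        simp only [Finset.coe_image, Set.mem_image, Finset.mem_coe] at hx
        obtain ⟨l, hl, rfl⟩ := hx
        exact hk l hl
      have h5 := Set.ncard_le_ncard h4 ((X.pt k).fin p)
      rw [Set.ncard_coe_finset, Finset.card_image_of_injective _ hFinj, Finset.card_range] at h5
      exact h5
    obtain ⟨R, hR⟩ := X.vis_reach (hwV i).rot.rot
    obtain ⟨R', hR'⟩ := X.vis_reach (hwV i)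
    obtain ⟨D, hD⟩ := X.ang R' (j - i).toNat
    have hrs : ∀ᶠ k in (X.U : Filter ℕ), ∀ l ∈ Finset.range (j - i).toNat,
        Tr (X.F k) p (w (i + l)) (w (i + (l + 1 : ℕ))) := by
      refine (Filter.eventually_all_finset _).mpr (fun l _ => ?_)
      have := X.tr_iff.mp (X.vis_tr (hwV (i + l)))
      have e : i + ((l + 1 : ℕ) : ℤ) = i + l + 1 := by push_cast; ring
      rw [e]; exact this
    obtain ⟨k, ⟨⟨g1, g2⟩, g3⟩, g4⟩ := (((hR'.and hD).and (hdeg D)).and hrs).exists
    have h6 := g2 _ g1 g3 (fun l => w (i + (l : ℤ))) (by simp)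
      (by
        intro l hl
        simp only [Rt, if_true]
        exact g4 l (Finset.mem_range.mpr hl)) (j - i).toNat (by omega) le_rfl
    simp only at h6
    have e : i + ((j - i).toNat : ℤ) = j := by
      rw [Int.toNat_of_nonneg (by omega)]; ring
    rw [e] at h6
    exact h6

end LSeq

end Pool.Agent.MP01b126
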