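import Pool.Agent.Lib.MP_01b126_co.Ul.UDefs

/-!
# MP_01b126_co, ultralimit: the limit relation, walls
-/

namespace Pool.Agent.MP01b126

open Filter

theorem reach_mono {E : Pt → Pt → Prop} {R R' : ℕ} (h : R ≤ R') {e e' : Pt × Pt}
    (hr : Reach E R e e') : Reach E R' e e' := by
  induction R', h using Nat.le_induction with
  | base => exact hr
  | succ n _ ih => exact Or.inl ih

theorem reach_step {E : Pt → Pt → Prop} {R : ℕ} {e e' e'' : Pt × Pt}
    (hr : Reach E R e e') (hm : Move E e' e'') : Reach E (R + 1) e e'' := Or.inr ⟨e', hr, hm⟩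

namespace LSeq

variable (X : LSeq)

theorem Ei_symm {a b : Pt} (h : X.Ei a b) : X.Ei b a := h.mono fun k hk => (X.pt k).symm hk

theorem tr_iff {a b c : Pt} : Tr X.Ei a b c ↔ ∀ᶠ k in (X.U : Filter ℕ), Tr (X.F k) a b c := by
  constructor
  · rintro ⟨h1, h2, h3, h4⟩
    filter_upwards [h1, h2, h3] with k h1 h2 h3 using ⟨h1, h2, h3, h4⟩
  · intro h
    obtain ⟨k, hk⟩ := h.exists
    exact ⟨h.mono fun k h => h.1, h.mono fun k h => h.2.1, h.mono fun k h => h.2.2.1, hk.2.2.2⟩

theorem vis_tr {a b c : Pt} (h : X.Vis a b c) : Tr X.Ei a b c := by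
  induction h with
  | root => exact X.tr_iff.mpr (Eventually.of_forall X.root)
  | rot _ ih =>
    obtain ⟨h1, h2, h3, h4⟩ := ih
    refine ⟨h2, h3, h1, ?_⟩
    simp only [det, Prod.fst_sub, Prod.snd_sub] at *
    linarith
  | opp _ h _ => exact h

theorem vis_reach {a b c : Pt} (h : X.Vis a b c) :
    ∃ R, ∀ᶠ k in (X.U : Filter ℕ), Reach (X.F k) R rt (a, b) := by
  induction h with
  | root => exact ⟨0, Eventually.of_forall fun k => rfl⟩
  | @rot a b c hv ih =>
    obtain ⟨R, hR⟩ := ih
    refine ⟨R + 1, ?_⟩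
    filter_upwards [hR, X.tr_iff.mp (X.vis_tr hv)] with k h1 h2
    exact reach_step h1 (Move.next h2)
  | @opp a b c d hv _ ih =>
    obtain ⟨R, hR⟩ := ih
    refine ⟨R + 1, ?_⟩
    filter_upwards [hR, (X.vis_tr hv).1] with k h1 h2
    exact reach_step h1 (Move.opp h2)

theorem vis_reach' {a b c : Pt} (h : X.Vis a b c) :
    ∃ R, ∀ᶠ k in (X.U : Filter ℕ), Reach (X.F k) R rt (b, a) := by
  obtain ⟨R, hR⟩ := X.vis_reach h
  refine ⟨R + 1, ?_⟩
  filter_upwards [hR, (X.vis_tr h).1] with k h1 h2
  exact reach_step h1 (Move.opp h2)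

theorem Ei_prim {a b : Pt} (h : X.Ei a b) : Prim (b - a) := by
  obtain ⟨k, hk⟩ := Eventually.exists h
  exact (X.pt k).prim hk

theorem Ei_ncr {a b c d : Pt} (h : X.Ei a b) (h' : X.Ei c d) : ¬ Cross a b c d := by
  obtain ⟨k, hk⟩ := (Eventually.and h h').exists
  exact (X.pt k).ncr hk.1 hk.2

theorem Ei_uniq {a b c d : Pt} (h : Tr X.Ei a b c) (h' : Tr X.Ei a b d) : c = d := by
  obtain ⟨k, hk⟩ := ((X.tr_iff.mp h).and (X.tr_iff.mp h')).exists
  exact (X.pt k).uniq hk.1 hk.2

/-- a sequence of integers is constant or tends to one of the infinities along the ultrafilter -/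
theorem dich (U : Ultrafilter ℕ) (t : ℕ → ℤ) : (∃ i, ∀ᶠ k in (U : Filter ℕ), t k = i) ∨
    (∀ M, ∀ᶠ k in (U : Filter ℕ), M < t k) ∨ (∀ M, ∀ᶠ k in (U : Filter ℕ), t k < M) := by
  by_cases hc : ∃ i, ∀ᶠ k in (U : Filter ℕ), t k = i
  · exact Or.inl hc
  · right
    push Not at hc
    have hne : ∀ i, ∀ᶠ k in (U : Filter ℕ), t k ≠ i := hc
    have hfin : ∀ s : Finset ℤ, ∀ᶠ k in (U : Filter ℕ), t k ∉ s := by
      intro s
      have : ∀ᶠ k in (U : Filter ℕ), ∀ i ∈ s, t k ≠ i :=
        (Filter.eventually_all_finset s).mpr (fun i _ => hne i)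
      exact this.mono fun k hk hmem => hk _ hmem rfl
    rcases Ultrafilter.em U (fun k => 0 ≤ t k) with h | h
    · left
      intro M
      filter_upwards [h, hfin (Finset.Icc 0 M)] with k h1 h2
      simp only [Finset.mem_Icc, not_and, not_le] at h2
      exact h2 h1
    · right
      intro M
      filter_upwards [h, hfin (Finset.Icc M 0)] with k h1 h2
      simp only [Finset.mem_Icc, not_and, not_le] at h1 h2
      by_contra hcc
      push Not at hcc
      have := h2 hcc
      omega

/-- the left apex of an edge is constant or runs to infinity -/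
theorem apex_dich {a b e : Pt} (hd : det (b - a) e = 1)
    (hex : ∀ᶠ k in (X.U : Filter ℕ), ∃ c, Tr (X.F k) a b c) (hn : ¬ ∃ d, Tr X.Ei a b d) :
    ∃ t : ℕ → ℤ, (∀ᶠ k in (X.U : Filter ℕ), Tr (X.F k) a b (a + e + t k • (b - a))) ∧
      ((∀ M, ∀ᶠ k in (X.U : Filter ℕ), M < t k) ∨
        (∀ M, ∀ᶠ k in (X.U : Filter ℕ), t k < M)) := by
  classical
  set t : ℕ → ℤ := fun k => if h : ∃ c, Tr (X.F k) a b c then det (h.choose - a) e else 0 with ht
  have h1 : ∀ᶠ k in (X.U : Filter ℕ), Tr (X.F k) a b (a + e + t k • (b - a)) := by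
    filter_upwards [hex] with k hk
    have h2 := hk.choose_spec
    have h3 : t k = det (hk.choose - a) e := by rw [ht]; simp only [hk, dif_pos]
    have h4 := expand hd (hk.choose - a)
    rw [h2.2.2.2, one_smul, ← h3] at h4
    have h5 : hk.choose = a + e + t k • (b - a) := by
      have : hk.choose = a + (hk.choose - a) := by abel
      rw [this, h4]; abel
    rw [← h5]; exact h2
  refine ⟨t, h1, ?_⟩
  rcases dich X.U t with ⟨i, hi⟩ | h2
  · exfalso
    refine hn ⟨a + e + i • (b - a), X.tr_iff.mpr ?_⟩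
    filter_upwards [h1, hi] with k h2 h3
    rw [← h3]; exact h2
  · exact h2

end LSeq

/-- large shear gives a long straight run -/
theorem PT.fwd_of_shear {Rg : Pt → Prop} {F : Pt → Pt → Prop} (h : PT Rg F) (A : ℕ) :
    ∀ {a b c c' : Pt} {k : ℤ}, Tr F a b c → Tr F b a c' → (c - b) + (c' - b) = k • (b - a) →
      2 * (A : ℤ) ≤ k → Fwd F (A + 1) (a, b) := by
  induction A with
  | zero =>
    intro a b c c' k h1 h2 h3 h4 j hj
    have : j = 0 := by omega
    subst this
    simp only [Nat.cast_zero, zero_smul, add_zero, zero_add, one_smul]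
    have : a + (b - a) = b := by abel
    rw [this]; exact h1.1
  | succ A ih =>
    intro a b c c' k h1 h2 h3 h4 j hj
    push_cast at h4
    obtain ⟨d, d', l, g1, g2, g3, g4, -, -⟩ := h.run h1 h2 h3 (by linarith)
    rcases Nat.eq_zero_or_pos j with hj0 | hj0
    · subst hj0
      simp only [Nat.cast_zero, zero_smul, add_zero, zero_add, one_smul]
      have : a + (b - a) = b := by abel
      rw [this]; exact h1.1
    · have e1 : b + (b - a) - b = b - a := by abel
      have := ih g1 g2 (by rw [e1]; exact g3) (by linarith) (j - 1) (by omega)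
      simp only at this
      rw [e1] at this
      have e2 : ((j - 1 : ℕ) : ℤ) = (j : ℤ) - 1 := by omega
      rw [e2] at this
      have e3 : b + ((j : ℤ) - 1) • (b - a) = a + (j : ℤ) • (b - a) := by
        rw [sub_smul, one_smul]; abel
      have e4 : b + ((j : ℤ) - 1 + 1) • (b - a) = a + ((j : ℤ) + 1) • (b - a) := by
        rw [sub_add_cancel, add_smul, one_smul]; abel
      rw [e3, e4] at this
      exact this

namespace LSeq

variable (X : LSeq)

/-- the full line through `a` and `b` consists of edges -/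
def Line (a b : Pt) : Prop := ∀ j : ℤ, X.Ei (a + j • (b - a)) (a + (j + 1) • (b - a))

theorem Line.shift {X : LSeq} {a b : Pt} (h : X.Line a b) (i : ℤ) :
    X.Line (a + i • (b - a)) (a + (i + 1) • (b - a)) := by
  intro j
  have e : a + (i + 1) • (b - a) - (a + i • (b - a)) = b - a := by
    rw [add_smul, one_smul]; abel
  rw [e]
  have := h (i + j)
  have e1 : a + i • (b - a) + j • (b - a) = a + (i + j) • (b - a) := by rw [add_smul]; abel
  have e2 : a + i • (b - a) + (j + 1) • (b - a) = a + (i + j + 1) • (b - a) := by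
    rw [add_smul, add_smul, add_smul]; abel
  rw [e1, e2]; exact this

theorem Line.symm {X : LSeq} {a b : Pt} (h : X.Line a b) : X.Line b a := by
  intro j
  have := X.Ei_symm (h (-j))
  have e1 : b + j • (a - b) = a + (-j + 1) • (b - a) := by
    rw [add_smul, one_smul, neg_smul, ← smul_neg, neg_sub]; abel
  have e2 : b + (j + 1) • (a - b) = a + (-j) • (b - a) := by
    rw [add_smul, one_smul, neg_smul, ← smul_neg, neg_sub]; abel
  rw [e1, e2]; exact this

theorem Line.edge {X : LSeq} {a b : Pt} (h : X.Line a b) : X.Ei a b := by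
  have := h 0
  simp only [zero_smul, add_zero, zero_add, one_smul] at this
  have e : a + (b - a) = b := by abel
  rwa [e] at this

theorem Line.back {X : LSeq} {a b : Pt} (h : X.Line a b) : X.Ei a (a - (b - a)) := by
  have := X.Ei_symm (h (-1))
  simp only [neg_smul, one_smul, neg_add_cancel, zero_smul, add_zero] at this
  rwa [← sub_eq_add_neg] at this

theorem Line.full {X : LSeq} {a b : Pt} (h : X.Line a b) (A : ℕ) :
    ∀ᶠ k in (X.U : Filter ℕ), Full (X.F k) A (a, b) := by
  have h1 : ∀ᶠ k in (X.U : Filter ℕ), ∀ j ∈ Finset.range A,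
      X.F k (a + (j : ℤ) • (b - a)) (a + ((j : ℤ) + 1) • (b - a)) :=
    (Filter.eventually_all_finset _).mpr (fun j _ => h j)
  have h2 : ∀ᶠ k in (X.U : Filter ℕ), ∀ j ∈ Finset.range A,
      X.F k (a + (-(j : ℤ) - 1) • (b - a)) (a + (-(j : ℤ) - 1 + 1) • (b - a)) :=
    (Filter.eventually_all_finset _).mpr (fun j _ => h (-(j : ℤ) - 1))
  filter_upwards [h1, h2] with k g1 g2
  refine ⟨fun j hj => g1 j (Finset.mem_range.mpr hj), fun j hj => ?_⟩
  have := g2 j (Finset.mem_range.mpr hj)
  simp only
  have e1 : a - ((j : ℤ) + 1) • (b - a) = a + (-(j : ℤ) - 1) • (b - a) := by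
    rw [sub_smul, neg_smul, add_smul, one_smul]; abel
  have e2 : a - (j : ℤ) • (b - a) = a + (-(j : ℤ) - 1 + 1) • (b - a) := by
    rw [sub_add_cancel, neg_smul]; abel
  rw [e1, e2]; exact this

theorem line_of_fwd {a b : Pt} (hR : ∃ R, ∀ᶠ k in (X.U : Filter ℕ), Reach (X.F k) R rt (a, b))
    (hF : ∀ L, ∀ᶠ k in (X.U : Filter ℕ), Fwd (X.F k) L (a, b)) : X.Line a b := by
  obtain ⟨R, hR⟩ := hR
  have hB : ∀ B, ∀ᶠ k in (X.U : Filter ℕ), Bwd (X.F k) B (a, b) := by
    intro B
    obtain ⟨L, hL⟩ := X.run (max R B)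
    filter_upwards [hL, hF L, hR] with k h1 h2 h3
    have := h1 _ (reach_mono (le_max_left _ _) h3) h2
    intro j hj
    exact this j (lt_of_lt_of_le hj (le_max_right _ _))
  intro j
  rcases le_or_gt 0 j with hj | hj
  · obtain ⟨i, rfl⟩ := Int.eq_ofNat_of_zero_le hj
    filter_upwards [hF (i + 1)] with k h1
    exact h1 i (Nat.lt_succ_self i)
  · obtain ⟨i, hi⟩ := Int.eq_ofNat_of_zero_le (show 0 ≤ -j - 1 by omega)
    filter_upwards [hB (i + 1)] with k h1
    have := h1 i (Nat.lt_succ_self i)
    simp only at this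
    have e1 : a - ((i : ℤ) + 1) • (b - a) = a + j • (b - a) := by
      rw [← hi]
      have : (-j - 1 + 1 : ℤ) = -j := by ring
      rw [this, neg_smul]; abel
    have e2 : a - (i : ℤ) • (b - a) = a + (j + 1) • (b - a) := by
      rw [← hi]
      have : (-j - 1 : ℤ) = -(j + 1) := by ring
      rw [this, neg_smul]; abel
    rw [e1, e2] at this
    exact this

/-- an edge with a visible face on its left and no face on its right lies on a full line -/
theorem full_line {p q c : Pt} (hv : X.Vis p q c) (hn : ¬ ∃ d, Tr X.Ei q p d) :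
    X.Line p q := by
  have hT := X.vis_tr hv
  obtain ⟨R, hR⟩ := X.vis_reach hv
  obtain ⟨R', hR'⟩ := X.vis_reach' hv
  have hex : ∀ᶠ k in (X.U : Filter ℕ), ∃ d, Tr (X.F k) q p d := by
    filter_upwards [hR', X.bd R'] with k h1 h2
    exact h2 _ h1
  have hprim : Prim (p - q) := X.Ei_prim (X.Ei_symm hT.1)
  obtain ⟨e, he⟩ := hprim.exists_det
  obtain ⟨t, ht, hlim⟩ := X.apex_dich he hex hn
  -- the fixed apex
  set s : ℤ := det (c - p + e) e with hs
  have hcp : c - p = - e + s • (p - q) := by
    have h1 := expand he (c - p + e)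
    have h2 : det (p - q) (c - p + e) = 0 := by
      have h3 := hT.2.2.2
      rw [det_add_right, he]
      have : det (p - q) (c - p) = - det (q - p) (c - p) := by
        rw [← det_neg_left]; congr 1; abel
      rw [this, h3]; ring
    rw [h2, zero_smul, add_zero] at h1
    have : c - p = (c - p + e) - e := by abel
    rw [this, h1]; abel
  rcases hlim with h | h
  · -- run along `q p`
    have hF : ∀ L, ∀ᶠ k in (X.U : Filter ℕ), Fwd (X.F k) L (q, p) := by
      intro L
      filter_upwards [ht, X.tr_iff.mp hT, h (2 * (L : ℤ) + 1 - s)] with k h1 h2 h3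
      have h4 := (X.pt k).fwd_of_shear L h1 h2 (k := t k - 1 + s) (by
        rw [hcp]
        have : q + e + t k • (p - q) - p = e + (t k - 1) • (p - q) := by
          rw [sub_smul, one_smul]; abel
        rw [this, add_smul]; abel) (by linarith)
      intro j hj
      exact h4 j (by omega)
    exact (X.line_of_fwd ⟨R', hR'⟩ hF).symm
  · have hF : ∀ L, ∀ᶠ k in (X.U : Filter ℕ), Fwd (X.F k) L (p, q) := by
      intro L
      filter_upwards [ht, X.tr_iff.mp hT, h (-(2 * (L : ℤ)) - 1 - s)] with k h1 h2 h3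
      have h4 := (X.pt k).fwd_of_shear L h2 h1 (k := -(t k + s + 1)) (by
        have e1 : c - q = - e + (s + 1) • (p - q) := by
          have : c - q = (c - p) + (p - q) := by abel
          rw [this, hcp, add_smul, one_smul]; abel
        have e2 : q + e + t k • (p - q) - q = e + t k • (p - q) := by abel
        rw [e1, e2, neg_smul, ← smul_neg, neg_sub]
        have : (t k + s + 1) = (s + 1) + t k := by ring
        rw [this, add_smul (s + 1) (t k)]; abel) (by linarith)
      intro j hj
      exact h4 j (by omega)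
    exact X.line_of_fwd ⟨R, hR⟩ hF

/-- neighbours at height one are close together -/
theorem par_close {z w e : Pt} (hde : det w e = 1)
    (hR : ∃ R, ∀ᶠ k in (X.U : Filter ℕ), Reach (X.F k) R rt (z, z + w) ∨
      Reach (X.F k) R rt (z, z - w)) :
    ∃ S : ℕ, ∀ᶠ k in (X.U : Filter ℕ), ∀ i j : ℤ, X.F k z (z + e + i • w) →
      X.F k z (z + e + j • w) → j - i < S := by
  obtain ⟨R, hR⟩ := hR
  obtain ⟨S, hS⟩ := X.par R
  refine ⟨S, ?_⟩
  filter_upwards [hR, hS] with k h1 h2 i j hi hj
  have hw0 : w ≠ 0 := by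
    rintro rfl
    simp at hde
  -- both alternatives give the same count
  have key : {x | X.F k z x ∧ |det w (x - z)| = 1}.ncard < S := by
    rcases h1 with h1 | h1
    · have := h2 _ h1
      simp only at this
      have e1 : z + w - z = w := by abel
      rw [e1] at this
      exact this
    · have := h2 _ h1
      simp only at this
      have e1 : z - w - z = - w := by abel
      rw [e1] at this
      have e2 : {x | X.F k z x ∧ |det (-w) (x - z)| = 1} =
          {x | X.F k z x ∧ |det w (x - z)| = 1} := by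
        ext x
        simp only [det_neg_left, abs_neg]
      rw [e2] at this
      exact this
  by_contra hcc
  push Not at hcc
  have hij : i ≤ j := by
    have : (0 : ℤ) ≤ S := Int.natCast_nonneg S
    linarith
  have hsub : (fun l : ℤ => z + e + l • w) '' (Set.Icc i j) ⊆
      {x | X.F k z x ∧ |det w (x - z)| = 1} := by
    rintro x ⟨l, ⟨hl1, hl2⟩, rfl⟩
    refine ⟨(X.pt k).sail hde hi hj hl1 hl2, ?_⟩
    have e1 : z + e + l • w - z = e + l • w := by abel
    simp only [e1]
    rw [det_add_right, det_smul_right, det_self, hde]; simp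
  have hinj : Function.Injective (fun l : ℤ => z + e + l • w) := by
    intro l l' hll
    simp only [add_right_inj] at hll
    by_contra hne
    have : (l - l') • w = 0 := by rw [sub_smul, hll, sub_self]
    rcases smul_eq_zero.mp this with h3 | h3
    · exact hne (sub_eq_zero.mp h3)
    · exact hw0 h3
  have hfin : {x | X.F k z x ∧ |det w (x - z)| = 1}.Finite :=
    ((X.pt k).fin z).subset (fun x hx => hx.1)
  have h3 := Set.ncard_le_ncard hsub hfin
  rw [Set.ncard_image_of_injective _ hinj] at h3
  have h4 : (Set.Icc i j).ncard = (j + 1 - i).toNat := by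
    rw [← Finset.coe_Icc, Set.ncard_coe_finset, Int.card_Icc]
  rw [h4] at h3
  have h5 : ((j + 1 - i).toNat : ℤ) = j + 1 - i := Int.toNat_of_nonneg (by linarith)
  have h6 : ((j + 1 - i).toNat : ℤ) < S := by exact_mod_cast lt_of_le_of_lt h3 key
  linarith

/-- two sequences of neighbours at height one run to the same infinity -/
theorem same_inf {z w e : Pt} (hde : det w e = 1)
    (hR : ∃ R, ∀ᶠ k in (X.U : Filter ℕ), Reach (X.F k) R rt (z, z + w) ∨
      Reach (X.F k) R rt (z, z - w)) {t t' : ℕ → ℤ}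
    (ht : ∀ᶠ k in (X.U : Filter ℕ), X.F k z (z + e + t k • w))
    (ht' : ∀ᶠ k in (X.U : Filter ℕ), X.F k z (z + e + t' k • w)) :
    ((∀ M, ∀ᶠ k in (X.U : Filter ℕ), M < t k) → ∀ M, ∀ᶠ k in (X.U : Filter ℕ), M < t' k) ∧
    ((∀ M, ∀ᶠ k in (X.U : Filter ℕ), t k < M) → ∀ M, ∀ᶠ k in (X.U : Filter ℕ), t' k < M) := by
  obtain ⟨S, hS⟩ := X.par_close hde hR
  constructor
  · intro h M
    filter_upwards [h (M + S), ht, ht', hS] with k h1 h2 h3 h4
    have := h4 _ _ h3 h2
    linarith
  · intro h M
    filter_upwards [h (M - S), ht, ht', hS] with k h1 h2 h3 h4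
    have := h4 _ _ h2 h3
    linarith

/-- behind a wall there is nothing: version at one vertex `z` of the line -/
theorem behind {z w : Pt} (h1 : X.Ei z (z + w)) (h2 : X.Ei z (z - w))
    (hR : ∃ R, ∀ᶠ k in (X.U : Filter ℕ), Reach (X.F k) R rt (z, z + w) ∨
      Reach (X.F k) R rt (z, z - w))
    (hw : ((∀ᶠ k in (X.U : Filter ℕ), ∃ c, Tr (X.F k) z (z + w) c) ∧
        ¬ ∃ d, Tr X.Ei z (z + w) d) ∨
      ((∀ᶠ k in (X.U : Filter ℕ), ∃ c, Tr (X.F k) (z - w) z c) ∧
        ¬ ∃ d, Tr X.Ei (z - w) z d)) :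
    (∀ Z : Pt, 0 < det w Z → ∀ᶠ k in (X.U : Filter ℕ), ¬ X.F k z (z + Z)) ∧
      (¬ ∃ d, Tr X.Ei z (z + w) d) ∧ (¬ ∃ d, Tr X.Ei (z - w) z d) := by
  have e1 : z + w - z = w := by abel
  have e1' : z - (z - w) = w := by abel
  have hprim : Prim w := by have := X.Ei_prim h1; rwa [e1] at this
  obtain ⟨e, he⟩ := hprim.exists_det
  -- a neighbour at height one running to infinity
  obtain ⟨t, ht, hlim⟩ : ∃ t : ℕ → ℤ, (∀ᶠ k in (X.U : Filter ℕ), X.F k z (z + e + t k • w)) ∧
      ((∀ M, ∀ᶠ k in (X.U : Filter ℕ), M < t k) ∨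
        (∀ M, ∀ᶠ k in (X.U : Filter ℕ), t k < M)) := by
    rcases hw with ⟨hex, hn⟩ | ⟨hex, hn⟩
    · obtain ⟨t, ht, hlim⟩ := X.apex_dich (by rw [e1]; exact he) hex hn
      refine ⟨t, ?_, hlim⟩
      filter_upwards [ht] with k hk
      have := (X.pt k).symm hk.2.2.1
      rwa [e1] at this
    · obtain ⟨t, ht, hlim⟩ := X.apex_dich (by rw [e1']; exact he) hex hn
      refine ⟨fun k => t k - 1, ?_, ?_⟩
      · filter_upwards [ht] with k hk
        have := hk.2.1
        rw [e1'] at this
        have e2 : z - w + e + t k • w = z + e + (t k - 1) • w := by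
          rw [sub_smul, one_smul]; abel
        rwa [e2] at this
      · rcases hlim with h | h
        · left; intro M
          filter_upwards [h (M + 1)] with k hk
          linarith
        · right; intro M
          filter_upwards [h (M + 1)] with k hk
          linarith
  -- both line edges have an apex on this side
  have hex1 : ∀ᶠ k in (X.U : Filter ℕ), ∃ c, Tr (X.F k) z (z + w) c := by
    filter_upwards [h1, ht] with k g1 g2
    refine (X.pt k).apex g1 ((X.pt k).inR ((X.pt k).symm g2)) ?_
    have : z + e + t k • w - z = e + t k • w := by abel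
    rw [e1, this, det_add_right, det_smul_right, det_self, he]; norm_num
  have hex2 : ∀ᶠ k in (X.U : Filter ℕ), ∃ c, Tr (X.F k) (z - w) z c := by
    filter_upwards [h2, ht] with k g1 g2
    refine (X.pt k).apex ((X.pt k).symm g1) ((X.pt k).inR ((X.pt k).symm g2)) ?_
    have : z + e + t k • w - (z - w) = e + (t k + 1) • w := by rw [add_smul, one_smul]; abel
    rw [e1', this, det_add_right, det_smul_right, det_self, he]; norm_num
  have hn1 : ¬ ∃ d, Tr X.Ei z (z + w) d := by
    rintro ⟨d, hd⟩
    have hd4 := hd.2.2.2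
    rw [e1] at hd4
    obtain ⟨s, hs⟩ : ∃ s : ℤ, d = z + e + s • w := by
      refine ⟨det (d - z) e, ?_⟩
      have h4 := expand he (d - z)
      rw [hd4, one_smul] at h4
      have h7 : z + e + det (d - z) e • w = z + (det (d - z) e • w + e) := by abel
      rw [h7, ← h4]; abel
    have hd' : ∀ᶠ k in (X.U : Filter ℕ), X.F k z (z + e + (fun _ => s : ℕ → ℤ) k • w) := by
      filter_upwards [X.tr_iff.mp hd] with k hk
      have := (X.pt k).symm hk.2.2.1
      rwa [hs] at this
    have h5 := X.same_inf he hR ht hd'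
    rcases hlim with h | h
    · obtain ⟨k, hk⟩ := (h5.1 h s).exists
      exact lt_irrefl _ hk
    · obtain ⟨k, hk⟩ := (h5.2 h s).exists
      exact lt_irrefl _ hk
  have hn2 : ¬ ∃ d, Tr X.Ei (z - w) z d := by
    rintro ⟨d, hd⟩
    have hd4 := hd.2.2.2
    rw [e1'] at hd4
    obtain ⟨s, hs⟩ : ∃ s : ℤ, d = z + e + s • w := by
      refine ⟨det (d - z) e, ?_⟩
      have h4 := expand he (d - z)
      have h6 : det w (d - z) = 1 := by
        have : d - z = (d - (z - w)) - w := by abel
        rw [this, det_sub_right, det_self, hd4]; norm_num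
      rw [h6, one_smul] at h4
      have h7 : z + e + det (d - z) e • w = z + (det (d - z) e • w + e) := by abel
      rw [h7, ← h4]; abel
    have hd' : ∀ᶠ k in (X.U : Filter ℕ), X.F k z (z + e + (fun _ => s : ℕ → ℤ) k • w) := by
      filter_upwards [X.tr_iff.mp hd] with k hk
      have := hk.2.1
      rwa [hs] at this
    have h5 := X.same_inf he hR ht hd'
    rcases hlim with h | h
    · obtain ⟨k, hk⟩ := (h5.1 h s).exists
      exact lt_irrefl _ hk
    · obtain ⟨k, hk⟩ := (h5.2 h s).exists
      exact lt_irrefl _ hk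
  refine ⟨fun Z hZ => ?_, hn1, hn2⟩
  obtain ⟨t1, ht1, -⟩ := X.apex_dich (by rw [e1]; exact he) hex1 hn1
  obtain ⟨t2, ht2, -⟩ := X.apex_dich (by rw [e1']; exact he) hex2 hn2
  rw [e1] at ht1
  rw [e1'] at ht2
  have ht1' : ∀ᶠ k in (X.U : Filter ℕ), X.F k z (z + e + t1 k • w) := by
    filter_upwards [ht1] with k hk using (X.pt k).symm hk.2.2.1
  have ht2' : ∀ᶠ k in (X.U : Filter ℕ), X.F k z (z + e + (t2 k - 1) • w) := by
    filter_upwards [ht2] with k hk
    have := hk.2.1
    have e2 : z - w + e + t2 k • w = z + e + (t2 k - 1) • w := by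
      rw [sub_smul, one_smul]; abel
    rwa [e2] at this
  rcases hlim with h | h
  · have h6 := (X.same_inf he hR ht (t' := fun k => t2 k - 1) ht2').1 h (|det e Z|)
    filter_upwards [h6, ht2] with k g1 g2 g3
    have g4 : Tr (X.F k) z (z + e + (t2 k - 1) • w) (z - w) := by
      have e2 : z - w + e + t2 k • w = z + e + (t2 k - 1) • w := by
        rw [sub_smul, one_smul]; abel
      rw [e2] at g2
      obtain ⟨q1, q2, q3, q4⟩ := g2
      refine ⟨q2, q3, q1, ?_⟩
      simp only [det, Prod.fst_sub, Prod.snd_sub] at *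
      linarith
    refine (X.pt k).inside g4 g3 ?_ ?_
    · have e3 : z + e + (t2 k - 1) • w - z = e + (t2 k - 1) • w := by abel
      have e4 : z + Z - z = Z := by abel
      rw [e3, e4, det_add_left, det_smul_left]
      have : -|det e Z| ≤ det e Z := neg_abs_le _
      have : |det e Z| * 1 ≤ (t2 k - 1) * det w Z := by
        apply mul_le_mul g1.le (by linarith) (by norm_num)
        exact le_trans (abs_nonneg _) g1.le
      have h7 : 0 ≤ |det e Z| := abs_nonneg _
      have h8 : |det e Z| < (t2 k - 1) * det w Z := by nlinarith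
      linarith
    · have e4 : z + Z - z = Z := by abel
      have e5 : z - w - z = - w := by abel
      rw [e4, e5, det_neg_right, det_swap Z w]
      linarith
  · have h6 := (X.same_inf he hR ht ht1').2 h (-|det e Z|)
    filter_upwards [h6, ht1] with k g1 g2 g3
    refine (X.pt k).inside g2 g3 ?_ ?_
    · have e4 : z + Z - z = Z := by abel
      rw [e1, e4]; exact hZ
    · have e3 : z + e + t1 k • w - z = e + t1 k • w := by abel
      have e4 : z + Z - z = Z := by abel
      rw [e3, e4, det_add_right, det_smul_right, det_swap Z e, det_swap Z w]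
      have h7 : 0 ≤ |det e Z| := abs_nonneg _
      have h8 : det e Z ≤ |det e Z| := le_abs_self _
      have h9 : |det e Z| < (- t1 k) * det w Z := by nlinarith
      linarith

end LSeq

/-- sign of a rotation direction -/
def sgn (s : Bool) : ℤ := if s then 1 else -1

namespace LSeq

variable (X : LSeq)

/-- visible rotation step around `z` -/
def Nx (s : Bool) (z x x' : Pt) : Prop := if s then X.Vis z x x' else X.Vis z x' x

theorem Nx.rt {X : LSeq} {s : Bool} {z x x' : Pt} (h : X.Nx s z x x') :
    ∀ᶠ k in (X.U : Filter ℕ), Rt (X.F k) s z x x' := by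
  cases s
  · simp only [Nx, Bool.false_eq_true, if_false] at h
    filter_upwards [X.tr_iff.mp (X.vis_tr h)] with k hk
    simp only [Rt, Bool.false_eq_true, if_false]; exact hk
  · simp only [Nx, if_true] at h
    filter_upwards [X.tr_iff.mp (X.vis_tr h)] with k hk
    simp only [Rt, if_true]; exact hk

theorem Nx.det {X : LSeq} {s : Bool} {z x x' : Pt} (h : X.Nx s z x x') :
    sgn s * MP01b126.det (x - z) (x' - z) = 1 := by
  cases s
  · simp only [Nx, Bool.false_eq_true, if_false] at h
    have := (X.vis_tr h).2.2.2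
    simp only [sgn, Bool.false_eq_true, if_false]
    rw [det_swap, this]; norm_num
  · simp only [Nx, if_true] at h
    have := (X.vis_tr h).2.2.2
    simp only [sgn, if_true]
    rw [this]; norm_num

theorem Nx.edge {X : LSeq} {s : Bool} {z x x' : Pt} (h : X.Nx s z x x') :
    X.Ei z x ∧ X.Ei z x' := by
  cases s
  · simp only [Nx, Bool.false_eq_true, if_false] at h
    have := X.vis_tr h
    exact ⟨X.Ei_symm this.2.2.1, this.1⟩
  · simp only [Nx, if_true] at h
    have := X.vis_tr h
    exact ⟨this.1, X.Ei_symm this.2.2.1⟩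

/-- the next face in a rotation is visible, or there is a full line -/
theorem Nx.next {X : LSeq} {s : Bool} {z y x : Pt} (h : X.Nx s z y x) :
    (∃ x', X.Nx s z x x') ∨ X.Line z x := by
  cases s
  · simp only [Nx, Bool.false_eq_true, if_false] at h ⊢
    -- `Vis z x y`
    by_cases hx : ∃ d, Tr X.Ei x z d
    · obtain ⟨d, hd⟩ := hx
      exact Or.inl ⟨d, (Vis.opp h hd).rot⟩
    · exact Or.inr (X.full_line h hx)
  · simp only [Nx, if_true] at h ⊢
    -- `Vis z y x`
    by_cases hx : ∃ d, Tr X.Ei z x d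
    · obtain ⟨d, hd⟩ := hx
      exact Or.inl ⟨d, Vis.opp h.rot.rot hd⟩
    · exact Or.inr (X.full_line h.rot.rot hx).symm

/-- the visible half star at a vertex of a wall line -/
theorem half_star (s : Bool) {z w x1 : Pt} (h0 : X.Nx s z (z + w) x1) (hl : X.Line z (z + w))
    (he : ∀ Z : Pt, sgn s * det w Z < 0 → ∀ᶠ k in (X.U : Filter ℕ), ¬ X.F k z (z + Z)) :
    ∃ (n : ℕ) (f : ℕ → Pt), 0 < n ∧ f 0 = z + w ∧ f n = z - w ∧
      (∀ i < n, X.Nx s z (f i) (f (i + 1))) ∧ ∀ i, 0 < i → i < n → 0 < sgn s * det w (f i - z) := by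
  classical
  have hprim : Prim w := by
    have := X.Ei_prim hl.edge
    have e1 : z + w - z = w := by abel
    rwa [e1] at this
  have hE : ∀ Z : Pt, sgn s * det w Z < 0 → ¬ X.Ei z (z + Z) := by
    intro Z hZ hEi
    obtain ⟨k, hk⟩ := ((he Z hZ).and hEi).exists
    exact hk.1 hk.2
  by_contra hno
  push Not at hno
  -- chains of any length
  have hch : ∀ i : ℕ, ∃ f : ℕ → Pt, f 0 = z + w ∧ (∀ l < i, X.Nx s z (f l) (f (l + 1))) ∧
      ∀ l, 0 < l → l ≤ i → 0 < sgn s * det w (f l - z) := by
    intro i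
    induction i with
    | zero => exact ⟨fun _ => z + w, rfl, fun l hl => absurd hl (Nat.not_lt_zero l),
        fun l h1 h2 => by omega⟩
    | succ i ih =>
      obtain ⟨f, hf0, hf1, hf2⟩ := ih
      -- the next face exists
      obtain ⟨x', hx'⟩ : ∃ x', X.Nx s z (f i) x' := by
        rcases Nat.eq_zero_or_pos i with hi | hi
        · subst hi; rw [hf0]; exact ⟨x1, h0⟩
        · have h1 := hf1 (i - 1) (by omega)
          have e1 : i - 1 + 1 = i := by omega
          rw [e1] at h1
          rcases h1.next with h2 | h2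
          · exact h2
          · exfalso
            have h3 := h2.back
            have e2 : z - (f i - z) = z + (z - f i) := by abel
            rw [e2] at h3
            refine hE _ ?_ h3
            have h4 := hf2 i hi le_rfl
            have e3 : z - f i = -(f i - z) := by abel
            rw [e3, det_neg_right]
            linarith
      have hdet := hx'.det
      have hedge := hx'.edge
      rcases lt_trichotomy (sgn s * det w (x' - z)) 0 with h1 | h1 | h1
      · exfalso
        refine hE (x' - z) h1 ?_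
        have : z + (x' - z) = x' := by abel
        rw [this]; exact hedge.2
      · -- on the line
        have h2 : det w (x' - z) = 0 := by
          have hs : sgn s ≠ 0 := by cases s <;> simp [sgn]
          exact (mul_eq_zero.mp h1).resolve_left hs
        rcases hprim.eq_or_neg (X.Ei_prim hedge.2) h2 with h3 | h3
        · exfalso
          rw [h3] at hdet
          rcases Nat.eq_zero_or_pos i with hi | hi
          · subst hi
            rw [hf0] at hdet
            have e1 : z + w - z = w := by abel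
            rw [e1, det_self] at hdet
            simp at hdet
          · have h4 := hf2 i hi le_rfl
            rw [det_swap] at hdet
            linarith
        · exfalso
          have hx : x' = z - w := by
            have : x' = z + (x' - z) := by abel
            rw [this, h3]; abel
          -- then the half star is complete
          set g : ℕ → Pt := Function.update f (i + 1) x' with hg
          have hg0 : g 0 = z + w := by
            rw [hg, Function.update_of_ne (by omega)]; exact hf0
          have hgl : ∀ l ≤ i, g l = f l := by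
            intro l hl
            rw [hg, Function.update_of_ne (by omega)]
          have hg1 : g (i + 1) = x' := by rw [hg, Function.update_self]
          obtain ⟨l, hl1, hl2, hl3⟩ := hno (i + 1) g (Nat.succ_pos i) hg0 (by rw [hg1, hx])
            (by
              intro l hl
              rcases Nat.lt_succ_iff_lt_or_eq.mp hl with h5 | h5
              · rw [hgl l h5.le, hgl (l + 1) h5]; exact hf1 l h5
              · rw [h5, hgl i le_rfl, hg1]; exact hx')
          rw [hgl l (by omega)] at hl3
          exact absurd (hf2 l hl1 (by omega)) (not_lt.mpr hl3)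
      · refine ⟨Function.update f (i + 1) x', ?_, ?_, ?_⟩
        · rw [Function.update_of_ne (by omega)]; exact hf0
        · intro l hl
          rcases Nat.lt_succ_iff_lt_or_eq.mp hl with h5 | h5
          · rw [Function.update_of_ne (by omega), Function.update_of_ne (by omega)]
            exact hf1 l h5
          · rw [h5, Function.update_of_ne (by omega), Function.update_self]; exact hx'
        · intro l hl1 hl2
          rcases Nat.le_succ_iff.mp hl2 with h5 | h5
          · rw [Function.update_of_ne (by omega)]; exact hf2 l hl1 h5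
          · rw [h5, Function.update_self]; exact h1
  -- the star event
  have hreach : ∃ R, ∀ᶠ k in (X.U : Filter ℕ), Reach (X.F k) R rt (z, z + w) := by
    cases s
    · simp only [Nx, Bool.false_eq_true, if_false] at h0
      exact X.vis_reach' h0.rot.rot
    · simp only [Nx, if_true] at h0
      exact X.vis_reach h0
  obtain ⟨R, hR⟩ := hreach
  obtain ⟨a, ha⟩ := X.full R
  obtain ⟨K, hK⟩ := X.star R
  obtain ⟨f, hf0, hf1, hf2⟩ := hch K
  have hrs : ∀ᶠ k in (X.U : Filter ℕ), ∀ i ∈ Finset.range K, Rt (X.F k) s z (f i) (f (i + 1)) :=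
    (Filter.eventually_all_finset _).mpr (fun i hi => (hf1 i (Finset.mem_range.mp hi)).rt)
  have hemp : ∀ᶠ k in (X.U : Filter ℕ), ∀ i ∈ Finset.Icc 1 K, ¬ X.F k z (z + (z - f i)) := by
    refine (Filter.eventually_all_finset _).mpr (fun i hi => he _ ?_)
    simp only [Finset.mem_Icc] at hi
    have h4 := hf2 i hi.1 hi.2
    have e3 : z - f i = -(f i - z) := by abel
    rw [e3, det_neg_right]
    linarith
  obtain ⟨k, ⟨⟨⟨⟨h1, h2⟩, h3⟩, h4⟩, h5⟩, h6⟩ := (((((hR.and (hl.full a)).and ha).and hK).and
    (hrs.and hemp)).and (X.hA.eventually_ge_atTop 1)).exists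
  have hfull := h3 _ h1 h2
  obtain ⟨i, hi1, hi2, hi3⟩ := h4 _ h1 hfull s f hf0 (fun i hi => h5.1 i (Finset.mem_range.mpr hi))
  have h7 := hi3.2 0 (by omega)
  simp only [Nat.cast_zero, zero_add, one_smul, zero_smul, sub_zero] at h7
  have h8 := (X.pt k).symm h7
  have e2 : z - (f i - z) = z + (z - f i) := by abel
  rw [e2] at h8
  exact h5.2 i (Finset.mem_Icc.mpr ⟨hi1, hi2⟩) h8

/-- everything about a wall: the line, emptiness behind both ends, half stars, propagation -/
theorem WL_step {a b : Pt} (h : X.WL a b) :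
    X.Line a b ∧
    (∀ Z : Pt, 0 < det (b - a) Z → ∀ᶠ k in (X.U : Filter ℕ), ¬ X.F k a (a + Z)) ∧
    (∀ Z : Pt, 0 < det (b - a) Z → ∀ᶠ k in (X.U : Filter ℕ), ¬ X.F k b (b + Z)) ∧
    X.WL (a - (b - a)) a ∧ X.WL b (b + (b - a)) ∧
    (∃ (n : ℕ) (f : ℕ → Pt), 0 < n ∧ f 0 = b ∧ f n = a - (b - a) ∧
      ∀ i < n, X.Nx false a (f i) (f (i + 1))) ∧
    (∃ (n : ℕ) (f : ℕ → Pt), 0 < n ∧ f 0 = a ∧ f n = b + (b - a) ∧
      ∀ i < n, X.Nx true b (f i) (f (i + 1))) := by
  obtain ⟨⟨c, hc⟩, hn⟩ := h
  have hline : X.Line a b := (X.full_line hc hn).symm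
  set w := b - a with hw
  have hb : a + w = b := by rw [hw]; abel
  have ha : b - w = a := by rw [hw]; abel
  obtain ⟨R, hR⟩ := X.vis_reach hc
  obtain ⟨R', hR'⟩ := X.vis_reach' hc
  have hex : ∀ᶠ k in (X.U : Filter ℕ), ∃ d, Tr (X.F k) a b d := by
    filter_upwards [hR', X.bd R'] with k h1 h2
    exact h2 _ h1
  -- at `a`
  obtain ⟨ea, ea1, ea2⟩ := X.behind (z := a) (w := w) (by rw [hb]; exact hline.edge)
    hline.back ⟨R', by filter_upwards [hR'] with k hk; left; rw [hb]; exact hk⟩
    (Or.inl ⟨by rw [hb]; exact hex, by rw [hb]; exact hn⟩)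
  obtain ⟨eb, eb1, eb2⟩ := X.behind (z := b) (w := w) (by
      have := hline.symm.back
      have e : b - (a - b) = b + w := by rw [hw]; abel
      rwa [e] at this)
    (by rw [ha]; exact X.Ei_symm hline.edge)
    ⟨R, by filter_upwards [hR] with k hk; right; rw [ha]; exact hk⟩
    (Or.inr ⟨by rw [ha]; exact hex, by rw [ha]; exact hn⟩)
  obtain ⟨n, f, hn0, hf0, hfn, hf, -⟩ := X.half_star false (z := a) (w := w) (x1 := c)
    (by simp only [Nx, Bool.false_eq_true, if_false]; rw [hb]; exact hc.rot)
    (by rw [hb]; exact hline)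
    (by
      intro Z hZ
      refine ea Z ?_
      simp only [sgn, Bool.false_eq_true, if_false] at hZ
      linarith)
  have ew : b + -w = a := by rw [hw]; abel
  obtain ⟨n', f', hn0', hf0', hfn', hf', -⟩ := X.half_star true (z := b) (w := -w) (x1 := c)
    (by simp only [Nx, if_true]; rw [ew]; exact hc)
    (by rw [ew]; exact hline.symm)
    (by
      intro Z hZ
      refine eb Z ?_
      simp only [sgn, if_true, det_neg_left] at hZ
      linarith)
  rw [hb] at hf0
  rw [ew] at hf0'
  rw [sub_neg_eq_add] at hfn'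
  refine ⟨hline, ea, eb, ⟨?_, ea2⟩, ⟨?_, eb1⟩, ⟨n, f, hn0, hf0, hfn, hf⟩,
    ⟨n', f', hn0', hf0', hfn', hf'⟩⟩
  · have h1 := hf (n - 1) (by omega)
    have e1 : n - 1 + 1 = n := by omega
    rw [e1, hfn] at h1
    simp only [Nx, Bool.false_eq_true, if_false] at h1
    exact ⟨_, h1⟩
  · have h1 := hf' (n' - 1) (by omega)
    have e1 : n' - 1 + 1 = n' := by omega
    rw [e1, hfn'] at h1
    simp only [Nx, if_true] at h1
    exact ⟨_, h1.rot.rot⟩

theorem WL_line {a b : Pt} (h : X.WL a b) (j : ℤ) :
    X.WL (a + j • (b - a)) (a + (j + 1) • (b - a)) := by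
  have hw : ∀ i : ℤ, a + (i + 1) • (b - a) - (a + i • (b - a)) = b - a := by
    intro i; rw [add_smul, one_smul]; abel
  induction j using Int.induction_on with
  | zero =>
    have e : a + (b - a) = b := by abel
    simp only [zero_smul, add_zero, zero_add, one_smul, e]; exact h
  | succ i ih =>
    have := (X.WL_step ih).2.2.2.2.1
    rw [hw] at this
    have e : a + ((i : ℤ) + 1) • (b - a) + (b - a) = a + ((i : ℤ) + 1 + 1) • (b - a) := by
      rw [add_smul ((i : ℤ) + 1) 1, one_smul]; abel
    rwa [e] at this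
  | pred i ih =>
    have := (X.WL_step ih).2.2.2.1
    rw [hw] at this
    have e : a + (-(i : ℤ)) • (b - a) - (b - a) = a + (-(i : ℤ) - 1) • (b - a) := by
      rw [sub_smul (-(i : ℤ)) 1, one_smul]; abel
    rw [e] at this
    have e2 : (-(i : ℤ) - 1 + 1) = -(i : ℤ) := by ring
    rw [e2]; exact this

theorem WL_empty {a b : Pt} (h : X.WL a b) {z : Pt} (hz : 0 < det (b - a) z) :
    ∀ᶠ k in (X.U : Filter ℕ), ¬ X.F k a (a + z) := (X.WL_step h).2.1 z hz

theorem WL_empty' {a b : Pt} (h : X.WL a b) {z : Pt} (hz : 0 < det (b - a) z) :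
    ∀ᶠ k in (X.U : Filter ℕ), ¬ X.F k b (b + z) := (X.WL_step h).2.2.1 z hz

end LSeq

end Pool.Agent.MP01b126
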