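import Pool.Agent.Lib.MP_01b126_co.Ul.Lim

/-!
# MP_01b126_co, ultralimit: strips give good windows
-/

namespace Pool.Agent.MP01b126

open Filter

theorem dt_eq (u v : Pt) : MP01b126.dt u v = det u v := rfl

namespace LSeq

variable (X : LSeq)

/-- a visible edge is eventually an edge -/
theorem ev_of_VE {Y : MP01b126.Lim} (hV : Y.V = X.Vis) {p q : Pt} (h : Y.VE p q) :
    ∀ᶠ k in (X.U : Filter ℕ), X.F k p q := by
  obtain ⟨c, hc | hc⟩ := h
  · rw [hV] at hc
    exact (X.vis_tr hc).1
  · rw [hV] at hc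
    filter_upwards [(X.vis_tr hc).1] with k hk
    exact (X.pt k).symm hk

theorem ev_tr {a b c : Pt} (h : X.Vis a b c) : ∀ᶠ k in (X.U : Filter ℕ), Tr (X.F k) a b c := by
  obtain ⟨h1, h2, h3, h4⟩ := X.vis_tr h
  filter_upwards [h1, h2, h3] with k k1 k2 k3
  exact ⟨k1, k2, k3, h4⟩

/-- the wall through a boundary vertex of a strip -/
theorem wall_facts {Y : MP01b126.Lim} (hV : Y.V = X.Vis) (hW : Y.W = X.Wl) {P q d : Pt}
    (h : Y.VE P q) (hd : det d (q - P) ≠ 0) (hw : Y.W q (q + d)) :
    (∀ z : Pt, 0 < det d (q - P) * det d z → ∀ᶠ k in (X.U : Filter ℕ), ¬ X.F k q (q + z)) ∧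
    ∀ j : ℤ, ∀ᶠ k in (X.U : Filter ℕ), X.F k (q + j • d) (q + (j + 1) • d) := by
  rw [hW] at hw
  have hE := X.ev_of_VE hV h
  have hE' : ∀ᶠ k in (X.U : Filter ℕ), X.F k q (q + (P - q)) := by
    filter_upwards [hE] with k hk
    rw [add_sub_cancel]; exact (X.pt k).symm hk
  have hne : ∀ z : Pt, (∀ᶠ k in (X.U : Filter ℕ), X.F k q (q + z)) →
      (∀ᶠ k in (X.U : Filter ℕ), ¬ X.F k q (q + z)) → False := by
    intro z h1 h2
    obtain ⟨k, h3, h4⟩ := (h1.and h2).exists
    exact h4 h3
  have edge : ∀ {a b : Pt}, X.WL a b → ∀ᶠ k in (X.U : Filter ℕ), X.F k a b := by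
    intro a b hab
    obtain ⟨⟨c, hc⟩, -⟩ := hab
    filter_upwards [(X.vis_tr hc).1] with k hk
    exact (X.pt k).symm hk
  have e0 : P - q = -(q - P) := by abel
  rcases hw with hw | hw
  · have e1 : q + d - q = d := by abel
    refine ⟨?_, ?_⟩
    · intro z hz
      have hneg : ¬ 0 < det d (P - q) := by
        intro hpos
        exact hne _ hE' (X.WL_empty hw (by rw [e1]; exact hpos))
      rw [e0, det_neg_right] at hneg
      have hpos : 0 < det d (q - P) := by omega
      exact X.WL_empty hw (by rw [e1]; exact (mul_pos_iff_of_pos_left hpos).mp hz)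
    · intro j
      have := X.WL_line hw j
      rw [e1] at this
      exact edge this
  · have e1 : q - (q + d) = -d := by abel
    have hw' : X.WL q (q - d) := by
      have := X.WL_line hw 1
      rw [e1] at this
      convert this using 1
      · simp
      · rw [show (1 : ℤ) + 1 = 2 by norm_num, smul_neg, two_smul]; abel
    have e2 : q - d - q = -d := by abel
    refine ⟨?_, ?_⟩
    · intro z hz
      have hneg : ¬ 0 < det (-d) (P - q) := by
        intro hpos
        exact hne _ hE' (X.WL_empty hw' (by rw [e2]; exact hpos))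
      rw [e0, det_neg_right, det_neg_left, neg_neg] at hneg
      have hpos : 0 < -det d (q - P) := by omega
      refine X.WL_empty hw' (by
        rw [e2, det_neg_left]
        have : 0 < (-det d (q - P)) * (-det d z) := by linarith
        exact (mul_pos_iff_of_pos_left hpos).mp this)
    · intro j
      have := X.WL_line hw (-j)
      rw [e1] at this
      filter_upwards [edge this] with k hk
      have hk' := (X.pt k).symm hk
      convert hk' using 1
      · simp only [add_smul, neg_smul, smul_neg, neg_neg, one_smul]; abel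
      · simp only [add_smul, neg_smul, smul_neg, neg_neg, one_smul]; abel

/-- the neighbours of a closed vertex -/
theorem nbr_of_closed {Rg : Pt → Prop} {F : Pt → Pt → Prop} (h : PT Rg F) {P : Pt}
    {S : Finset (Pt × Pt)} (hS : ∀ s ∈ S, Tr F P s.1 s.2)
    (hc : ∀ z : Pt, z ≠ 0 → ∃ s ∈ S, 0 ≤ det (s.1 - P) z ∧ 0 ≤ det z (s.2 - P)) {q : Pt}
    (hq : F P q) : ∃ s ∈ S, q = s.1 ∨ q = s.2 := by
  have hpq := h.prim hq
  obtain ⟨s, hs, h1, h2⟩ := hc (q - P) hpq.ne_zero
  refine ⟨s, hs, ?_⟩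
  have hT := hS s hs
  have hd := hT.2.2.2
  rcases h1.lt_or_eq with h3 | h3
  · rcases h2.lt_or_eq with h4 | h4
    · exact (h.inside hT hq h3 h4).elim
    · right
      rcases hpq.eq_or_neg (h.prim (h.symm hT.2.2.1)) h4.symm with h5 | h5
      · exact (sub_left_injective h5).symm
      · exfalso
        rw [h5, det_neg_right] at hd
        omega
  · left
    have hp1 := h.prim hT.1
    rcases hp1.eq_or_neg hpq h3.symm with h5 | h5
    · exact sub_left_injective h5
    · exfalso
      rw [h5, det_neg_left] at h2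
      omega

theorem det_sub_line {d q P : Pt} (x : ℤ) : det d (q - (P + x • d)) = det d (q - P) := by
  have : q - (P + x • d) = (q - P) - x • d := by abel
  rw [this, det_sub_right, det_smul_right, det_self, mul_zero, sub_zero]

/-- all facts about one middle vertex of a strip -/
def StripAt (F : Pt → Pt → Prop) (d P : Pt) (W : ℕ) : Prop :=
  (∀ q, F P q → det d (q - P) = -1 ∨ det d (q - P) = 0 ∨ det d (q - P) = 1) ∧
  (∀ q, F P q → ∃ c, Tr F P q c) ∧
  (∀ q, F P q → det d (q - P) ≠ 0 → ¬ F q (q + (q - P))) ∧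
  (∀ p q, F p q → p + q = P + (P + d) → det d (q - P) ≠ 0 → ¬ F q (q + (q - p))) ∧
  (∀ q, F P q → det d (q - P) ≠ 0 → ∀ j : ℤ, |j| ≤ W → F (q + j • d) (q + (j + 1) • d))

theorem strip_at {Y : MP01b126.Lim} (hV : Y.V = X.Vis) (hW : Y.W = X.Wl) {d P : Pt} (hd : Prim d)
    (hcl : Y.ClosedAt P)
    (hst : ∀ w, Y.VE P w → MP01b126.dt d (w - P) = 0 ∨
      (|MP01b126.dt d (w - P)| = 1 ∧ Y.W w (w + d))) (W : ℕ) :
    ∀ᶠ k in (X.U : Filter ℕ), StripAt (X.F k) d P W := by
  obtain ⟨S, hS1, hS2⟩ := hcl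
  rw [hV] at hS1
  have hS2' : ∀ z : Pt, z ≠ 0 → ∃ s ∈ S, 0 ≤ det (s.1 - P) z ∧ 0 ≤ det z (s.2 - P) := hS2
  -- visible edges
  have hVE1 : ∀ s ∈ S, Y.VE P s.1 := fun s hs => ⟨s.2, Or.inl (by rw [hV]; exact hS1 s hs)⟩
  have hVE2 : ∀ s ∈ S, Y.VE P s.2 := fun s hs =>
    ⟨s.1, Or.inr (by rw [hV]; exact (hS1 s hs).rot.rot)⟩
  have key : ∀ q, Y.VE P q → det d (q - P) ≠ 0 → |det d (q - P)| = 1 ∧
      (∀ z : Pt, 0 < det d (q - P) * det d z → ∀ᶠ k in (X.U : Filter ℕ), ¬ X.F k q (q + z)) ∧
      ∀ j : ℤ, ∀ᶠ k in (X.U : Filter ℕ), X.F k (q + j • d) (q + (j + 1) • d) := by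
    intro q hq hne
    rcases hst q hq with h1 | ⟨h1, h2⟩
    · exact (hne h1).elim
    · exact ⟨h1, X.wall_facts hV hW hq hne h2⟩
  have rows : ∀ q, Y.VE P q → det d (q - P) = -1 ∨ det d (q - P) = 0 ∨ det d (q - P) = 1 := by
    intro q hq
    by_cases hne : det d (q - P) = 0
    · exact Or.inr (Or.inl hne)
    · have := (key q hq hne).1
      rcases eq_or_eq_neg_of_abs_eq this with h | h
      · exact Or.inr (Or.inr h)
      · exact Or.inl h
  -- eventual facts
  have a1 : ∀ᶠ k in (X.U : Filter ℕ), ∀ s ∈ S, Tr (X.F k) P s.1 s.2 := by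
    rw [Filter.eventually_all_finset]
    exact fun s hs => X.ev_tr (hS1 s hs)
  have a2 : ∀ q, Y.VE P q → ∀ᶠ k in (X.U : Filter ℕ), det d (q - P) ≠ 0 →
      ¬ X.F k q (q + (q - P)) := by
    intro q hq
    by_cases hne : det d (q - P) = 0
    · exact Eventually.of_forall (fun k h => (h hne).elim)
    · have hsq : 0 < det d (q - P) * det d (q - P) := mul_self_pos.mpr hne
      have := (key q hq hne).2.1 (q - P) hsq
      filter_upwards [this] with k hk _
      exact hk
  have a3 : ∀ q p, Y.VE P q → Y.VE P p → ∀ᶠ k in (X.U : Filter ℕ), det d (q - P) ≠ 0 →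
      det d (p - P) = - det d (q - P) → ¬ X.F k q (q + (q - p)) := by
    intro q p hq hp
    by_cases hne : det d (q - P) = 0
    · exact Eventually.of_forall (fun k h => (h hne).elim)
    · by_cases he : det d (p - P) = - det d (q - P)
      · have e : det d (q - p) = 2 * det d (q - P) := by
          have : q - p = (q - P) - (p - P) := by abel
          rw [this, det_sub_right, he]; ring
        have := (key q hq hne).2.1 (q - p) (by
          rw [e]
          have : 0 < det d (q - P) * det d (q - P) := mul_self_pos.mpr hne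
          linarith)
        filter_upwards [this] with k hk _ _
        exact hk
      · exact Eventually.of_forall (fun k _ h => (he h).elim)
  have a4 : ∀ q, Y.VE P q → ∀ᶠ k in (X.U : Filter ℕ), det d (q - P) ≠ 0 → ∀ j : ℤ, |j| ≤ W →
      X.F k (q + j • d) (q + (j + 1) • d) := by
    intro q hq
    by_cases hne : det d (q - P) = 0
    · exact Eventually.of_forall (fun k h => (h hne).elim)
    · have : ∀ᶠ k in (X.U : Filter ℕ), ∀ j ∈ Finset.Icc (-(W : ℤ)) W,
          X.F k (q + j • d) (q + (j + 1) • d) := by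
        rw [Filter.eventually_all_finset]
        exact fun j _ => (key q hq hne).2.2 j
      filter_upwards [this] with k hk _ j hj
      rw [abs_le] at hj
      exact hk j (Finset.mem_Icc.mpr hj)
  have b2 : ∀ᶠ k in (X.U : Filter ℕ), ∀ s ∈ S,
      (det d (s.1 - P) ≠ 0 → ¬ X.F k s.1 (s.1 + (s.1 - P))) ∧
      (det d (s.2 - P) ≠ 0 → ¬ X.F k s.2 (s.2 + (s.2 - P))) := by
    rw [Filter.eventually_all_finset]
    exact fun s hs => (a2 _ (hVE1 s hs)).and (a2 _ (hVE2 s hs))
  have b3 : ∀ᶠ k in (X.U : Filter ℕ), ∀ s ∈ S,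
      (det d (s.1 - P) ≠ 0 → det d (s.2 - P) = - det d (s.1 - P) →
        ¬ X.F k s.1 (s.1 + (s.1 - s.2))) ∧
      (det d (s.2 - P) ≠ 0 → det d (s.1 - P) = - det d (s.2 - P) →
        ¬ X.F k s.2 (s.2 + (s.2 - s.1))) := by
    rw [Filter.eventually_all_finset]
    exact fun s hs => (a3 _ _ (hVE1 s hs) (hVE2 s hs)).and (a3 _ _ (hVE2 s hs) (hVE1 s hs))
  have b4 : ∀ᶠ k in (X.U : Filter ℕ), ∀ s ∈ S,
      (det d (s.1 - P) ≠ 0 → ∀ j : ℤ, |j| ≤ W → X.F k (s.1 + j • d) (s.1 + (j + 1) • d)) ∧
      (det d (s.2 - P) ≠ 0 → ∀ j : ℤ, |j| ≤ W → X.F k (s.2 + j • d) (s.2 + (j + 1) • d)) := by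
    rw [Filter.eventually_all_finset]
    exact fun s hs => (a4 _ (hVE1 s hs)).and (a4 _ (hVE2 s hs))
  filter_upwards [a1, b2, b3, b4] with k c1 c2 c3 c4
  have hpt := X.pt k
  have nb : ∀ q, X.F k P q → ∃ s ∈ S, q = s.1 ∨ q = s.2 := fun q hq =>
    nbr_of_closed hpt c1 hS2' hq
  refine ⟨?_, ?_, ?_, ?_, ?_⟩
  · intro q hq
    obtain ⟨s, hs, rfl | rfl⟩ := nb q hq
    · exact rows _ (hVE1 s hs)
    · exact rows _ (hVE2 s hs)
  · intro q hq
    -- a neighbour on the left
    obtain ⟨z, hz⟩ : ∃ z : Pt, z = (-(q - P).2, (q - P).1) := ⟨_, rfl⟩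
    have hqP := (hpt.prim hq).ne_zero
    have hzpos : 0 < det (q - P) z := by
      have : det (q - P) z = (q - P).1 * (q - P).1 + (q - P).2 * (q - P).2 := by
        rw [hz]; unfold det; ring
      rw [this]
      have h1 := mul_self_nonneg (q - P).1
      have h2 := mul_self_nonneg (q - P).2
      rcases h1.lt_or_eq with h3 | h3
      · linarith
      · rcases h2.lt_or_eq with h4 | h4
        · linarith
        · exfalso; apply hqP
          ext
          · simpa using (mul_self_eq_zero.mp h3.symm)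
          · simpa using (mul_self_eq_zero.mp h4.symm)
    have hz0 : z ≠ 0 := by
      rintro h; rw [h] at hzpos; simp at hzpos
    obtain ⟨s, hs, h1, h2⟩ := hS2' z hz0
    have hT := c1 s hs
    have hexp : det (q - P) z = det z (s.2 - P) * det (q - P) (s.1 - P) +
        det (s.1 - P) z * det (q - P) (s.2 - P) := by
      have h3 := congrArg (det (q - P)) (expand hT.2.2.2 z)
      rw [det_add_right, det_smul_right, det_smul_right] at h3
      exact h3
    have hor : 0 < det (q - P) (s.1 - P) ∨ 0 < det (q - P) (s.2 - P) := by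
      by_contra hcon
      push Not at hcon
      have l1 := mul_nonpos_of_nonneg_of_nonpos h2 hcon.1
      have l2 := mul_nonpos_of_nonneg_of_nonpos h1 hcon.2
      linarith
    rcases hor with h3 | h3
    · exact hpt.apex hq (hpt.inR hT.2.1) h3
    · exact hpt.apex hq (hpt.inR hT.2.2.1) h3
  · intro q hq hne
    obtain ⟨s, hs, rfl | rfl⟩ := nb q hq
    · exact (c2 s hs).1 hne
    · exact (c2 s hs).2 hne
  · intro p q hpq hsum hne
    obtain ⟨s, hs, h1, h2⟩ := hS2' d hd.ne_zero
    have hT := c1 s hs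
    have hdet := hT.2.2.2
    have h1' : det d (s.1 - P) ≤ 0 := by rw [det_swap] at h1; omega
    have hPd : ∀ r, X.F k P r → r = P + d → False := by
      intro r hr he
      rw [he] at hr
      rcases same_mid (hpt.prim hpq) (hpt.prim hr) hsum with ⟨h3, h4⟩ | ⟨h3, h4⟩ | h3
      · apply hne
        rw [← h4]
        have : P + d - P = d := by abel
        rw [this, det_self]
      · apply hne
        rw [← h3]; simp
      · exact hpt.ncr hpq hr h3
    by_cases e1 : det d (s.1 - P) = 0
    · have hp1 := hpt.prim hT.1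
      exfalso
      rcases hd.eq_or_neg hp1 e1 with h5 | h5
      · exact hPd _ hT.1 (by rw [← h5]; abel)
      · rw [h5, det_neg_left] at hdet
        omega
    · by_cases e2 : det d (s.2 - P) = 0
      · have hp2 := hpt.prim (hpt.symm hT.2.2.1)
        exfalso
        rcases hd.eq_or_neg hp2 e2 with h5 | h5
        · exact hPd _ (hpt.symm hT.2.2.1) (by rw [← h5]; abel)
        · rw [h5, det_neg_right, det_swap] at hdet
          omega
      · have r1 := rows _ (hVE1 s hs)
        have r2 := rows _ (hVE2 s hs)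
        have f1 : det d (s.1 - P) = -1 := by omega
        have f2 : det d (s.2 - P) = 1 := by omega
        have hs0 : det d ((s.1 - P) + (s.2 - P)) = 0 := by rw [det_add_right, f1, f2]; norm_num
        obtain ⟨t, ht⟩ := hd.eq_smul hs0
        have ht1 : t = 1 := by
          have h5 : det ((s.1 - P) + (s.2 - P)) (s.2 - P) = t * det d (s.2 - P) := by
            rw [ht, det_smul_left]
          rw [det_add_left, det_self, hdet, f2] at h5
          omega
        rw [ht1, one_smul] at ht
        have hsum' : s.1 + s.2 = P + (P + d) := by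
          have : s.1 + s.2 = P + P + ((s.1 - P) + (s.2 - P)) := by abel
          rw [this, ht]; abel
        rcases same_mid (hpt.prim hT.2.1) (hpt.prim hpq) (hsum'.trans hsum.symm) with
          ⟨h3, h4⟩ | ⟨h3, h4⟩ | h3
        · rw [h3, h4]
          exact (c3 s hs).2 e2 (by rw [f1, f2])
        · rw [h3, h4]
          exact (c3 s hs).1 e1 (by rw [f1, f2]; norm_num)
        · exact (hpt.ncr hT.2.1 hpq h3).elim
  · intro q hq hne
    obtain ⟨s, hs, rfl | rfl⟩ := nb q hq
    · exact (c4 s hs).1 hne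
    · exact (c4 s hs).2 hne

theorem strip_good {Y : MP01b126.Lim} (hV : Y.V = X.Vis) (hW : Y.W = X.Wl)
    (hS : Y.HasStrip (0, 0)) (B W : ℕ) :
    ∀ᶠ k in (X.U : Filter ℕ), ∃ d w, Good (X.F k) B W (0, 0) d w := by
  obtain ⟨d, hd, hst⟩ := hS
  obtain ⟨w, hw⟩ := Prim.exists_det (u := d) hd
  have hall : ∀ᶠ k in (X.U : Filter ℕ), ∀ x ∈ Finset.Icc (-(B : ℤ)) B,
      StripAt (X.F k) d ((0, 0) + x • d) W := by
    rw [Filter.eventually_all_finset]
    exact fun x _ => X.strip_at hV hW hd (hst x).1 (hst x).2 W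
  filter_upwards [hall] with k hk
  have hk' : ∀ x : ℤ, |x| ≤ B → StripAt (X.F k) d ((0, 0) + x • d) W :=
    fun x hx => hk x (Finset.mem_Icc.mpr (abs_le.mp hx))
  refine ⟨d, w, hw, ?_, ?_, ?_, ?_, ?_⟩
  · intro x hx q hq
    have := (hk' x hx).1 q hq
    rwa [det_sub_line] at this
  · intro x hx q hq
    exact (hk' x hx).2.1 q hq
  · intro x hx q hq hne
    exact (hk' x hx).2.2.1 q hq (by rwa [det_sub_line])
  · intro x hx p q hpq hsum hne
    refine (hk' x hx).2.2.2.1 p q hpq ?_ (by rwa [det_sub_line])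
    rw [hsum, add_smul, mul_smul, two_smul, one_smul]
    abel
  · intro x hx q hq hne
    exact (hk' x hx).2.2.2.2 q hq (by rwa [det_sub_line])

end LSeq

end Pool.Agent.MP01b126
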