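import Pool.Agent.Lib.MP_01b126_co.RareDefs
import Pool.Agent.Lib.MP_01b126_co.St.LimDefs

/-!
# MP_01b126_co, ultralimit: definitions

`PT Rg F`: the facts about one triangulation used in the limit argument, invariant under affine
unimodular maps (`Rg` = region, `F` = edge relation).
`LSeq`: a sequence of such triangulations with the root face `(0,0),(1,0),(0,1)`, along an
ultrafilter, such that no rare event is seen from the root at bounded distance.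
-/

namespace Pool.Agent.MP01b126

open Filter

/-- the facts about one triangulation, in affine coordinates -/
structure PT (Rg : Pt → Prop) (F : Pt → Pt → Prop) : Prop where
  symm : ∀ {a b : Pt}, F a b → F b a
  inR : ∀ {a b : Pt}, F a b → Rg a
  prim : ∀ {a b : Pt}, F a b → Prim (b - a)
  ncr : ∀ {a b c d : Pt}, F a b → F c d → ¬ Cross a b c d
  apex : ∀ {a b z : Pt}, F a b → Rg z → 0 < det (b - a) (z - a) → ∃ c, Tr F a b c
  uniq : ∀ {a b c d : Pt}, Tr F a b c → Tr F a b d → c = d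
  inside : ∀ {y a b x : Pt}, Tr F y a b → F y x → 0 < det (a - y) (x - y) →
    ¬ 0 < det (x - y) (b - y)
  sail : ∀ {y w e : Pt}, det w e = 1 → ∀ {i j k : ℤ}, F y (y + e + i • w) → F y (y + e + j • w) →
    i ≤ k → k ≤ j → F y (y + e + k • w)
  run : ∀ {a b c c' : Pt} {k : ℤ}, Tr F a b c → Tr F b a c' → (c - b) + (c' - b) = k • (b - a) →
    2 ≤ k → ∃ d d' : Pt, ∃ l : ℤ, Tr F b (b + (b - a)) d ∧ Tr F (b + (b - a)) b d' ∧
      (d - (b + (b - a))) + (d' - (b + (b - a))) = l • (b - a) ∧ k - 2 ≤ l ∧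
      (∃ i : ℤ, 0 ≤ i ∧ d = c + i • (b - a)) ∧ (∃ i : ℤ, 0 ≤ i ∧ d' = c' + i • (b - a))
  dirf : ∀ {y x : Pt}, Rg y → Rg x → Prim (x - y) →
    F y x ∨ ∃ a b, Tr F y a b ∧ 0 < det (a - y) (x - y) ∧ 0 < det (x - y) (b - y)
  fin : ∀ y : Pt, {x | F y x}.Finite

/-- the pull-back of a relation by an affine map -/
def pull (E : Pt → Pt → Prop) (o u v : Pt) : Pt → Pt → Prop :=
  fun a b => E (aff o u v a) (aff o u v b)

/-- the root directed edge -/
def rt : Pt × Pt := ((0, 0), (1, 0))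

/-- a sequence of triangulations seen from the root, with no rare events in sight -/
structure LSeq where
  U : Ultrafilter ℕ
  Rg : ℕ → Pt → Prop
  F : ℕ → Pt → Pt → Prop
  pt : ∀ k, PT (Rg k) (F k)
  A : ℕ → ℕ
  hA : Tendsto A (U : Filter ℕ) atTop
  root : ∀ k, Tr (F k) (0, 0) (1, 0) (0, 1)
  bd : ∀ R : ℕ, ∀ᶠ k in (U : Filter ℕ), ∀ e, Reach (F k) R rt e → ∃ c, Tr (F k) e.1 e.2 c
  run : ∀ R : ℕ, ∃ L : ℕ, ∀ᶠ k in (U : Filter ℕ), ∀ e, Reach (F k) R rt e →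
    Fwd (F k) L e → Bwd (F k) R e
  full : ∀ R : ℕ, ∃ a : ℕ, ∀ᶠ k in (U : Filter ℕ), ∀ e, Reach (F k) R rt e →
    Full (F k) a e → Full (F k) (A k) e
  star : ∀ R : ℕ, ∃ K : ℕ, ∀ᶠ k in (U : Filter ℕ), ∀ e, Reach (F k) R rt e →
    Full (F k) (A k) e → ∀ (ccw : Bool) (f : ℕ → Pt), f 0 = e.2 → RotSeq (F k) ccw e.1 K f →
      ∃ i, 1 ≤ i ∧ i ≤ K ∧ Full (F k) (A k) (e.1, f i)
  par : ∀ R : ℕ, ∃ S : ℕ, ∀ᶠ k in (U : Filter ℕ), ∀ e, Reach (F k) R rt e →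
    {x | F k e.1 x ∧ |det (e.2 - e.1) (x - e.1)| = 1}.ncard < S
  ang : ∀ R W : ℕ, ∃ D : ℕ, ∀ᶠ k in (U : Filter ℕ), ∀ e, Reach (F k) R rt e →
    D ≤ deg (F k) e.1 → ∀ f : ℕ → Pt, f 0 = e.2 → RotSeq (F k) true e.1 W f →
      ∀ j, 1 ≤ j → j ≤ W → 0 < det (e.2 - e.1) (f j - e.1)

namespace LSeq

variable (X : LSeq)

/-- the limit relation -/
def Ei (a b : Pt) : Prop := ∀ᶠ k in (X.U : Filter ℕ), X.F k a b

/-- visible faces of the limit -/
inductive Vis : Pt → Pt → Pt → Prop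
  | root : Vis (0, 0) (1, 0) (0, 1)
  | rot {a b c : Pt} : Vis a b c → Vis b c a
  | opp {a b c d : Pt} : Vis a b c → Tr X.Ei b a d → Vis b a d

/-- `ab` is a wall with the visible face on its right side -/
def WL (a b : Pt) : Prop := (∃ c, X.Vis b a c) ∧ ¬ ∃ d, Tr X.Ei a b d

/-- walls -/
def Wl (a b : Pt) : Prop := X.WL a b ∨ X.WL b a

end LSeq

/-- What is produced from a failure of `StructureThm`. -/
def SelectThm : Prop :=
  ¬ StructureThm → ∃ (D L B W : ℕ) (X : LSeq) (m n : ℕ → ℕ) (E : ℕ → Pt → Pt → Prop)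
    (o u v : ℕ → Pt), (X.U : Filter ℕ) ≤ atTop ∧ (∀ k, IsTri (m k) (n k) (E k)) ∧
      (∀ k, det (u k) (v k) = 1) ∧ (∀ k, X.F k = pull (E k) (o k) (u k) (v k)) ∧
      (∀ k, X.Rg k = fun x => InR (m k) (n k) (aff (o k) (u k) (v k) x)) ∧
      ∀ᶠ k in (X.U : Filter ℕ), Tame (E k) D L (o k) ∧ (¬ ∃ d w, Good (E k) B W (o k) d w) ∧
        ¬ Site (m k) (n k) (E k) k (o k)

end Pool.Agent.MP01b126
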